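import Mathlib

/-!
Integer weights with prescribed margins on almost all of a Cayley table.
-/

namespace Pool.Agent.Lib.MP_185394_co.Near

open Finset

lemma exists_notMem_of_card_lt {G : Type} [Fintype G] {s : Finset G} (h : s.card < Fintype.card G) :
    ∃ x, x ∉ s := by
  by_contra hcon
  push Not at hcon
  have h1 : s = univ := by
    ext x
    simp [hcon x]
  rw [h1, Finset.card_univ] at h
  exact lt_irrefl _ h

/-- Almost all the cells of the Cayley table of `G` with the row `0`, the column `0` and the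
symbol `κ` deleted. -/
structure Dense {G : Type} [AddCommGroup G] [Fintype G] (κ : G) (nat : G → G → Prop)
    [∀ x y, Decidable (nat x y)] (t : ℕ) : Prop where
  x0 : ∀ X Y, nat X Y → X ≠ 0
  y0 : ∀ X Y, nat X Y → Y ≠ 0
  zk : ∀ X Y, nat X Y → X + Y ≠ κ
  row : ∀ X, X ≠ 0 → (univ.filter fun Y => ¬ nat X Y).card ≤ t
  col : ∀ Y, Y ≠ 0 → (univ.filter fun X => ¬ nat X Y).card ≤ t
  sym : ∀ Z, Z ≠ κ → (univ.filter fun X => ¬ nat X (Z - X)).card ≤ t

variable {G : Type} [AddCommGroup G] [Fintype G] {κ : G} {nat : G → G → Prop}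
    [∀ x y, Decidable (nat x y)] {t : ℕ}

lemma card_filter_add_right (p : G → Prop) [DecidablePred p] (s : G) :
    (univ.filter fun Y => p (Y + s)).card = (univ.filter fun Y => p Y).card := by
  apply Finset.card_bij (fun Y _ => Y + s)
  · intro Y hY
    rw [mem_filter] at hY ⊢
    exact ⟨mem_univ _, hY.2⟩
  · intro Y _ Y' _ h
    exact add_right_cancel h
  · intro Y hY
    rw [mem_filter] at hY
    exact ⟨Y - s, by simpa using hY.2, by simp⟩

lemma exists_of_card_filter {G : Type} [Fintype G] [DecidableEq G]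
    (p q r s : G → Prop) [DecidablePred p] [DecidablePred q]
    [DecidablePred r] [DecidablePred s] {t : ℕ} (hp : (univ.filter fun Y => ¬ p Y).card ≤ t)
    (hq : (univ.filter fun Y => ¬ q Y).card ≤ t) (hr : (univ.filter fun Y => ¬ r Y).card ≤ t)
    (hs : (univ.filter fun Y => ¬ s Y).card ≤ t) (ht : 4 * t < Fintype.card G) :
    ∃ Y, p Y ∧ q Y ∧ r Y ∧ s Y := by
  have h1 : (((univ.filter fun Y => ¬ p Y) ∪ (univ.filter fun Y => ¬ q Y)) ∪
      ((univ.filter fun Y => ¬ r Y) ∪ (univ.filter fun Y => ¬ s Y))).card < Fintype.card G := by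
    refine lt_of_le_of_lt (Finset.card_union_le _ _) ?_
    have h2 := Finset.card_union_le (univ.filter fun Y => ¬ p Y) (univ.filter fun Y => ¬ q Y)
    have h3 := Finset.card_union_le (univ.filter fun Y => ¬ r Y) (univ.filter fun Y => ¬ s Y)
    omega
  obtain ⟨Y, hY⟩ := exists_notMem_of_card_lt h1
  refine ⟨Y, ?_⟩
  simp only [mem_union, mem_filter, mem_univ, true_and, not_or, not_not] at hY
  exact ⟨hY.1.1, hY.1.2, hY.2.1, hY.2.2⟩

/-- A function that is additive on a dense set of cells is affine. -/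
theorem Dense.affine [DecidableEq G] (hD : Dense κ nat t) (ht : 4 * t < Fintype.card G)
    (hG : 4 ≤ Fintype.card G)
    {A : Type} [AddCommGroup A] (f g h : G → A) (hfgh : ∀ X Y, nat X Y → f X + g Y = h (X + Y)) :
    ∃ (φ : G →+ A) (a b : A), (∀ X, X ≠ 0 → f X = φ X + a) ∧ (∀ Y, Y ≠ 0 → g Y = φ Y + b) ∧
      ∀ Z, Z ≠ κ → h Z = φ Z + a + b := by
  have step1 : ∀ s X X', X ≠ 0 → X' ≠ 0 → X + s ≠ 0 → X' + s ≠ 0 →
      f (X + s) - f X = f (X' + s) - f X' := by
    intro s X X' hX hX' hXs hXs'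
    obtain ⟨Y, h1, h2, h3, h4⟩ := exists_of_card_filter (fun Y => nat (X + s) Y)
      (fun Y => nat X (Y + s)) (fun Y => nat (X' + s) Y) (fun Y => nat X' (Y + s))
      (hD.row _ hXs) (by
        rw [card_filter_add_right (fun Y => ¬ nat X Y)]
        exact hD.row _ hX) (hD.row _ hXs') (by
        rw [card_filter_add_right (fun Y => ¬ nat X' Y)]
        exact hD.row _ hX') ht
    have e1 := hfgh _ _ h1
    have e2 := hfgh _ _ h2
    have e3 := hfgh _ _ h3
    have e4 := hfgh _ _ h4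
    have e5 : X + s + Y = X + (Y + s) := by abel
    have e6 : X' + s + Y = X' + (Y + s) := by abel
    rw [e5, ← e2] at e1
    rw [e6, ← e4] at e3
    have e7 : f (X + s) - f X = g (Y + s) - g Y := by
      rw [sub_eq_sub_iff_add_eq_add, e1]
      abel
    have e8 : f (X' + s) - f X' = g (Y + s) - g Y := by
      rw [sub_eq_sub_iff_add_eq_add, e3]
      abel
    rw [e7, e8]
  have hex : ∀ s s' : G, ∃ X, X ≠ 0 ∧ X + s ≠ 0 ∧ X + s' ≠ 0 := by
    intro s s'
    have h1 : ({0, -s, -s'} : Finset G).card < Fintype.card G :=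
      lt_of_le_of_lt Finset.card_le_three (by omega)
    obtain ⟨X, hX⟩ := exists_notMem_of_card_lt h1
    simp only [mem_insert, mem_singleton, not_or] at hX
    refine ⟨X, hX.1, fun h => hX.2.1 (eq_neg_of_add_eq_zero_left h),
      fun h => hX.2.2 (eq_neg_of_add_eq_zero_left h)⟩
  choose x hx using fun s => hex s s
  let φ0 : G → A := fun s => f (x s + s) - f (x s)
  have hφ0 : ∀ s X, X ≠ 0 → X + s ≠ 0 → f (X + s) - f X = φ0 s := fun s X h1 h2 =>
    step1 s X (x s) h1 (hx s).1 h2 (hx s).2.1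
  have hadd : ∀ s s', φ0 (s + s') = φ0 s + φ0 s' := by
    intro s s'
    obtain ⟨X, h1, h2, h3⟩ := hex s (s + s')
    rw [← hφ0 (s + s') X h1 h3, ← hφ0 s X h1 h2, ← hφ0 s' (X + s) h2 (by rwa [add_assoc]),
      add_assoc]
    abel
  let φ : G →+ A := AddMonoidHom.mk' φ0 hadd
  have hφ : ∀ s, φ s = φ0 s := fun _ => rfl
  obtain ⟨X1, hX1, -, -⟩ := hex 0 0
  have hf : ∀ X, X ≠ 0 → f X = φ X + (f X1 - φ X1) := by
    intro X hX
    have h1 := hφ0 (X - X1) X1 hX1 (by rwa [add_sub_cancel])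
    rw [add_sub_cancel, ← hφ, map_sub] at h1
    have h2 : f X = (f X - f X1) + f X1 := by abel
    rw [h2, h1]
    abel
  have hg : ∀ Y, Y ≠ 0 → g Y = φ Y + (g X1 - φ X1) := by
    intro Y hY
    obtain ⟨X, h1, h2, -, -⟩ := exists_of_card_filter (fun X => nat X Y)
      (fun X => nat (X + (Y - X1)) X1) (fun X => nat X Y) (fun X => nat X Y) (hD.col _ hY) (by
        rw [card_filter_add_right (fun X => ¬ nat X X1)]
        exact hD.col _ hX1) (hD.col _ hY) (hD.col _ hY) ht
    have e1 := hfgh _ _ h1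
    have e2 := hfgh _ _ h2
    have e3 : X + (Y - X1) + X1 = X + Y := by abel
    rw [e3, ← e1, hf _ (hD.x0 _ _ h1), hf _ (hD.x0 _ _ h2)] at e2
    have e4 : g Y = φ (X + (Y - X1)) + (f X1 - φ X1) + g X1 - (φ X + (f X1 - φ X1)) := by
      rw [e2]
      abel
    rw [e4, map_add, map_sub]
    abel
  refine ⟨φ, f X1 - φ X1, g X1 - φ X1, hf, hg, ?_⟩
  intro Z hZ
  obtain ⟨X, h1, -, -, -⟩ := exists_of_card_filter (fun X => nat X (Z - X))
    (fun X => nat X (Z - X)) (fun X => nat X (Z - X)) (fun X => nat X (Z - X)) (hD.sym _ hZ)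
    (hD.sym _ hZ) (hD.sym _ hZ) (hD.sym _ hZ) ht
  have e1 := hfgh _ _ h1
  rw [add_sub_cancel, hf _ (hD.x0 _ _ h1), hg _ (hD.y0 _ _ h1), map_sub] at e1
  rw [← e1]
  abel

/-- Integer weights with prescribed margins on a dense set of cells. -/
theorem Dense.exists_int [DecidableEq G] (hD : Dense κ nat t) (ht : 4 * t < Fintype.card G)
    (hG : 4 ≤ Fintype.card G) (v1 v2 v3 : G → ℤ) (h1 : v1 0 = 0) (h2 : v2 0 = 0) (h3 : v3 κ = 0)
    (S : ℤ) (hS1 : ∑ X, v1 X = S) (hS2 : ∑ Y, v2 Y = S) (hS3 : ∑ Z, v3 Z = S)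
    (hlab : ∑ X, v1 X • X + ∑ Y, v2 Y • Y = ∑ Z, v3 Z • Z) :
    ∃ z : G → G → ℤ, (∀ X Y, ¬ nat X Y → z X Y = 0) ∧ (∀ X, ∑ Y, z X Y = v1 X) ∧
      (∀ Y, ∑ X, z X Y = v2 Y) ∧ ∀ Z, ∑ X, z X (Z - X) = v3 Z := by
  let V := (G → ℤ) × (G → ℤ) × (G → ℤ)
  let gen : G × G → V := fun e => if nat e.1 e.2 then
    (Pi.single e.1 1, Pi.single e.2 1, Pi.single (e.1 + e.2) 1) else 0
  let Λ : Submodule ℤ V := Submodule.span ℤ (Set.range gen)
  let f : G → V ⧸ Λ := fun X => Λ.mkQ (Pi.single X 1, 0, 0)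
  let g : G → V ⧸ Λ := fun Y => Λ.mkQ (0, Pi.single Y 1, 0)
  let h : G → V ⧸ Λ := fun Z => - Λ.mkQ (0, 0, Pi.single Z 1)
  have hfgh : ∀ X Y, nat X Y → f X + g Y = h (X + Y) := by
    intro X Y hXY
    have h4 : Λ.mkQ (gen (X, Y)) = 0 := by
      rw [Submodule.mkQ_apply, Submodule.Quotient.mk_eq_zero]
      exact Submodule.subset_span ⟨(X, Y), rfl⟩
    have h5 : gen (X, Y) = (Pi.single X 1, 0, 0) + (0, Pi.single Y 1, 0) +
        (0, 0, Pi.single (X + Y) 1) := by
      have h6 : gen (X, Y) = (Pi.single X 1, Pi.single Y 1, Pi.single (X + Y) 1) := if_pos hXY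
      rw [h6]
      refine Prod.ext ?_ (Prod.ext ?_ ?_)
      · exact ((add_zero _).trans (add_zero _)).symm
      · exact ((add_zero _).trans (zero_add _)).symm
      · exact ((congrArg (· + _) (zero_add _)).trans (zero_add _)).symm
    rw [h5, map_add, map_add] at h4
    exact eq_neg_of_add_eq_zero_left h4
  obtain ⟨φ, a, b, hf, hg, hh⟩ := hD.affine ht hG f g h hfgh
  have hv : ∀ v : G → ℤ, v = ∑ X, v X • (Pi.single X 1 : G → ℤ) := by
    intro v
    funext Y
    simp [Finset.sum_apply, Pi.single_apply]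
  have hmem : ((v1, v2, v3) : V) ∈ Λ := by
    rw [← Submodule.Quotient.mk_eq_zero, ← Submodule.mkQ_apply]
    have e1 : ((v1, v2, v3) : V) = ∑ X, v1 X • ((Pi.single X 1, 0, 0) : V) +
        ∑ Y, v2 Y • ((0, Pi.single Y 1, 0) : V) + ∑ Z, v3 Z • ((0, 0, Pi.single Z 1) : V) := by
      refine Prod.ext ?_ (Prod.ext ?_ ?_)
      · simp only [Prod.fst_add, Prod.fst_sum, Prod.smul_fst, smul_zero, Finset.sum_const_zero,
          add_zero]
        exact hv v1
      · simp only [Prod.snd_add, Prod.fst_add, Prod.snd_sum, Prod.fst_sum, Prod.smul_snd,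
          Prod.smul_fst, smul_zero, Finset.sum_const_zero, add_zero, zero_add]
        exact hv v2
      · simp only [Prod.snd_add, Prod.snd_sum, Prod.smul_snd, smul_zero, Finset.sum_const_zero,
          add_zero, zero_add]
        exact hv v3
    rw [e1, map_add, map_add, map_sum, map_sum, map_sum]
    simp only [map_smul]
    have e2 : ∑ X, v1 X • Λ.mkQ (Pi.single X 1, 0, 0) = ∑ X, v1 X • (φ X + a) := by
      apply Finset.sum_congr rfl
      intro X _
      by_cases hX : X = 0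
      · rw [hX, h1, zero_smul, zero_smul]
      · rw [← hf X hX]
    have e3 : ∑ Y, v2 Y • Λ.mkQ (0, Pi.single Y 1, 0) = ∑ Y, v2 Y • (φ Y + b) := by
      apply Finset.sum_congr rfl
      intro Y _
      by_cases hY : Y = 0
      · rw [hY, h2, zero_smul, zero_smul]
      · rw [← hg Y hY]
    have e4 : ∑ Z, v3 Z • Λ.mkQ (0, 0, Pi.single Z 1) = - ∑ Z, v3 Z • (φ Z + a + b) := by
      rw [← Finset.sum_neg_distrib]
      apply Finset.sum_congr rfl
      intro Z _
      by_cases hZ : Z = κ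
      · rw [hZ, h3, zero_smul, zero_smul, neg_zero]
      · rw [← hh Z hZ, ← smul_neg, neg_neg]
    rw [e2, e3, e4]
    simp only [smul_add, Finset.sum_add_distrib, ← Finset.sum_smul, hS1, hS2, hS3]
    have e5 : ∀ v : G → ℤ, ∑ X, v X • φ X = φ (∑ X, v X • X) := by
      intro v
      rw [map_sum]
      apply Finset.sum_congr rfl
      intro X _
      rw [map_zsmul]
    rw [e5, e5, e5, ← hlab, map_add]
    abel
  rw [Submodule.mem_span_range_iff_exists_fun] at hmem
  obtain ⟨c, hc⟩ := hmem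
  have hc1 := congrArg (fun v : V => v.1) hc
  have hc2 := congrArg (fun v : V => v.2.1) hc
  have hc3 := congrArg (fun v : V => v.2.2) hc
  simp only [Prod.fst_sum, Prod.snd_sum, Prod.smul_fst, Prod.smul_snd] at hc1 hc2 hc3
  have g1 : ∀ e, (gen e).1 = if nat e.1 e.2 then Pi.single e.1 1 else 0 := by
    intro e
    simp only [gen]
    split_ifs <;> rfl
  have g2 : ∀ e, (gen e).2.1 = if nat e.1 e.2 then Pi.single e.2 1 else 0 := by
    intro e
    simp only [gen]
    split_ifs <;> rfl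
  have g3 : ∀ e, (gen e).2.2 = if nat e.1 e.2 then Pi.single (e.1 + e.2) 1 else 0 := by
    intro e
    simp only [gen]
    split_ifs <;> rfl
  simp only [g1] at hc1
  simp only [g2] at hc2
  simp only [g3] at hc3
  refine ⟨fun X Y => if nat X Y then c (X, Y) else 0, ?_, ?_, ?_, ?_⟩
  · intro X Y h
    simp [h]
  · intro X
    rw [← hc1, Finset.sum_apply, Fintype.sum_prod_type]
    symm
    rw [Finset.sum_eq_single X]
    · apply Finset.sum_congr rfl
      intro Y _
      by_cases h : nat X Y <;> simp [h]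
    · intro X' _ hX'
      apply Finset.sum_eq_zero
      intro Y _
      by_cases h : nat X' Y <;> simp [h, Ne.symm hX']
    · intro h
      exact absurd (mem_univ _) h
  · intro Y
    rw [← hc2, Finset.sum_apply, Fintype.sum_prod_type_right]
    symm
    rw [Finset.sum_eq_single Y]
    · apply Finset.sum_congr rfl
      intro X _
      by_cases h : nat X Y <;> simp [h]
    · intro Y' _ hY'
      apply Finset.sum_eq_zero
      intro X _
      by_cases h : nat X Y' <;> simp [h, Ne.symm hY']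
    · intro h
      exact absurd (mem_univ _) h
  · intro Z
    rw [← hc3, Finset.sum_apply, Fintype.sum_prod_type]
    apply Finset.sum_congr rfl
    intro X _
    rw [Finset.sum_eq_single (Z - X)]
    · by_cases h : nat X (Z - X) <;> simp [h]
    · intro Y _ hY
      have hne : Z ≠ X + Y := fun h => hY (by rw [h]; abel)
      by_cases h : nat X Y <;> simp [h, hne]
    · intro h
      exact absurd (mem_univ _) h

end Pool.Agent.Lib.MP_185394_co.Near
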