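import Pool.Agent.Lib.MP_185394_co.Near.Final

/-!
`limsup κ(n) / n = 1`.
-/

namespace Pool.Agent.Lib.MP_185394_co.Near

open Finset Filter

theorem frequently_kappa {ε : ℝ} (hε : 0 < ε) (N : ℕ) :
    ∃ n, N ≤ n ∧ (1 - ε) * n ≤ kappa n := by
  by_cases hε1 : 1 < ε
  · refine ⟨N, le_refl _, ?_⟩
    have h1 : (0 : ℝ) ≤ N := Nat.cast_nonneg N
    have h2 : (0 : ℝ) ≤ kappa N := Nat.cast_nonneg _
    nlinarith
  push Not at hε1
  obtain ⟨h', hh'⟩ := exists_nat_ge (max (16 / ε) 100)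
  have h100 : 100 ≤ h' := by
    have : (100 : ℝ) ≤ h' := (le_max_right _ _).trans hh'
    exact_mod_cast this
  have h16 : 16 ≤ ε * h' := by
    have : 16 / ε ≤ h' := (le_max_left _ _).trans hh'
    rw [div_le_iff₀ hε] at this
    linarith
  obtain ⟨h, hh⟩ : ∃ h, h = 2 * h' := ⟨_, rfl⟩
  obtain ⟨γ, hγ, hp⟩ := Nat.exists_infinite_primes (h * h + h * (2 * h * (2 * h)) + 2)
  obtain ⟨τ, D, m0, hτ, hD, hk⟩ := exists_large (h := h) (γ := γ) (by omega) ⟨h', hh⟩ hp hγ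
  obtain ⟨m', hm'⟩ : ∃ m', m' = m0 + N + 1 := ⟨_, rfl⟩
  obtain ⟨b, hb⟩ : ∃ b, b = 2 * h * γ := ⟨_, rfl⟩
  have hbpos : 0 < b := by
    rw [hb]
    have : 0 < γ := hp.pos
    have : 0 < h := by omega
    positivity
  have hγ2 : 2 ≤ γ := hp.two_le
  obtain ⟨m, hm⟩ : ∃ m, m = 2 * b * m' := ⟨_, rfl⟩
  have hmm : m' ≤ m := by
    rw [hm]
    exact Nat.le_mul_of_pos_left m' (by positivity)
  obtain ⟨g, hg⟩ : ∃ g, g = 1 + D * m := ⟨_, rfl⟩
  have hgm : m ≤ D * m := Nat.le_mul_of_pos_left m hD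
  have hodd : Odd g := ⟨D * b * m', by rw [hg, hm]; ring⟩
  have hco : Nat.Coprime b g := by
    rw [hg, hm]
    have : 1 + D * (2 * b * m') = 1 + b * (D * 2 * m') := by ring
    rw [this]
    simp
  have hk' := hk m (by omega)
  rw [← hb, ← hg] at hk'
  have hk2 := hk' hodd hco (by omega)
  have hbg : g ≤ b * g := Nat.le_mul_of_pos_left g hbpos
  refine ⟨b * g - 1, by omega, ?_⟩
  -- the estimate
  have hbγ : (b : ℝ) = 2 * h * γ := by
    rw [hb]
    push_cast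
    ring
  have hhr : (h : ℝ) = 2 * h' := by
    rw [hh]
    push_cast
    ring
  have hγr : (2 : ℝ) ≤ γ := by exact_mod_cast hγ2
  have hτr : (τ : ℝ) ≤ 63 * γ := by exact_mod_cast hτ
  have hgr : (1 : ℝ) ≤ g := by
    have : 1 ≤ g := by omega
    exact_mod_cast this
  have hτb : τ ≤ b := by
    have h1 : 200 * γ ≤ h * γ := Nat.mul_le_mul_right γ (by omega)
    have h2 : b = 2 * (h * γ) := by rw [hb]; ring
    omega
  have hτb' : 1 ≤ b - τ := by
    have h1 : 200 * γ ≤ h * γ := Nat.mul_le_mul_right γ (by omega)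
    have h2 : b = 2 * (h * γ) := by rw [hb]; ring
    omega
  have hk3 : (((b - τ) * g - 2 : ℕ) : ℝ) = (b - τ) * g - 2 := by
    have h1 : 2 ≤ (b - τ) * g := by
      have : 2 ≤ g := by omega
      nlinarith
    rw [Nat.cast_sub h1, Nat.cast_mul, Nat.cast_sub hτb]
    norm_num
  have hn : ((b * g - 1 : ℕ) : ℝ) = b * g - 1 := by
    rw [Nat.cast_sub (by omega), Nat.cast_mul, Nat.cast_one]
  have hk4 : (b - τ : ℝ) * g - 2 ≤ kappa (b * g - 1) := by
    rw [← hk3]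
    exact_mod_cast hk2
  refine le_trans ?_ hk4
  rw [hn]
  have h5 : 64 * (γ * g : ℝ) ≤ ε * (b * g) := by
    have h6 : ε * (b * g) = 4 * (ε * h') * (γ * g) := by
      rw [hbγ, hhr]
      ring
    rw [h6]
    have h7 : (0 : ℝ) ≤ γ * g := by positivity
    nlinarith
  have h8 : (τ : ℝ) * g ≤ 63 * (γ * g) := by nlinarith
  have h9 : (2 : ℝ) ≤ γ * g := by nlinarith
  nlinarith

theorem kappa_le {n : ℕ} (hn : 0 < n) : kappa n ≤ n := by
  unfold kappa
  apply csSup_le'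
  rintro j ⟨_, L, _, P, hP, _⟩
  have h1 := hP.1 ⟨0, hn⟩
  rw [card_row_filter] at h1
  rw [← h1]
  exact (Finset.card_le_univ _).trans (by simp)

theorem limsup_kappa : limsup (fun n : ℕ => (kappa n : ℝ) / n) atTop = 1 := by
  have hle : ∀ᶠ n : ℕ in atTop, (kappa n : ℝ) / n ≤ 1 := by
    filter_upwards [eventually_gt_atTop 0] with n hn
    have h1 : (kappa n : ℝ) ≤ n := by exact_mod_cast kappa_le hn
    exact div_le_one_of_le₀ h1 (Nat.cast_nonneg n)
  have hbdd : IsBoundedUnder (· ≤ ·) atTop (fun n : ℕ => (kappa n : ℝ) / n) := ⟨1, hle⟩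
  have hge : ∀ᶠ n : ℕ in atTop, (0 : ℝ) ≤ (kappa n : ℝ) / n :=
    Eventually.of_forall fun n => by positivity
  apply le_antisymm
  · exact limsup_le_of_le (IsCoboundedUnder.of_frequently_ge (a := 0) hge.frequently) hle
  · apply le_of_forall_lt_imp_le_of_dense
    intro c hc
    refine le_limsup_of_frequently_le ?_ hbdd
    rw [frequently_atTop]
    intro N
    obtain ⟨n, hn1, hn2⟩ := frequently_kappa (ε := 1 - c) (by linarith) (N + 1)
    refine ⟨n, by omega, ?_⟩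
    have hn0 : (0 : ℝ) < n := by
      have : 0 < n := by omega
      exact_mod_cast this
    rw [le_div_iff₀ hn0]
    linarith

end Pool.Agent.Lib.MP_185394_co.Near
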