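import Pool.Agent.Lib.MP_185394_co.Near.Criterion

/-!
Blowing up a Latin square with a hole: from a Latin square `M` on the nonzero elements of `G` one
gets a Latin square on the nonzero elements of `G × H`.
-/

namespace Pool.Agent.Lib.MP_185394_co.Near

open Finset

set_option linter.unusedSectionVars false

variable {G H : Type} [AddCommGroup G] [DecidableEq G] [AddCommGroup H] [DecidableEq H] [One H]

/-- the blocks in which one line is moved to another class -/
def Touched (κ : G) (M : G → G → G) (X Y : G) : Prop :=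
  X ≠ 0 ∧ Y ≠ 0 ∧ X + Y ≠ κ ∧ M X Y ≠ X + Y

instance (κ : G) (M : G → G → G) (X Y : G) : Decidable (Touched κ M X Y) := by
  unfold Touched
  infer_instance

/-- the class of the symbols used on the moved line of a block -/
def lineCls (κ : G) (M : G → G → G) (X Y : G) (u : H) : G :=
  if X = 0 ∨ Y = 0 then 0 else if (X = κ ∧ Y = κ) ∧ u ≠ 0 then κ else M X Y

/-- the blown up square, in gauge coordinates -/
def liftCell (κ : G) (M : G → G → G) (a : G → H ≃ H) (op : H → H → H) (X : G) (u : H) (Y : G)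
    (v : H) : G × H :=
  if u = v ∧ (X + Y = κ ∨ Touched κ M X Y) then
    (lineCls κ M X Y u, a (lineCls κ M X Y u) u)
  else if Touched κ M X Y then (X + Y, a (X + Y) (op u v))
  else (X + Y, a X u + a Y v)

/-- the blown up square -/
def liftSq (κ : G) (M : G → G → G) (a : G → H ≃ H) (op : H → H → H) (r s : G × H) : G × H :=
  liftCell κ M a op r.1 ((a r.1).symm r.2) s.1 ((a s.1).symm s.2)

omit [AddCommGroup H] [DecidableEq H] [One H] in
lemma touched_comm (κ : G) (M : G → G → G) (X Y : G) :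
    Touched κ (fun x y => M y x) Y X ↔ Touched κ M X Y := by
  unfold Touched
  rw [add_comm Y X]
  tauto

omit [One H] in
lemma lineCls_zero (κ : G) (M : G → G → G) {X Y : G} (h : X = 0 ∨ Y = 0) (u : H) :
    lineCls κ M X Y u = 0 := by
  unfold lineCls
  rw [if_pos h]

omit [One H] in
lemma lineCls_kk {κ : G} (M : G → G → G) (hκ : κ ≠ 0) {u : H} (hu : u ≠ 0) :
    lineCls κ M κ κ u = κ := by
  unfold lineCls
  rw [if_neg (by simp [hκ]), if_pos ⟨⟨rfl, rfl⟩, hu⟩]

omit [One H] in
lemma lineCls_M (κ : G) (M : G → G → G) {X Y : G} (hX : X ≠ 0) (hY : Y ≠ 0) {u : H}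
    (h : ¬ ((X = κ ∧ Y = κ) ∧ u ≠ 0)) : lineCls κ M X Y u = M X Y := by
  unfold lineCls
  rw [if_neg (by simp [hX, hY]), if_neg h]

omit [One H] in
lemma lineCls_comm (κ : G) (M : G → G → G) (X Y : G) (u : H) :
    lineCls κ (fun x y => M y x) Y X u = lineCls κ M X Y u := by
  unfold lineCls
  by_cases h1 : X = 0 ∨ Y = 0
  · rw [if_pos h1, if_pos h1.symm]
  · rw [if_neg h1, if_neg (fun h => h1 h.symm)]
    by_cases h2 : (X = κ ∧ Y = κ) ∧ u ≠ 0
    · rw [if_pos h2, if_pos ⟨⟨h2.1.2, h2.1.1⟩, h2.2⟩]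
    · rw [if_neg h2, if_neg (fun h => h2 ⟨⟨h.1.2, h.1.1⟩, h.2⟩)]

omit [One H] in
lemma liftCell_comm (κ : G) (M : G → G → G) (a : G → H ≃ H) (op : H → H → H) (X : G) (u : H)
    (Y : G) (v : H) :
    liftCell κ (fun x y => M y x) a (fun x y => op y x) Y v X u = liftCell κ M a op X u Y v := by
  unfold liftCell
  by_cases huv : u = v
  · subst huv
    simp only [touched_comm, lineCls_comm, add_comm Y X, add_comm (a Y u) (a X u)]
  · rw [if_neg (show ¬ (v = u ∧ _) from fun h => huv h.1.symm),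
      if_neg (show ¬ (u = v ∧ _) from fun h => huv h.1)]
    simp only [touched_comm, add_comm Y X, add_comm (a Y v) (a X u)]

/-- what is assumed on the small square, the gauge and the operation -/
structure Base (κ : G) (M : G → G → G) (a : G → H ≃ H) (op : H → H → H) : Prop where
  punct : Punctured κ M
  kk : M κ κ = 0
  k0 : κ ≠ 0
  k2 : κ + κ ≠ 0
  a0 : ∀ u, a 0 u = u
  ak : ∀ X u, a X u + a (κ - X) u = 1
  one_ne : (1 : H) ≠ 0
  idem : ∀ u, op u u = u
  op_left : ∀ u, Function.Injective (op u)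
  op_right : ∀ v, Function.Injective fun u => op u v

lemma Base.symm {κ : G} {M : G → G → G} {a : G → H ≃ H} {op : H → H → H}
    (hB : Base κ M a op) : Base κ (fun x y => M y x) a (fun x y => op y x) where
  punct := ⟨fun r s hr hs => hB.punct.ne s r hs hr,
    fun r hr s s' hs hs' h => hB.punct.col r hr s s' hs hs' h,
    fun s hs r r' hr hr' h => hB.punct.row s hs r r' hr hr' h⟩
  kk := hB.kk
  k0 := hB.k0
  k2 := hB.k2
  a0 := hB.a0
  ak := hB.ak
  one_ne := hB.one_ne
  idem := hB.idem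
  op_left := hB.op_right
  op_right := hB.op_left

variable {κ : G} {M : G → G → G} {a : G → H ≃ H} {op : H → H → H}

lemma Base.aκ (hB : Base κ M a op) (u : H) : a κ u = 1 - u := by
  have h := hB.ak 0 u
  rw [hB.a0, sub_zero] at h
  rw [← h]
  abel

/-- the moved line of a hole block is the line of the deleted symbol -/
lemma Base.hole_iff (hB : Base κ M a op) {X Y : G} (hXY : X + Y = κ) (u v : H) :
    a X u + a Y v = 1 ↔ u = v := by
  have hY : Y = κ - X := by rw [← hXY]; abel
  subst hY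
  constructor
  · intro h
    have h1 := hB.ak X u
    rw [← h] at h1
    exact (a (κ - X)).injective (add_left_cancel h1)
  · rintro rfl
    exact hB.ak X u

lemma Base.lineCls_ne (hB : Base κ M a op) (X Y : G) (u : H) :
    (lineCls κ M X Y u, a (lineCls κ M X Y u) u) ≠ (κ, (1 : H)) := by
  intro h
  rw [Prod.mk.injEq] at h
  obtain ⟨h1, h2⟩ := h
  unfold lineCls at h1
  by_cases h3 : X = 0 ∨ Y = 0
  · rw [if_pos h3] at h1
    exact hB.k0 h1.symm
  · rw [if_neg h3] at h1
    rw [not_or] at h3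
    by_cases h4 : (X = κ ∧ Y = κ) ∧ u ≠ 0
    · have h5 : lineCls κ M X Y u = κ := by
        unfold lineCls
        rw [if_neg (by tauto), if_pos h4]
      rw [h5, hB.aκ] at h2
      apply h4.2
      have : u = 1 - (1 - u) := by abel
      rw [this, h2, sub_self]
    · rw [if_neg h4] at h1
      exact hB.punct.ne X Y h3.1 h3.2 h1

lemma Base.lift_ne (hB : Base κ M a op) (X : G) (u : H) (Y : G) (v : H) :
    liftCell κ M a op X u Y v ≠ (κ, (1 : H)) := by
  unfold liftCell
  by_cases h1 : u = v ∧ (X + Y = κ ∨ Touched κ M X Y)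
  · rw [if_pos h1]
    exact hB.lineCls_ne X Y u
  · rw [if_neg h1]
    by_cases h2 : Touched κ M X Y
    · rw [if_pos h2]
      intro h
      exact h2.2.2.1 (Prod.ext_iff.mp h).1
    · rw [if_neg h2]
      intro h
      rw [Prod.mk.injEq] at h
      exact h1 ⟨(hB.hole_iff h.1 u v).mp h.2, Or.inl h.1⟩

lemma Base.lineCls_inj (hB : Base κ M a op) {X Y Y' : G} {u : H} (hY0 : ¬ (Y = 0 ∧ u = 0))
    (hY0' : ¬ (Y' = 0 ∧ u = 0)) (hY : X + Y = κ ∨ Touched κ M X Y)
    (hY' : X + Y' = κ ∨ Touched κ M X Y') (h : lineCls κ M X Y u = lineCls κ M X Y' u) :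
    Y = Y' := by
  by_cases hX0 : X = 0
  · subst hX0
    have h1 : Y = κ := by
      rcases hY with h1 | h1
      · rw [← h1, zero_add]
      · exact absurd rfl h1.1
    have h2 : Y' = κ := by
      rcases hY' with h1 | h1
      · rw [← h1, zero_add]
      · exact absurd rfl h1.1
    rw [h1, h2]
  by_cases hXκ : X = κ
  · subst hXκ
    -- the three kinds of line blocks in a row of class `κ`
    have key : ∀ Z Z' : G, ¬ (Z = 0 ∧ u = 0) → ¬ (Z' = 0 ∧ u = 0) → Z ≠ Z' → Z = 0 →
        lineCls X M X Z u ≠ lineCls X M X Z' u := by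
      intro Z Z' h1 h2 h3 h4 h5
      subst h4
      have hu : u ≠ 0 := fun h => h1 ⟨rfl, h⟩
      have hZ' : Z' ≠ 0 := fun h => h3 h.symm
      rw [lineCls_zero X M (Or.inr rfl)] at h5
      by_cases h6 : Z' = X
      · subst h6
        rw [lineCls_kk M hX0 hu] at h5
        exact hX0 h5.symm
      · rw [lineCls_M X M hX0 hZ' (fun h => h6 h.1.2), ← hB.kk] at h5
        exact h6 (hB.punct.row X hX0 _ _ hX0 hZ' h5).symm
    by_contra hne
    by_cases hz : Y = 0
    · exact key Y Y' hY0 hY0' hne hz h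
    by_cases hz' : Y' = 0
    · exact key Y' Y hY0' hY0 (Ne.symm hne) hz' h.symm
    have key2 : ∀ Z Z' : G, Z ≠ 0 → Z' ≠ 0 → Z ≠ Z' → Z = X →
        lineCls X M X Z u ≠ lineCls X M X Z' u := by
      intro Z Z' h1 h2 h3 h4 h5
      subst h4
      rw [lineCls_M Z M h1 h2 (fun h => h3 h.1.2.symm)] at h5
      by_cases hu : u = 0
      · rw [lineCls_M Z M h1 h1 (fun h => h.2 hu)] at h5
        exact h3 (hB.punct.row Z h1 _ _ h1 h2 h5)
      · rw [lineCls_kk M h1 hu] at h5
        exact hB.punct.ne Z Z' h1 h2 h5.symm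
    by_cases hk : Y = X
    · exact key2 Y Y' hz hz' hne hk h
    by_cases hk' : Y' = X
    · exact key2 Y' Y hz' hz (Ne.symm hne) hk' h.symm
    rw [lineCls_M X M hX0 hz (fun h => hk h.1.2), lineCls_M X M hX0 hz' (fun h => hk' h.1.2)] at h
    exact hne (hB.punct.row X hX0 _ _ hz hz' h)
  · have hz : ∀ Z, (X + Z = κ ∨ Touched κ M X Z) → Z ≠ 0 := by
      rintro Z (h1 | h1) rfl
      · exact hXκ (by rw [← h1, add_zero])
      · exact h1.2.1 rfl
    have h1 := hz Y hY
    have h2 := hz Y' hY'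
    rw [lineCls_M κ M hX0 h1 (fun h => hXκ h.1.1), lineCls_M κ M hX0 h2 (fun h => hXκ h.1.1)] at h
    exact hB.punct.row X hX0 _ _ h1 h2 h

/-- a cell on a moved line and a cell off the moved lines of the same row carry different
symbols -/
lemma Base.line_ne_off (hB : Base κ M a op) {X Y Y' : G} {u v' : H} (hr : ¬ (X = 0 ∧ u = 0))
    (hs : ¬ (Y = 0 ∧ u = 0)) (hs' : ¬ (Y' = 0 ∧ v' = 0)) (hY : X + Y = κ ∨ Touched κ M X Y)
    (hY' : ¬ (u = v' ∧ (X + Y' = κ ∨ Touched κ M X Y'))) :
    (lineCls κ M X Y u, a (lineCls κ M X Y u) u) ≠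
      (if Touched κ M X Y' then (X + Y', a (X + Y') (op u v')) else (X + Y', a X u + a Y' v')) := by
  by_cases hT : Touched κ M X Y'
  · rw [if_pos hT]
    intro h
    rw [Prod.mk.injEq] at h
    obtain ⟨h1, h2⟩ := h
    rw [h1] at h2
    have h3 := (a (X + Y')).injective h2
    rw [← hB.idem u] at h3
    have h4 : op u u = op u v' := by
      rw [hB.idem u] at h3 ⊢
      exact h3
    exact hY' ⟨hB.op_left u h4, Or.inr hT⟩
  rw [if_neg hT]
  intro h
  rw [Prod.mk.injEq] at h
  obtain ⟨h1, h2⟩ := h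
  rw [h1] at h2
  have hend : Y' = 0 → False := by
    intro hY0
    subst hY0
    rw [add_zero, hB.a0] at h2
    exact hs' ⟨rfl, by simpa using h2.symm⟩
  by_cases hκ : X + Y' = κ
  · rw [hκ] at h1
    unfold lineCls at h1
    by_cases h3 : X = 0 ∨ Y = 0
    · rw [if_pos h3] at h1
      exact hB.k0 h1.symm
    · rw [if_neg h3] at h1
      rw [not_or] at h3
      by_cases h4 : (X = κ ∧ Y = κ) ∧ u ≠ 0
      · apply hend
        have h5 := h4.1.1
        rw [h5] at hκ
        exact add_left_cancel (hκ.trans (add_zero κ).symm)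
      · rw [if_neg h4] at h1
        exact hB.punct.ne X Y h3.1 h3.2 h1
  by_cases hX0 : X = 0
  · -- then `Y = κ` and the class is `0`
    subst hX0
    unfold lineCls at h1
    rw [if_pos (Or.inl rfl), zero_add] at h1
    exact hend h1.symm
  by_cases hY0' : Y' = 0
  · exact hend hY0'
  have hMn : M X Y' = X + Y' := by
    by_contra hne
    exact hT ⟨hX0, hY0', hκ, hne⟩
  unfold lineCls at h1
  by_cases hYz : Y = 0
  · rw [if_pos (Or.inr hYz)] at h1
    have hXκ : X = κ := by
      rcases hY with h3 | h3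
      · rw [← h3, hYz, add_zero]
      · exact absurd hYz h3.2.1
    subst hXκ
    rw [← h1, ← hB.kk] at hMn
    have h4 := hB.punct.row X hX0 _ _ hY0' hX0 hMn
    rw [h4] at h1
    exact hB.k2 h1.symm
  rw [if_neg (by tauto)] at h1
  by_cases h4 : (X = κ ∧ Y = κ) ∧ u ≠ 0
  · rw [if_pos h4] at h1
    exact hκ h1.symm
  · rw [if_neg h4, ← hMn] at h1
    have h5 := hB.punct.row X hX0 _ _ hYz hY0' h1
    subst h5
    rcases hY with h6 | h6
    · exact hκ h6
    · exact hT h6

lemma Base.liftCell_row (hB : Base κ M a op) {X Y Y' : G} {u v v' : H} (hr : ¬ (X = 0 ∧ u = 0))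
    (hs : ¬ (Y = 0 ∧ v = 0)) (hs' : ¬ (Y' = 0 ∧ v' = 0))
    (h : liftCell κ M a op X u Y v = liftCell κ M a op X u Y' v') : Y = Y' ∧ v = v' := by
  unfold liftCell at h
  by_cases h1 : u = v ∧ (X + Y = κ ∨ Touched κ M X Y)
  · by_cases h2 : u = v' ∧ (X + Y' = κ ∨ Touched κ M X Y')
    · rw [if_pos h1, if_pos h2] at h
      have h3 := (Prod.ext_iff.mp h).1
      obtain ⟨rfl, h1⟩ := h1
      obtain ⟨rfl, h2⟩ := h2
      exact ⟨hB.lineCls_inj hs hs' h1 h2 h3, rfl⟩
    · rw [if_pos h1, if_neg h2] at h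
      obtain ⟨rfl, h1⟩ := h1
      exact absurd h (hB.line_ne_off hr hs hs' h1 h2)
  · by_cases h2 : u = v' ∧ (X + Y' = κ ∨ Touched κ M X Y')
    · rw [if_neg h1, if_pos h2] at h
      obtain ⟨rfl, h2⟩ := h2
      exact absurd h.symm (hB.line_ne_off hr hs' hs h2 h1)
    · rw [if_neg h1, if_neg h2] at h
      have hY : Y = Y' := by
        have h3 : X + Y = X + Y' := by
          split_ifs at h <;> exact (Prod.ext_iff.mp h).1
        exact add_left_cancel h3
      subst hY
      refine ⟨rfl, ?_⟩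
      by_cases hT : Touched κ M X Y
      · rw [if_pos hT, if_pos hT] at h
        exact hB.op_left u ((a (X + Y)).injective (Prod.ext_iff.mp h).2)
      · rw [if_neg hT, if_neg hT] at h
        exact (a Y).injective (add_left_cancel (Prod.ext_iff.mp h).2)

lemma Base.zero_iff (hB : Base κ M a op) (r : G × H) :
    r = 0 ↔ (r.1 = 0 ∧ (a r.1).symm r.2 = 0) := by
  constructor
  · rintro rfl
    refine ⟨rfl, ?_⟩
    rw [Equiv.symm_apply_eq]
    exact (hB.a0 0).symm
  · rintro ⟨h1, h2⟩
    rw [Equiv.symm_apply_eq, h1, hB.a0] at h2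
    exact Prod.ext h1 h2

/-- The blown up square is Latin. -/
theorem Base.punctured_lift (hB : Base κ M a op) : Punctured (κ, (1 : H)) (liftSq κ M a op) where
  ne := fun r s _ _ => hB.lift_ne _ _ _ _
  row := by
    intro r hr s s' hs hs' h
    have h1 := hB.liftCell_row (fun h => hr ((hB.zero_iff r).mpr h))
      (fun h => hs ((hB.zero_iff s).mpr h)) (fun h => hs' ((hB.zero_iff s').mpr h)) h
    obtain ⟨h2, h3⟩ := h1
    rw [← h2] at h3
    exact Prod.ext h2 ((a s.1).symm.injective h3)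
  col := by
    intro s hs r r' hr hr' h
    unfold liftSq at h
    rw [← liftCell_comm, ← liftCell_comm κ M a op r'.1] at h
    have h1 := hB.symm.liftCell_row (fun h => hs ((hB.zero_iff s).mpr h))
      (fun h => hr ((hB.zero_iff r).mpr h)) (fun h => hr' ((hB.zero_iff r').mpr h)) h
    obtain ⟨h2, h3⟩ := h1
    rw [← h2] at h3
    exact Prod.ext h2 ((a r.1).symm.injective h3)

end Pool.Agent.Lib.MP_185394_co.Near
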