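import Pool.Agent.Lib.MP_185394_co.Near.Select

/-!
Counting the cells of the plex.
-/

namespace Pool.Agent.Lib.MP_185394_co.Near

open Finset

set_option linter.unusedSectionVars false

lemma card_filter_ind {E : Type} [Fintype E] (p : E → Prop) [DecidablePred p] :
    ((univ.filter p).card : ℤ) = ∑ x, ind (p x) := by
  unfold ind
  rw [Finset.sum_boole]

lemma ind_congr {p q : Prop} [Decidable p] [Decidable q] (h : p ↔ q) : ind p = ind q := by
  unfold ind
  simp only [h]

lemma sum_ind_eq' {E : Type} [Fintype E] [DecidableEq E] (x : E) : ∑ X, ind (X = x) = 1 := by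
  unfold ind
  simp

section combine

variable {E : Type} [Fintype E] [DecidableEq E]

/-- the sign of a cell: removed or added -/
def sgn (i : Fin 10) : ℤ := if i < 6 then 1 else -1

/-- the plex, combined from its parts -/
def combine (P0 D : Finset E) (cell : Fin 10 → E) (hc : E) : Finset E :=
  univ.filter fun e => (e ∈ P0 ∧ ∀ i, i < 6 → e ≠ cell i) ∨ (∃ i, 6 ≤ i ∧ e = cell i) ∨ e ∈ D ∨
    e = hc

lemma card_combine (P0 D : Finset E) (cell : Fin 10 → E) (hc : E)
    (hinj : Function.Injective cell) (h1 : ∀ i, i < 6 → cell i ∈ P0)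
    (h2 : ∀ i, 6 ≤ i → cell i ∉ P0) (hD : ∀ e ∈ D, e ∉ P0) (h3 : ∀ i, cell i ∉ D) (h4 : hc ∉ P0)
    (h5 : hc ∉ D) (h6 : ∀ i, cell i ≠ hc) (p : E → Prop) [DecidablePred p] :
    (((combine P0 D cell hc).filter p).card : ℤ) = (P0.filter p).card -
      ∑ i, sgn i * ind (p (cell i)) + (D.filter p).card + ind (p hc) := by
  have key : ∀ e, ind (e ∈ combine P0 D cell hc) = ind (e ∈ P0) - ∑ i, sgn i * ind (e = cell i) +
      ind (e ∈ D) + ind (e = hc) := by
    intro e
    by_cases he : ∃ i, e = cell i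
    · obtain ⟨i, rfl⟩ := he
      have hs : ∑ j, sgn j * ind (cell i = cell j) = sgn i := by
        rw [Finset.sum_eq_single i]
        · rw [ind_true rfl, mul_one]
        · intro j _ hj
          rw [ind_false (fun h => hj (hinj h).symm), mul_zero]
        · intro h
          exact absurd (mem_univ _) h
      rw [hs, ind_false (h3 i), ind_false (h6 i)]
      by_cases hi : i < 6
      · have h7 : cell i ∉ combine P0 D cell hc := by
          unfold combine
          rw [mem_filter]
          rintro ⟨-, h | h | h | h⟩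
          · exact h.2 i hi rfl
          · obtain ⟨j, hj, hij⟩ := h
            rw [hinj hij] at hi
            exact absurd hj (not_le.mpr hi)
          · exact h3 i h
          · exact h6 i h
        rw [ind_false h7, ind_true (h1 i hi)]
        simp [sgn, hi]
      · have h7 : cell i ∈ combine P0 D cell hc := by
          unfold combine
          rw [mem_filter]
          exact ⟨mem_univ _, Or.inr (Or.inl ⟨i, not_lt.mp hi, rfl⟩)⟩
        rw [ind_true h7, ind_false (h2 i (not_lt.mp hi))]
        simp [sgn, hi]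
    · have hne : ∀ i, e ≠ cell i := fun i h => he ⟨i, h⟩
      have hs : ∑ j, sgn j * ind (e = cell j) = 0 := by
        apply Finset.sum_eq_zero
        intro j _
        rw [ind_false (hne j), mul_zero]
      have hmem : e ∈ combine P0 D cell hc ↔ e ∈ P0 ∨ e ∈ D ∨ e = hc := by
        unfold combine
        rw [mem_filter]
        constructor
        · rintro ⟨-, h | h | h | h⟩
          · exact Or.inl h.1
          · obtain ⟨j, -, hj⟩ := h
            exact absurd hj (hne j)
          · exact Or.inr (Or.inl h)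
          · exact Or.inr (Or.inr h)
        · rintro (h | h | h)
          · exact ⟨mem_univ _, Or.inl ⟨h, fun i _ => hne i⟩⟩
          · exact ⟨mem_univ _, Or.inr (Or.inr (Or.inl h))⟩
          · exact ⟨mem_univ _, Or.inr (Or.inr (Or.inr h))⟩
      rw [hs, ind_congr hmem]
      by_cases ha : e ∈ P0
      · have hb : e ∉ D := fun h => hD e h ha
        have hd : e ≠ hc := fun h => h4 (h ▸ ha)
        rw [ind_true (Or.inl ha), ind_true ha, ind_false hb, ind_false hd]
        ring
      · by_cases hb : e ∈ D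
        · have hd : e ≠ hc := fun h => h5 (h ▸ hb)
          rw [ind_true (Or.inr (Or.inl hb)), ind_false ha, ind_true hb, ind_false hd]
          ring
        · rw [ind_false ha, ind_false hb, ind_congr (p := e ∈ P0 ∨ e ∈ D ∨ e = hc)
            (q := e = hc) (by tauto)]
          ring
  have hcount : ∀ (S : Finset E), ((S.filter p).card : ℤ) = ∑ e, ind (e ∈ S) * ind (p e) := by
    intro S
    have h7 : (S.filter p) = univ.filter fun e => e ∈ S ∧ p e := by
      ext e
      simp
    rw [h7, card_filter_ind]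
    apply Finset.sum_congr rfl
    intro e _
    by_cases ha : e ∈ S
    · rw [ind_true ha, one_mul]
      exact ind_congr (by simp [ha])
    · rw [ind_false ha, zero_mul, ind_false (fun h => ha h.1)]
  rw [hcount, hcount, hcount]
  simp only [key, sub_mul, add_mul, Finset.sum_add_distrib, Finset.sum_sub_distrib]
  congr 1
  · congr 1
    congr 1
    simp only [Finset.sum_mul]
    rw [Finset.sum_comm]
    apply Finset.sum_congr rfl
    intro i _
    rw [Finset.sum_eq_single (cell i)]
    · rw [ind_true (rfl : cell i = cell i), mul_one]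
    · intro e _ he
      rw [ind_false he]
      ring
    · intro h
      exact absurd (mem_univ _) h
  · rw [Finset.sum_eq_single hc]
    · rw [ind_true (rfl : hc = hc), one_mul]
    · intro e _ he
      rw [ind_false he, zero_mul]
    · intro h
      exact absurd (mem_univ _) h

lemma sum_ind_remove (Q : E → Prop) [DecidablePred Q] (a b : E) :
    ∑ s, ind (s ≠ a ∧ s ≠ b ∧ Q s) = ∑ s, ind (Q s) - ind (Q a) - ind (Q b) +
      ind (a = b ∧ Q a) := by
  have key : ∀ s, ind (s ≠ a ∧ s ≠ b ∧ Q s) = ind (Q s) - ind (s = a) * ind (Q a) -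
      ind (s = b) * ind (Q b) + ind (s = a) * ind (a = b ∧ Q a) := by
    intro s
    by_cases ha : s = a
    · subst ha
      rw [ind_false (fun h => h.1 rfl), ind_true (rfl : s = s)]
      by_cases hb : s = b
      · subst hb
        rw [ind_true (rfl : s = s), ind_congr (p := s = s ∧ Q s) (q := Q s) (by simp)]
        ring
      · rw [ind_false hb, ind_false (fun h : s = b ∧ Q s => hb h.1)]
        ring
    · rw [ind_false ha]
      by_cases hb : s = b
      · subst hb
        rw [ind_false (fun h => h.2.1 rfl), ind_true (rfl : s = s)]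
        ring
      · rw [ind_false hb, ind_congr (p := s ≠ a ∧ s ≠ b ∧ Q s) (q := Q s) (by simp [ha, hb])]
        ring
  simp only [key, Finset.sum_add_distrib, Finset.sum_sub_distrib, ← Finset.sum_mul, sum_ind_eq']
  ring

end combine

section lines

variable {G : Type} [AddCommGroup G] [Fintype G] [DecidableEq G]

lemma block_cases (κ : G) (M : G → G → G) (X Y : G) :
    X = 0 ∨ Y = 0 ∨ X + Y = κ ∨ Touched κ M X Y ∨ Good κ M X Y := by
  by_cases h1 : X = 0
  · exact Or.inl h1
  by_cases h2 : Y = 0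
  · exact Or.inr (Or.inl h2)
  by_cases h3 : X + Y = κ
  · exact Or.inr (Or.inr (Or.inl h3))
  by_cases h4 : M X Y = X + Y
  · exact Or.inr (Or.inr (Or.inr (Or.inr ⟨h1, h2, h3, h4⟩)))
  · exact Or.inr (Or.inr (Or.inr (Or.inl ⟨h1, h2, h3, h4⟩)))

variable {κ : G} {M : G → G → G} {A : Finset G} {τ : ℕ} {X0 Y0 Z0 : G} {g : ℕ} {q : G → G → ℤ}

lemma IsWeight.bounds (hq : IsWeight κ M A τ X0 Y0 Z0 g q) (X Y : G) :
    0 ≤ q X Y ∧ q X Y ≤ g := by
  have hind : ∀ (p : Prop) [Decidable p], (0 : ℤ) ≤ g * ind p ∧ g * ind p ≤ g := by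
    intro p _
    by_cases h : p
    · rw [ind_true h]
      constructor
      · positivity
      · simp
    · rw [ind_false h]
      constructor
      · simp
      · simp
  rcases block_cases κ M X Y with h | h | h | h | h
  · rw [h, hq.row0]
    exact hind _
  · rw [h, hq.col0]
    exact hind _
  · have : Y = κ - X := by rw [← h]; abel
    rw [this, hq.hole]
    exact hind _
  · rw [hq.touched X Y h]
    constructor
    · positivity
    · exact le_refl _
  · have := hq.good X Y h
    constructor <;> omega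

variable [NeZero g]

/-- the choice of the lines -/
theorem IsWeight.exists_lines (hq : IsWeight κ M A τ X0 Y0 Z0 g q) (blk : Fin 10 → G × G)
    (hinj : Function.Injective blk) (hgood : ∀ i, Good κ M (blk i).1 (blk i).2)
    (l : Fin 10 → ZMod g) :
    ∃ K : G → G → Finset (ZMod g), (∀ X Y, ((K X Y).card : ℤ) = g - q X Y) ∧
      (∀ i, i < 6 → l i ∈ K (blk i).1 (blk i).2) ∧ ∀ i, 6 ≤ i → l i ∉ K (blk i).1 (blk i).2 := by
  have key : ∀ X Y, ∃ K : Finset (ZMod g), (K.card : ℤ) = g - q X Y ∧
      ∀ i, blk i = (X, Y) → (i < 6 → l i ∈ K) ∧ (6 ≤ i → l i ∉ K) := by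
    intro X Y
    obtain ⟨hb1, hb2⟩ := hq.bounds X Y
    obtain ⟨n, hn⟩ : ∃ n : ℕ, (n : ℤ) = g - q X Y := ⟨(g - q X Y).toNat, by omega⟩
    by_cases hex : ∃ i, blk i = (X, Y)
    · obtain ⟨i, hi⟩ := hex
      have hg : Good κ M X Y := by
        have := hgood i
        rw [hi] at this
        exact this
      have hg' := hq.good X Y hg
      by_cases h6 : i < 6
      · obtain ⟨K, hK1, -, hK3⟩ := Finset.exists_subsuperset_card_eq
          (s := {l i}) (t := (univ : Finset (ZMod g))) (n := n) (Finset.subset_univ _)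
          (by rw [Finset.card_singleton]; omega) (by rw [Finset.card_univ, ZMod.card]; omega)
        refine ⟨K, by rw [hK3, hn], ?_⟩
        intro j hj
        have hij : j = i := hinj (hj.trans hi.symm)
        subst hij
        exact ⟨fun _ => hK1 (Finset.mem_singleton_self _), fun h => absurd h6 (not_lt.mpr h)⟩
      · obtain ⟨K, -, hK2, hK3⟩ := Finset.exists_subsuperset_card_eq
          (s := ∅) (t := (univ : Finset (ZMod g)).erase (l i)) (n := n) (Finset.empty_subset _)
          (by rw [Finset.card_empty]; omega)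
          (by rw [Finset.card_erase_of_mem (mem_univ _), Finset.card_univ, ZMod.card]; omega)
        refine ⟨K, by rw [hK3, hn], ?_⟩
        intro j hj
        have hij : j = i := hinj (hj.trans hi.symm)
        subst hij
        exact ⟨fun h => absurd h h6, fun _ h => (Finset.mem_erase.mp (hK2 h)).1 rfl⟩
    · obtain ⟨K, -, -, hK3⟩ := Finset.exists_subsuperset_card_eq
          (s := ∅) (t := (univ : Finset (ZMod g))) (n := n) (Finset.empty_subset _)
          (by rw [Finset.card_empty]; omega) (by rw [Finset.card_univ, ZMod.card]; omega)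
      exact ⟨K, by rw [hK3, hn], fun i hi => absurd ⟨i, hi⟩ hex⟩
  choose K hK hKi using key
  exact ⟨K, hK, fun i hi => (hKi _ _ i rfl).1 hi, fun i hi => (hKi _ _ i rfl).2 hi⟩

/-- the natural cells of the plex, before the final exchange -/
def natCells (κ : G) (K : G → G → Finset (ZMod g)) : Finset ((G × ZMod g) × (G × ZMod g)) :=
  univ.filter fun e => e.1 ≠ 0 ∧ e.2 ≠ 0 ∧ e.1 + e.2 ≠ (κ, 1) ∧ e.2.2 - e.1.2 ∈ K e.1.1 e.2.1

lemma mem_natCells {K : G → G → Finset (ZMod g)} {r s : G × ZMod g} :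
    (r, s) ∈ natCells κ K ↔ r ≠ 0 ∧ s ≠ 0 ∧ r + s ≠ (κ, 1) ∧ s.2 - r.2 ∈ K r.1 s.1 := by
  unfold natCells
  rw [mem_filter]
  exact ⟨fun h => h.2, fun h => ⟨mem_univ _, h⟩⟩

lemma sum_row (K : G → G → Finset (ZMod g)) (r : G × ZMod g) :
    ∑ s : G × ZMod g, ind (s.2 - r.2 ∈ K r.1 s.1) = ∑ Y, ((K r.1 Y).card : ℤ) := by
  rw [Fintype.sum_prod_type]
  apply Finset.sum_congr rfl
  intro Y _
  rw [← sum_ind_mem (K r.1 Y)]
  exact Equiv.sum_comp (Equiv.subRight r.2) (fun y => ind (y ∈ K r.1 Y))

lemma sum_col (K : G → G → Finset (ZMod g)) (s : G × ZMod g) :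
    ∑ r : G × ZMod g, ind (s.2 - r.2 ∈ K r.1 s.1) = ∑ X, ((K X s.1).card : ℤ) := by
  rw [Fintype.sum_prod_type]
  apply Finset.sum_congr rfl
  intro X _
  rw [← sum_ind_mem (K X s.1)]
  exact Equiv.sum_comp (Equiv.subLeft s.2) (fun y => ind (y ∈ K X s.1))

lemma sum_sym (hg : Odd g) (K : G → G → Finset (ZMod g)) (z : G × ZMod g) :
    ∑ r : G × ZMod g, ind ((z - r).2 - r.2 ∈ K r.1 (z - r).1) =
      ∑ X, ((K X (z.1 - X)).card : ℤ) := by
  rw [Fintype.sum_prod_type]
  apply Finset.sum_congr rfl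
  intro X _
  rw [← sum_ind_mem (K X (z.1 - X))]
  have hbij : Function.Bijective fun x : ZMod g => z.2 - x - x :=
    Finite.injective_iff_bijective.mp fun x y h => by
      have h1 : z.2 - (x + x) = z.2 - (y + y) := by
        rw [← sub_sub, ← sub_sub]
        exact h
      exact two_mul_inj hg (sub_right_inj.mp h1)
  exact Function.Bijective.sum_comp hbij (fun y => ind (y ∈ K X (z.1 - X)))

lemma ind_full {K : Finset (ZMod g)} {p : Prop} [Decidable p]
    (hK : (K.card : ℤ) = g - g * ind p) (x : ZMod g) : ind (x ∈ K) = 1 - ind p := by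
  by_cases h : p
  · rw [ind_true h] at hK ⊢
    have h1 : K = ∅ := by
      rw [← Finset.card_eq_zero]
      have : (K.card : ℤ) = 0 := by rw [hK]; ring
      exact_mod_cast this
    rw [h1, ind_false (Finset.notMem_empty x)]
    ring
  · rw [ind_false h] at hK ⊢
    have h1 : K = univ := by
      apply Finset.eq_univ_of_card
      rw [ZMod.card]
      have : (K.card : ℤ) = g := by rw [hK]; ring
      exact_mod_cast this
    rw [h1, ind_true (mem_univ x)]
    ring

variable {K : G → G → Finset (ZMod g)}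

theorem natCells_row (hq : IsWeight κ M A τ X0 Y0 Z0 g q) (hAκ : κ ∉ A)
    (hK : ∀ X Y, ((K X Y).card : ℤ) = g - q X Y) (r : G × ZMod g) (hr : r ≠ 0) :
    (((natCells κ K).filter fun e => e.1 = r).card : ℤ) =
      g * Fintype.card G - g * τ - 2 - ind (r.1 = X0) + ind (r = (κ, 1)) := by
  rw [card_row_filter, card_filter_ind]
  have h1 : ∀ s : G × ZMod g, ind ((r, s) ∈ natCells κ K) =
      ind (s ≠ 0 ∧ s ≠ (κ, 1) - r ∧ s.2 - r.2 ∈ K r.1 s.1) := by
    intro s
    apply ind_congr
    rw [mem_natCells, Ne, Ne, Ne, Ne, eq_sub_iff_add_eq, add_comm s r]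
    tauto
  simp only [h1]
  rw [sum_ind_remove (fun s : G × ZMod g => s.2 - r.2 ∈ K r.1 s.1), sum_row K r]
  have e1 : ∑ Y, ((K r.1 Y).card : ℤ) = g * Fintype.card G - (g * τ + 2 * ind (r.1 ∈ A) +
      ind (r.1 = X0)) := by
    simp only [hK, Finset.sum_sub_distrib, hq.rowSum]
    simp [mul_comm]
  have e2 : ind ((0 : G × ZMod g).2 - r.2 ∈ K r.1 (0 : G × ZMod g).1) = 1 - ind (r.1 ∈ A) :=
    ind_full (by rw [Prod.fst_zero, hK, hq.col0]) _
  have e3 : ind (((κ, 1) - r : G × ZMod g).2 - r.2 ∈ K r.1 ((κ, 1) - r : G × ZMod g).1) =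
      1 - ind (r.1 ∈ A) :=
    ind_full (by rw [Prod.fst_sub, hK, hq.hole]) _
  have e4 : ind ((0 : G × ZMod g) = (κ, 1) - r ∧
      (0 : G × ZMod g).2 - r.2 ∈ K r.1 (0 : G × ZMod g).1) = ind (r = (κ, 1)) := by
    by_cases h : r = (κ, 1)
    · rw [ind_true h]
      apply ind_true
      refine ⟨by rw [h, sub_self], ?_⟩
      by_contra h'
      have h2 : r.1 = κ := by rw [h]
      rw [ind_false h', h2, ind_false hAκ] at e2
      norm_num at e2
    · rw [ind_false h]
      apply ind_false
      rintro ⟨h', -⟩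
      exact h (sub_eq_zero.mp h'.symm).symm
  rw [e1, e2, e3, e4]
  ring

theorem natCells_col (hq : IsWeight κ M A τ X0 Y0 Z0 g q) (hAκ : κ ∉ A)
    (hK : ∀ X Y, ((K X Y).card : ℤ) = g - q X Y) (s : G × ZMod g) (hs : s ≠ 0) :
    (((natCells κ K).filter fun e => e.2 = s).card : ℤ) =
      g * Fintype.card G - g * τ - 2 - ind (s.1 = Y0) + ind (s = (κ, 1)) := by
  rw [card_col_filter, card_filter_ind]
  have h1 : ∀ r : G × ZMod g, ind ((r, s) ∈ natCells κ K) =
      ind (r ≠ 0 ∧ r ≠ (κ, 1) - s ∧ s.2 - r.2 ∈ K r.1 s.1) := by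
    intro r
    apply ind_congr
    rw [mem_natCells, Ne, Ne, Ne, Ne, eq_sub_iff_add_eq]
    tauto
  simp only [h1]
  rw [sum_ind_remove (fun r : G × ZMod g => s.2 - r.2 ∈ K r.1 s.1), sum_col K s]
  have e1 : ∑ X, ((K X s.1).card : ℤ) = g * Fintype.card G - (g * τ + ind (s.1 ∈ A) +
      ind (κ - s.1 ∈ A) + ind (s.1 = Y0)) := by
    simp only [hK, Finset.sum_sub_distrib, hq.colSum]
    simp [mul_comm]
  have e2 : ind (s.2 - (0 : G × ZMod g).2 ∈ K (0 : G × ZMod g).1 s.1) = 1 - ind (s.1 ∈ A) :=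
    ind_full (by rw [Prod.fst_zero, hK, hq.row0]) _
  have e3 : ind (s.2 - ((κ, 1) - s : G × ZMod g).2 ∈ K ((κ, 1) - s : G × ZMod g).1 s.1) =
      1 - ind (κ - s.1 ∈ A) := by
    apply ind_full
    have h2 : ((κ, 1) - s : G × ZMod g).1 = κ - s.1 := rfl
    rw [h2, hK]
    have h3 := hq.hole (κ - s.1)
    rw [sub_sub_cancel] at h3
    rw [h3]
  have e4 : ind ((0 : G × ZMod g) = (κ, 1) - s ∧
      s.2 - (0 : G × ZMod g).2 ∈ K (0 : G × ZMod g).1 s.1) = ind (s = (κ, 1)) := by
    by_cases h : s = (κ, 1)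
    · rw [ind_true h]
      apply ind_true
      refine ⟨by rw [h, sub_self], ?_⟩
      by_contra h'
      have h2 : s.1 = κ := by rw [h]
      rw [ind_false h', h2, ind_false hAκ] at e2
      norm_num at e2
    · rw [ind_false h]
      apply ind_false
      rintro ⟨h', -⟩
      exact h (sub_eq_zero.mp h'.symm).symm
  rw [e1, e2, e3, e4]
  ring

lemma card_sym_filter {V : Type} [AddCommGroup V] [Fintype V] [DecidableEq V]
    (P : Finset (V × V)) (z : V) :
    (P.filter fun e => e.1 + e.2 = z).card = (univ.filter fun r => (r, z - r) ∈ P).card := by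
  symm
  apply Finset.card_bij (fun r _ => (r, z - r))
  · intro r hr
    simpa using hr
  · intro r _ r' _ h
    exact (Prod.ext_iff.mp h).1
  · rintro ⟨r, c⟩ h
    rw [Finset.mem_filter] at h
    obtain ⟨h1, rfl⟩ := h
    exact ⟨r, by simpa using h1, by simp⟩

theorem natCells_sym (hq : IsWeight κ M A τ X0 Y0 Z0 g q) (hA0 : (0 : G) ∉ A)
    (hg : Odd g) (hK : ∀ X Y, ((K X Y).card : ℤ) = g - q X Y) (z : G × ZMod g) (hz : z ≠ (κ, 1)) :
    (((natCells κ K).filter fun e => e.1 + e.2 = z).card : ℤ) =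
      g * Fintype.card G - g * τ - 2 - ind (z.1 = Z0) + ind (z = 0) := by
  rw [card_sym_filter, card_filter_ind]
  have h1 : ∀ r : G × ZMod g, ind ((r, z - r) ∈ natCells κ K) =
      ind (r ≠ 0 ∧ r ≠ z ∧ (z - r).2 - r.2 ∈ K r.1 (z - r).1) := by
    intro r
    apply ind_congr
    rw [mem_natCells, Ne, Ne, Ne, Ne, add_sub_cancel, sub_eq_zero, eq_comm (a := z) (b := r)]
    tauto
  simp only [h1]
  rw [sum_ind_remove (fun r : G × ZMod g => (z - r).2 - r.2 ∈ K r.1 (z - r).1), sum_sym hg K z]
  have e1 : ∑ X, ((K X (z.1 - X)).card : ℤ) = g * Fintype.card G - (g * τ +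
      2 * ind (z.1 ∈ A) + ind (z.1 = Z0)) := by
    simp only [hK, Finset.sum_sub_distrib, hq.symSum]
    simp [mul_comm]
  have e2 : ind ((z - 0).2 - (0 : G × ZMod g).2 ∈ K (0 : G × ZMod g).1 (z - 0).1) =
      1 - ind (z.1 ∈ A) :=
    ind_full (by rw [Prod.fst_zero, hK, sub_zero, hq.row0]) _
  have e3 : ind ((z - z).2 - z.2 ∈ K z.1 (z - z).1) = 1 - ind (z.1 ∈ A) :=
    ind_full (by rw [sub_self, Prod.fst_zero, hK, hq.col0]) _
  have e4 : ind ((0 : G × ZMod g) = z ∧
      (z - 0).2 - (0 : G × ZMod g).2 ∈ K (0 : G × ZMod g).1 (z - 0).1) = ind (z = 0) := by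
    by_cases h : z = 0
    · rw [ind_true h]
      apply ind_true
      refine ⟨h.symm, ?_⟩
      by_contra h'
      rw [ind_false h'] at e2
      have h2 : z.1 = 0 := by rw [h]; rfl
      rw [h2, ind_false hA0] at e2
      norm_num at e2
    · rw [ind_false h]
      apply ind_false
      rintro ⟨h', -⟩
      exact h h'.symm
  rw [e1, e2, e3, e4]
  ring

end lines

end Pool.Agent.Lib.MP_185394_co.Near
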