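import Pool.Agent.Lib.MP_185394_co.Near.Jobs

/-!
The nearly natural squares have all the properties needed for the blow-up.
-/

namespace Pool.Agent.Lib.MP_185394_co.Near

open Finset

set_option linter.unusedSectionVars false

lemma card_double_le {h : ℕ} [NeZero (2 * h)] (c : ZMod (2 * h)) :
    (univ.filter fun Y : ZMod (2 * h) => Y + Y = c).card ≤ 2 := by
  classical
  by_cases hex : ∃ Y0 : ZMod (2 * h), Y0 + Y0 = c
  · obtain ⟨Y0, hY0⟩ := hex
    refine (Finset.card_le_card (t := {Y0, Y0 + (h : ZMod (2 * h))}) ?_).trans Finset.card_le_two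
    intro Y hY
    have h1 := (mem_filter.mp hY).2
    have h2 : (Y - Y0) + (Y - Y0) = 0 := by
      have : (Y - Y0) + (Y - Y0) = (Y + Y) - (Y0 + Y0) := by ring
      rw [this, h1, hY0, sub_self]
    have h3 : ((2 * (Y - Y0).val : ℕ) : ZMod (2 * h)) = 0 := by
      push_cast
      rw [ZMod.natCast_zmod_val, two_mul (Y - Y0)]
      exact h2
    have h4 := (ZMod.natCast_eq_zero_iff _ _).mp h3
    have h5 : h ∣ (Y - Y0).val := Nat.dvd_of_mul_dvd_mul_left (by norm_num) h4
    have h6 := ZMod.val_lt (Y - Y0)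
    obtain ⟨j, hj⟩ := h5
    have hpos : 0 < 2 * h := Nat.pos_of_ne_zero (NeZero.ne _)
    have h7 : j < 2 := by
      by_contra h7
      push Not at h7
      have : h * 2 ≤ h * j := Nat.mul_le_mul_left h h7
      omega
    have h8 : Y = Y0 + ((Y - Y0).val : ZMod (2 * h)) := by
      rw [ZMod.natCast_zmod_val]
      ring
    rw [Finset.mem_insert, Finset.mem_singleton]
    have h9 : j = 0 ∨ j = 1 := by omega
    rcases h9 with h9 | h9
    · left
      rw [h8, hj, h9]
      simp
    · right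
      rw [h8, hj, h9]
      simp
  · have : (univ.filter fun Y : ZMod (2 * h) => Y + Y = c) = ∅ := by
      ext Y
      simp only [mem_filter, mem_univ, true_and, Finset.notMem_empty, iff_false]
      exact fun h' => hex ⟨Y, h'⟩
    rw [this]
    norm_num

section

variable {β γ : ℕ} [NeZero β] [NeZero γ] {ρ : ZMod β × ZMod γ → Equiv.Perm (ZMod β)}
  {l : ZMod β × ZMod γ → ZMod β → ZMod γ}

lemma nat_cell (hl : Lines ρ l) {r s : ZMod β × ZMod γ} (hr : r ≠ 0) (hs : s ≠ 0)
    (hrs : r + s ≠ (1, 1)) (h1 : ρ r s.1 = s.1) (h2 : r.1 + s.1 ≠ 1 - s.1) :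
    Good ((1, 1) : ZMod β × ZMod γ) (smallSq ρ l) r s := by
  refine ⟨hr, hs, hrs, ?_⟩
  have h3 : r.1 + ρ r s.1 ≠ 1 - s.1 := by rwa [h1]
  have h4 := hl.nat s.1 r hr h3 h1
  rcases smallSq_cases ρ l r s with ⟨g1, g2, g3⟩ | ⟨g1, g2, g3⟩ | ⟨g1, g2, g3, g4, g5⟩ |
    ⟨g1, g2, g3⟩
  · rw [g1, sub_zero] at h3
    rw [g1] at g2
    exact absurd g2 h3
  · exact absurd g2 h3
  · exfalso
    apply hrs
    rw [h1] at g3
    rw [h4] at g4
    exact Prod.ext g3 (by rw [← g4, add_comm]; rfl)
  · rw [g3, h1, h4, add_comm s.2]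
    rfl

lemma card_first {p : ZMod β → Prop} [DecidablePred p] {n : ℕ}
    (hp : (univ.filter p).card ≤ n) :
    (univ.filter fun s : ZMod β × ZMod γ => p s.1).card ≤ n * γ := by
  have h1 : (univ.filter fun s : ZMod β × ZMod γ => p s.1) =
      (univ.filter p) ×ˢ (univ : Finset (ZMod γ)) := by
    ext s
    simp
  rw [h1, Finset.card_product, Finset.card_univ, ZMod.card]
  exact Nat.mul_le_mul_right γ hp

end

theorem dense_small {h γ : ℕ} [NeZero (2 * h)] [NeZero γ]
    {ρ : ZMod (2 * h) × ZMod γ → Equiv.Perm (ZMod (2 * h))}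
    {l : ZMod (2 * h) × ZMod γ → ZMod (2 * h) → ZMod γ} (hl : Lines ρ l)
    (hs1 : (univ.filter fun r => ρ r ≠ 1).card ≤ γ)
    (hs2 : ∀ r, (univ.filter fun Y => ρ r Y ≠ Y).card ≤ 3) :
    Dense ((1, 1) : ZMod (2 * h) × ZMod γ) (Good (1, 1) (smallSq ρ l)) (5 * γ + 2) where
  x0 := fun _ _ hg => hg.1
  y0 := fun _ _ hg => hg.2.1
  zk := fun _ _ hg => hg.2.2.1
  row := by
    intro r hr
    have hsub : (univ.filter fun s => ¬ Good (1, 1) (smallSq ρ l) r s) ⊆
        ({0, (1, 1) - r} : Finset (ZMod (2 * h) × ZMod γ)) ∪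
        ((univ.filter fun s : ZMod (2 * h) × ZMod γ => ρ r s.1 ≠ s.1) ∪
        (univ.filter fun s : ZMod (2 * h) × ZMod γ => s.1 + s.1 = 1 - r.1)) := by
      intro s hs
      have h1 := (mem_filter.mp hs).2
      by_contra h2
      simp only [mem_union, mem_insert, mem_singleton, mem_filter, mem_univ, true_and, not_or,
        not_not] at h2
      refine h1 (nat_cell hl hr h2.1.1 (fun h3 => h2.1.2 ?_) h2.2.1 (fun h3 => h2.2.2 ?_))
      · rw [← h3, add_sub_cancel_left]
      · rw [eq_sub_iff_add_eq] at h3 ⊢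
        rw [← h3]
        ring
    refine (Finset.card_le_card hsub).trans ((Finset.card_union_le _ _).trans ?_)
    have e1 : ({0, (1, 1) - r} : Finset (ZMod (2 * h) × ZMod γ)).card ≤ 2 := Finset.card_le_two
    have e2 := Finset.card_union_le
      (univ.filter fun s : ZMod (2 * h) × ZMod γ => ρ r s.1 ≠ s.1)
      (univ.filter fun s : ZMod (2 * h) × ZMod γ => s.1 + s.1 = 1 - r.1)
    have e3 := card_first (γ := γ) (hs2 r)
    have e4 := card_first (γ := γ) (card_double_le (1 - r.1))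
    omega
  col := by
    intro s hs
    have hsub : (univ.filter fun r => ¬ Good (1, 1) (smallSq ρ l) r s) ⊆
        ({0, (1, 1) - s} : Finset (ZMod (2 * h) × ZMod γ)) ∪
        ((univ.filter fun r : ZMod (2 * h) × ZMod γ => ρ r ≠ 1) ∪
        (univ.filter fun r : ZMod (2 * h) × ZMod γ => r.1 = 1 - s.1 - s.1)) := by
      intro r hr
      have h1 := (mem_filter.mp hr).2
      by_contra h2
      simp only [mem_union, mem_insert, mem_singleton, mem_filter, mem_univ, true_and, not_or,
        not_not] at h2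
      refine h1 (nat_cell hl h2.1.1 hs (fun h3 => h2.1.2 ?_) (by rw [h2.2.1]; rfl)
        (fun h3 => h2.2.2 ?_))
      · rw [← h3, add_sub_cancel_right]
      · rw [← h3, add_sub_cancel_right]
    refine (Finset.card_le_card hsub).trans ((Finset.card_union_le _ _).trans ?_)
    have e1 : ({0, (1, 1) - s} : Finset (ZMod (2 * h) × ZMod γ)).card ≤ 2 := Finset.card_le_two
    have e2 := Finset.card_union_le
      (univ.filter fun r : ZMod (2 * h) × ZMod γ => ρ r ≠ 1)
      (univ.filter fun r : ZMod (2 * h) × ZMod γ => r.1 = 1 - s.1 - s.1)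
    have e4 := card_first (γ := γ) (p := fun Y : ZMod (2 * h) => Y = 1 - s.1 - s.1) (n := 1)
      (by rw [Finset.filter_eq' univ, if_pos (mem_univ _), Finset.card_singleton])
    omega
  sym := by
    intro z hz
    have hsub : (univ.filter fun r => ¬ Good (1, 1) (smallSq ρ l) r (z - r)) ⊆
        ({0, z} : Finset (ZMod (2 * h) × ZMod γ)) ∪
        ((univ.filter fun r : ZMod (2 * h) × ZMod γ => ρ r ≠ 1) ∪
        (univ.filter fun r : ZMod (2 * h) × ZMod γ => r.1 = z.1 + z.1 - 1)) := by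
      intro r hr
      have h1 := (mem_filter.mp hr).2
      by_contra h2
      simp only [mem_union, mem_insert, mem_singleton, mem_filter, mem_univ, true_and, not_or,
        not_not] at h2
      refine h1 (nat_cell hl h2.1.1 (fun h3 => h2.1.2 (sub_eq_zero.mp h3).symm)
        (fun h3 => hz ?_) (by rw [h2.2.1]; rfl) (fun h3 => h2.2.2 ?_))
      · rw [← h3, add_sub_cancel]
      · have h4 : r.1 + (z.1 - r.1) = 1 - (z.1 - r.1) := h3
        rw [add_sub_cancel] at h4
        nth_rewrite 1 [h4]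
        ring
    refine (Finset.card_le_card hsub).trans ((Finset.card_union_le _ _).trans ?_)
    have e1 : ({0, z} : Finset (ZMod (2 * h) × ZMod γ)).card ≤ 2 := Finset.card_le_two
    have e2 := Finset.card_union_le
      (univ.filter fun r : ZMod (2 * h) × ZMod γ => ρ r ≠ 1)
      (univ.filter fun r : ZMod (2 * h) × ZMod γ => r.1 = z.1 + z.1 - 1)
    have e4 := card_first (γ := γ) (p := fun Y : ZMod (2 * h) => Y = z.1 + z.1 - 1) (n := 1)
      (by rw [Finset.filter_eq' univ, if_pos (mem_univ _), Finset.card_singleton])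
    omega

/-- For a prime `γ` large compared with `h`, and `4 ∣ 2 h`: large indivisible plexes. -/
theorem exists_large {h γ : ℕ} (hh : 200 ≤ h) (h2 : 2 ∣ h) (hp : γ.Prime)
    (hγ : h * h + h * (2 * h * (2 * h)) + 2 ≤ γ) :
    ∃ (τ D m0 : ℕ), τ ≤ 63 * γ ∧ 0 < D ∧ ∀ m, m0 ≤ m → Odd (1 + D * m) →
      Nat.Coprime (2 * h * γ) (1 + D * m) → 1 < 1 + D * m →
      (2 * h * γ - τ) * (1 + D * m) - 2 ≤ kappa (2 * h * γ * (1 + D * m) - 1) := by
  classical
  have : Fact γ.Prime := ⟨hp⟩
  have hγh : h * 200 ≤ γ := by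
    have : h * 200 ≤ h * h := Nat.mul_le_mul_left h hh
    omega
  have : NeZero γ := ⟨by omega⟩
  have : NeZero (2 * h) := ⟨by omega⟩
  have : Fact (1 < γ) := ⟨by omega⟩
  have hγ1 : (1 : ZMod γ) ≠ 0 := one_ne_zero
  have hne : ∀ {a b : ℕ}, a < 2 * h → b < 2 * h → a ≠ b →
      (a : ZMod (2 * h)) ≠ (b : ZMod (2 * h)) := by
    intro a b ha hb hab h'
    rw [castEq _ hb, ZMod.val_cast_of_lt ha] at h'
    exact hab h'
  have hneγ : ∀ {a b : ℕ}, a < γ → b < γ → a ≠ b → (a : ZMod γ) ≠ (b : ZMod γ) := by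
    intro a b ha hb hab h'
    rw [castEq _ hb, ZMod.val_cast_of_lt ha] at h'
    exact hab h'
  have hβ1 : (1 : ZMod (2 * h)) ≠ 0 := by
    have := hne (a := 1) (b := 0) (by omega) (by omega) (by omega)
    rwa [Nat.cast_one, Nat.cast_zero] at this
  obtain ⟨ρ, hρ, hs1, hs2⟩ := exists_rowPerms_concrete (h := h) (γ := γ) (by omega) hγ1 hγ
  obtain ⟨l, hl⟩ := hρ.exists_lines hβ1
  have hM := smallSq_punctured hρ hl hβ1
  have hD := dense_small hl hs1 hs2
  -- the size of the excess
  obtain ⟨w, hw⟩ : ∃ w, w = 30 * γ / (2 * h) + 1 := ⟨_, rfl⟩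
  have hw1 : 30 * γ < 2 * h * w := by
    rw [hw]
    have := Nat.lt_mul_div_succ (30 * γ) (b := 2 * h) (by omega)
    exact this
  have hw2 : 2 * h * w ≤ 30 * γ + 2 * h := by
    rw [hw, mul_add, mul_one]
    have := Nat.mul_div_le (30 * γ) (2 * h)
    omega
  obtain ⟨τ, hτ⟩ : ∃ τ, τ = 2 * (2 * h * w) := ⟨_, rfl⟩
  obtain ⟨e, he⟩ : ∃ e, τ = 60 * γ + e := ⟨τ - 60 * γ, by omega⟩
  have he0 : 0 < e := by omega
  have he1 : e ≤ 4 * h := by omega
  have hτβ : (τ : ZMod (2 * h)) = 0 := by
    rw [hτ]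
    push_cast
    have : ((2 : ZMod (2 * h)) * (h : ZMod (2 * h))) = 0 := by
      have := ZMod.natCast_self (2 * h)
      push_cast at this
      exact this
    rw [this]
    ring
  have hτγ : (τ : ZMod γ) = (e : ZMod γ) := by
    rw [he]
    push_cast
    rw [ZMod.natCast_self]
    ring
  have hcardG : Fintype.card (ZMod (2 * h) × ZMod γ) = 2 * h * γ := by
    rw [Fintype.card_prod, ZMod.card, ZMod.card]
  have hco : Nat.Coprime (2 * h) γ := by
    rw [Nat.coprime_comm]
    exact (Nat.Prime.coprime_iff_not_dvd hp).mpr (fun h' => by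
      have := Nat.le_of_dvd (by omega) h'
      omega)
  have hord : addOrderOf ((1, 1) : ZMod (2 * h) × ZMod γ) =
      Fintype.card (ZMod (2 * h) × ZMod γ) := by
    rw [Prod.addOrderOf_mk, ZMod.addOrderOf_one, ZMod.addOrderOf_one, Nat.Coprime.lcm_eq_mul hco,
      hcardG]
  have hτsm : τ • ((1, 1) : ZMod (2 * h) × ZMod γ) = (0, (e : ZMod γ)) := by
    refine Prod.ext ?_ ?_
    · show τ • (1 : ZMod (2 * h)) = 0
      rw [nsmul_one, hτβ]
    · show τ • (1 : ZMod γ) = e
      rw [nsmul_one, hτγ]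
  have hbig : 2 * h * γ = 2 * (h * γ) := by ring
  have hhγ : 200 * γ ≤ h * γ := Nat.mul_le_mul_right γ hh
  -- values
  have hkk : smallSq ρ l (1, 1) (1, 1) = 0 := by
    have e1 : ((1, 1) : ZMod (2 * h) × ZMod γ).1 + ρ (1, 1) ((1, 1) : ZMod (2 * h) × ZMod γ).1 =
        1 := by
      show (1 : ZMod (2 * h)) + ρ (1, 1) 1 = 1
      rw [hρ.kap1, add_zero]
    rcases smallSq_cases ρ l (1, 1) (1, 1) with ⟨g1, g2, g3⟩ | ⟨g1, g2, g3⟩ |
      ⟨g1, g2, g3, g4, g5⟩ | ⟨g1, g2, g3⟩
    · exact absurd g1 hβ1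
    · rw [e1] at g2
      simp only [sub_self] at g2
      exact absurd g2 hβ1
    · rw [g5, sub_self]
    · exfalso
      apply g2
      refine ⟨e1, ?_⟩
      show (1 : ZMod γ) + l (1, 1) 1 = 1
      rw [hl.kap1, add_zero]
  have h3κ : smallSq ρ l ((1, 1) + (1, 1) + (1, 1)) (-((1, 1) + (1, 1))) =
      (1, 1) + (1, 1) + (1, 1) := by
    set r : ZMod (2 * h) × ZMod γ := (1, 1) + (1, 1) + (1, 1) with hrdef
    set s : ZMod (2 * h) × ZMod γ := -((1, 1) + (1, 1)) with hsdef
    have hr1 : r.1 = 1 + 1 + 1 := rfl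
    have hr2 : r.2 = 1 + 1 + 1 := rfl
    have hs1 : s.1 = -(1 + 1) := rfl
    have hs2 : s.2 = -(1 + 1) := rfl
    have h31 : (1 + 1 + 1 : ZMod (2 * h)) ≠ 1 := by
      have := hne (a := 3) (b := 1) (by omega) (by omega) (by omega)
      intro h'
      apply this
      push_cast
      rw [← h']
      norm_num
    have h30 : (1 + 1 + 1 : ZMod (2 * h)) ≠ 0 := by
      have := hne (a := 3) (b := 0) (by omega) (by omega) (by omega)
      intro h'
      apply this
      push_cast
      rw [← h']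
      norm_num
    have hr0 : r ≠ 0 := fun h' => h30 (by rw [← hr1, h']; rfl)
    have hrκ : r ≠ (1, 1) := fun h' => h31 (by rw [← hr1, h'])
    have hfix : ρ r s.1 = s.1 := by
      have h5 : ∃ Y, r.1 + ρ r Y = 1 := ⟨(ρ r).symm (1 - r.1), by
        rw [Equiv.apply_symm_apply, add_sub_cancel]⟩
      obtain ⟨Y, hY⟩ := h5
      have h6 := hρ.one r Y hrκ hY
      rw [h6, hr1] at hY
      have h7 : Y = s.1 := by
        rw [hs1]
        have : Y = (1 + 1 + 1 + Y) - (1 + 1 + 1) := by ring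
        rw [this, hY]
        ring
      rw [← h7]
      exact h6
    have hcl : r.1 + ρ r s.1 = 1 := by
      rw [hfix, hr1, hs1]
      ring
    have hnref : r.1 + ρ r s.1 ≠ 1 - s.1 := by
      rw [hcl, hs1]
      intro h'
      apply h31
      have : (1 + 1 + 1 : ZMod (2 * h)) = 1 - -(1 + 1) := by ring
      rw [this, ← h']
    have hlr := hl.nat s.1 r hr0 hnref hfix
    rcases smallSq_cases ρ l r s with ⟨g1, g2, g3⟩ | ⟨g1, g2, g3⟩ |
      ⟨g1, g2, g3, g4, g5⟩ | ⟨g1, g2, g3⟩
    · exfalso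
      rw [g1, sub_zero] at hnref
      rw [g1] at g2
      exact hnref g2
    · exact absurd g2 hnref
    · rw [g5, hrdef, hsdef]
      abel
    · exfalso
      apply g2
      refine ⟨hcl, ?_⟩
      rw [hlr, hr2, hs2]
      ring
  -- the touched block
  have hz : ∀ n : ℕ, n + e < γ → n + e ≠ 0 → ((n : ZMod γ) + (e : ZMod γ)) ≠ 0 := by
    intro n hn hn0 h'
    have := hneγ (a := n + e) (b := 0) hn (by omega) hn0
    rw [Nat.cast_add, Nat.cast_zero] at this
    exact this h'
  have hMXY : smallSq ρ l (1, 3 + (e : ZMod γ)) (0, 2) = (1, 5 + 2 * (e : ZMod γ)) := by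
    have hX : ((1, 3 + (e : ZMod γ)) : ZMod (2 * h) × ZMod γ) ≠ (1, 1) := by
      intro h'
      have h5 := (Prod.ext_iff.mp h').2
      simp only at h5
      apply hz 2 (by omega) (by omega)
      have : ((2 : ℕ) : ZMod γ) + (e : ZMod γ) = (3 + (e : ZMod γ)) - 1 := by
        push_cast
        ring
      rw [this, h5, sub_self]
    have e1 : (1 : ZMod (2 * h)) + ρ (1, 3 + (e : ZMod γ)) 0 = 1 := by
      rw [hρ.zero _ hX, add_zero]
    unfold smallSq
    rw [if_pos ⟨rfl, e1⟩]
    refine Prod.ext rfl ?_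
    show 1 + (3 + (e : ZMod γ) - 1) * 2 = 5 + 2 * (e : ZMod γ)
    ring
  have key := level2 (G := ZMod (2 * h) × ZMod γ) hM hkk hD hord (by
      rw [hcardG]
      obtain ⟨j, hj⟩ := h2
      exact ⟨j * γ, by rw [hj]; ring⟩) h3κ τ ⟨2 * h * w, by rw [hτ]; ring⟩ (by
      rw [hcardG]
      omega) (by omega) (by
      rw [hcardG]
      omega) (1, 3 + (e : ZMod γ)) (0, 2) ?_ ?_ ?_ ?_ ?_ ?_ ?_ ?_
  · rw [hcardG] at key
    obtain ⟨D, m0, hD0, hk⟩ := key
    refine ⟨τ, D, m0, ?_, hD0, hk⟩
    omega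
  · intro h'
    exact hβ1 (Prod.ext_iff.mp h').1
  · intro h'
    have h5 := (Prod.ext_iff.mp h').2
    have := hneγ (a := 2) (b := 0) (by omega) (by omega) (by omega)
    rw [Nat.cast_zero] at this
    exact this h5
  · intro h'
    have h5 := (Prod.ext_iff.mp h').2
    simp only at h5
    apply hz 2 (by omega) (by omega)
    have : ((2 : ℕ) : ZMod γ) + (e : ZMod γ) = (3 + (e : ZMod γ)) - 1 := by
      push_cast
      ring
    rw [this, h5, sub_self]
  · intro h'
    exact hβ1 (Prod.ext_iff.mp h').1.symm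
  · intro h'
    have h5 := (Prod.ext_iff.mp h').2
    have h6 : 3 + (e : ZMod γ) + 2 = 1 := h5
    apply hz 4 (by omega) (by omega)
    have : ((4 : ℕ) : ZMod γ) + (e : ZMod γ) = (3 + (e : ZMod γ) + 2) - 1 := by
      push_cast
      ring
    rw [this, h6, sub_self]
  · rw [hMXY, hτsm]
    refine Prod.ext ?_ ?_
    · show (1 : ZMod (2 * h)) = 1 + 0 + 0
      ring
    · show 5 + 2 * (e : ZMod γ) = 3 + (e : ZMod γ) + 2 + e
      ring
  · rw [hτsm]
    intro h'
    have h5 := (Prod.ext_iff.mp h').2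
    apply hz 0 (by omega) (by omega)
    rw [Nat.cast_zero, zero_add]
    exact h5
  · intro W hW
    simp only [mem_insert, mem_singleton] at hW
    rw [hMXY]
    rcases hW with hW | hW | hW
    · rw [hW]
      constructor
      · intro h'
        exact hβ1 (Prod.ext_iff.mp h').1
      · intro h'
        have h5 := (Prod.ext_iff.mp h').2
        have h6 : 5 + 2 * (e : ZMod γ) = 1 - 0 := h5
        have h7 : (2 : ZMod γ) * (((2 : ℕ) : ZMod γ) + (e : ZMod γ)) = 0 := by
          have : (2 : ZMod γ) * (((2 : ℕ) : ZMod γ) + (e : ZMod γ)) =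
              (5 + 2 * (e : ZMod γ)) - 1 := by
            push_cast
            ring
          rw [this, h6]
          ring
        rcases mul_eq_zero.mp h7 with h8 | h8
        · have := hneγ (a := 2) (b := 0) (by omega) (by omega) (by omega)
          rw [Nat.cast_zero] at this
          exact this h8
        · exact hz 2 (by omega) (by omega) h8
    · rw [hW]
      constructor
      · intro h'
        have h5 := (Prod.ext_iff.mp h').2
        simp only at h5
        apply hz 2 (by omega) (by omega)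
        have : ((2 : ℕ) : ZMod γ) + (e : ZMod γ) =
            (5 + 2 * (e : ZMod γ)) - (3 + (e : ZMod γ)) := by
          push_cast
          ring
        rw [this, h5, sub_self]
      · intro h'
        have h5 := (Prod.ext_iff.mp h').1
        have h6 : (1 : ZMod (2 * h)) = 1 - 1 := h5
        rw [sub_self] at h6
        exact hβ1 h6
    · rw [hW]
      constructor
      · intro h'
        exact hβ1 (Prod.ext_iff.mp h').1
      · intro h'
        have h5 := (Prod.ext_iff.mp h').2
        have h6 : 5 + 2 * (e : ZMod γ) = 1 - 2 := h5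
        have h7 : (2 : ZMod γ) * (((3 : ℕ) : ZMod γ) + (e : ZMod γ)) = 0 := by
          have : (2 : ZMod γ) * (((3 : ℕ) : ZMod γ) + (e : ZMod γ)) =
              (5 + 2 * (e : ZMod γ)) + 1 := by
            push_cast
            ring
          rw [this, h6]
          ring
        rcases mul_eq_zero.mp h7 with h8 | h8
        · have := hneγ (a := 2) (b := 0) (by omega) (by omega) (by omega)
          rw [Nat.cast_zero] at this
          exact this h8
        · exact hz 3 (by omega) (by omega) h8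

end Pool.Agent.Lib.MP_185394_co.Near
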