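import Pool.Agent.Lib.MP_185394_co.Near.Weights

/-!
The gauge functions, the operation, the order of the defect, and the choice of the ten blocks.
-/

namespace Pool.Agent.Lib.MP_185394_co.Near

open Finset

set_option linter.unusedSectionVars false

section order

lemma addOrderOf_add_self {G : Type} [AddCommGroup G] [Fintype G] {κ σ : G}
    (hκ : addOrderOf κ = Fintype.card G) (h4 : 4 ∣ Fintype.card G) (hσ : σ + σ = 0) :
    addOrderOf (κ + σ) = Fintype.card G := by
  obtain ⟨d, hd⟩ := h4
  have hpos : 0 < Fintype.card G := Fintype.card_pos_iff.mpr ⟨0⟩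
  set m := addOrderOf (κ + σ) with hm
  have h1 : m ∣ Fintype.card G := addOrderOf_dvd_card
  have h0 : m • (κ + σ) = 0 := addOrderOf_nsmul_eq_zero _
  have hσ2 : ∀ j : ℕ, (2 * j) • σ = 0 := by
    intro j
    rw [mul_comm, mul_smul, two_smul, hσ, smul_zero]
  have h2 : Fintype.card G ∣ 2 * m := by
    rw [← hκ]
    apply addOrderOf_dvd_of_nsmul_eq_zero
    have h3 : (2 * m) • (κ + σ) = 0 := by rw [mul_smul, h0, smul_zero]
    rw [smul_add, hσ2, add_zero] at h3
    exact h3
  obtain ⟨j, hj⟩ := h1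
  have hm0 : 0 < m := Nat.pos_of_ne_zero (by rintro h; rw [h, zero_mul] at hj; omega)
  rw [hj] at h2
  have h3 : j ∣ 2 := by
    have : m * j ∣ m * 2 := by rwa [mul_comm m 2]
    exact Nat.dvd_of_mul_dvd_mul_left hm0 this
  have h4 : j = 1 ∨ j = 2 := (Nat.dvd_prime Nat.prime_two).mp h3
  rcases h4 with h4 | h4
  · rw [h4, mul_one] at hj
    exact hj.symm
  · exfalso
    rw [h4] at hj
    have h5 : m = 2 * d := by omega
    rw [smul_add, h5, hσ2, add_zero] at h0
    have h6 := addOrderOf_dvd_of_nsmul_eq_zero h0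
    rw [hκ, hd] at h6
    have := Nat.le_of_dvd (by omega) h6
    omega

/-- a generator of a cyclic group of even order is not a double -/
lemma two_smul_ne {G : Type} [AddCommGroup G] [Fintype G] {κ : G}
    (hκ : addOrderOf κ = Fintype.card G) (h2 : 2 ∣ Fintype.card G) (X : G) : X + X ≠ κ := by
  intro h
  obtain ⟨d, hd⟩ := h2
  have hpos : 0 < Fintype.card G := Fintype.card_pos_iff.mpr ⟨0⟩
  have h1 : d • κ = 0 := by
    rw [← h, ← two_smul ℕ X, ← mul_smul, mul_comm, ← hd]
    exact card_nsmul_eq_zero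
  have h3 := addOrderOf_dvd_of_nsmul_eq_zero h1
  rw [hκ, hd] at h3
  have := Nat.le_of_dvd (by omega) h3
  omega

end order

section gauge

variable {g : ℕ} [NeZero g]

lemma two_mul_inj (hg : Odd g) : Function.Injective fun x : ZMod g => x + x := by
  have h2 : IsUnit (2 : ZMod g) := by
    have : (2 : ZMod g) = ((2 : ℕ) : ZMod g) := by norm_cast
    rw [this, ZMod.isUnit_iff_coprime]
    exact (Nat.coprime_two_left.mpr hg)
  intro x y h
  simp only at h
  rw [← two_mul, ← two_mul] at h
  exact h2.mul_left_cancel h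

/-- the affine map of slope two -/
noncomputable def slope2 (hg : Odd g) (t : ZMod g) : ZMod g ≃ ZMod g :=
  Equiv.ofBijective (fun u => u + u + t) (Finite.injective_iff_bijective.mp fun _ _ h =>
    two_mul_inj hg (add_right_cancel h))

/-- the gauge functions -/
noncomputable def gaugeFun {G : Type} [AddCommGroup G] [DecidableEq G] (κ Z0 : G) (h : G → Prop)
    [DecidablePred h] (hg : Odd g) (t : ZMod g) (X : G) : ZMod g ≃ ZMod g :=
  if X = Z0 then slope2 hg t
  else if X = κ - Z0 then (slope2 hg t).trans (Equiv.subLeft 1)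
  else if h X then Equiv.refl _ else Equiv.subLeft 1

lemma exists_half {G : Type} [AddCommGroup G] [Fintype G] [DecidableEq G] {κ : G}
    (h2 : ∀ X, X + X ≠ κ) (W : Finset G) (hW : ∀ X ∈ W, κ - X ∉ W) :
    ∃ h : G → Prop, (∀ X, h (κ - X) ↔ ¬ h X) ∧ ∀ X ∈ W, h X := by
  let idx : G → Fin (Fintype.card G) := Fintype.equivFin G
  refine ⟨fun X => X ∈ W ∨ (κ - X ∉ W ∧ idx X < idx (κ - X)), ?_, fun X hX => Or.inl hX⟩
  intro X
  have hne : idx X ≠ idx (κ - X) := by
    intro h
    have h1 := (Fintype.equivFin G).injective h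
    apply h2 X
    nth_rewrite 2 [h1]
    abel
  beta_reduce
  rw [sub_sub_cancel]
  by_cases h1 : X ∈ W
  · have h3 := hW X h1
    constructor
    · rintro (h | h)
      · exact absurd h h3
      · exact absurd h1 h.1
    · intro h
      exact absurd (Or.inl h1) h
  · by_cases h3 : κ - X ∈ W
    · constructor
      · rintro - (h | h)
        · exact h1 h
        · exact h.1 h3
      · intro _
        exact Or.inl h3
    · constructor
      · rintro (h | h) (h' | h')
        · exact h3 h
        · exact h3 h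
        · exact h1 h'
        · exact lt_asymm h.2 h'.2
      · intro h
        right
        refine ⟨h1, ?_⟩
        rcases lt_or_gt_of_ne hne with h5 | h5
        · exact absurd (Or.inr ⟨h3, h5⟩) h
        · exact h5

theorem exists_gauge {G : Type} [AddCommGroup G] [Fintype G] [DecidableEq G] {κ X0 Y0 Z0 : G}
    (h2 : ∀ X, X + X ≠ κ) (hκ : κ ≠ 0) (hX : X0 ≠ κ) (hY : Y0 ≠ κ) (hXY : X0 + Y0 ≠ κ)
    (hZ : ∀ W ∈ ({0, X0, Y0} : Finset G), Z0 ≠ W ∧ Z0 ≠ κ - W) (hg : Odd g) (t : ZMod g) :
    ∃ a : G → ZMod g ≃ ZMod g, (∀ u, a 0 u = u) ∧ (∀ u, a X0 u = u) ∧ (∀ u, a Y0 u = u) ∧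
      (∀ u, a Z0 u = u + u + t) ∧ ∀ X u, a X u + a (κ - X) u = 1 := by
  classical
  obtain ⟨h, hh, hhW⟩ := exists_half h2 {0, X0, Y0} (by
    intro X hX'
    simp only [mem_insert, mem_singleton] at hX' ⊢
    rintro (h3 | h3 | h3)
    · rw [sub_eq_zero] at h3
      rcases hX' with h4 | h4 | h4
      · exact hκ (h3.trans h4)
      · exact hX (h4 ▸ h3.symm)
      · exact hY (h4 ▸ h3.symm)
    · rcases hX' with h4 | h4 | h4
      · rw [h4, sub_zero] at h3
        exact hX h3.symm
      · rw [h4, sub_eq_iff_eq_add] at h3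
        exact h2 X0 h3.symm
      · rw [h4, sub_eq_iff_eq_add] at h3
        exact hXY h3.symm
    · rcases hX' with h4 | h4 | h4
      · rw [h4, sub_zero] at h3
        exact hY h3.symm
      · rw [h4, sub_eq_iff_eq_add, add_comm] at h3
        exact hXY h3.symm
      · rw [h4, sub_eq_iff_eq_add] at h3
        exact h2 Y0 h3.symm)
  have hid : ∀ W ∈ ({0, X0, Y0} : Finset G), ∀ u, gaugeFun κ Z0 h hg t W u = u := by
    intro W hW u
    unfold gaugeFun
    rw [if_neg (hZ W hW).1.symm, if_neg (fun h3 => (hZ W hW).2 (by rw [h3, sub_sub_cancel])),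
      if_pos (hhW W hW)]
    rfl
  have hZZ : Z0 ≠ κ - Z0 := by
    intro h3
    apply h2 Z0
    nth_rewrite 2 [h3]
    abel
  refine ⟨gaugeFun κ Z0 h hg t, hid 0 (by simp), hid X0 (by simp), hid Y0 (by simp), ?_, ?_⟩
  · intro u
    unfold gaugeFun
    rw [if_pos rfl]
    rfl
  · intro X u
    have e1 : (slope2 hg t) u + ((slope2 hg t).trans (Equiv.subLeft 1)) u = 1 := by
      show (slope2 hg t) u + (1 - (slope2 hg t) u) = 1
      abel
    have e2 : (Equiv.refl (ZMod g)) u + (Equiv.subLeft (1 : ZMod g)) u = 1 := by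
      show u + (1 - u) = 1
      abel
    unfold gaugeFun
    by_cases h3 : X = Z0
    · subst h3
      rw [if_pos rfl, if_neg hZZ.symm, if_pos rfl]
      exact e1
    by_cases h4 : X = κ - Z0
    · subst h4
      rw [if_neg h3, if_pos rfl, sub_sub_cancel, if_pos rfl, add_comm]
      exact e1
    rw [if_neg h3, if_neg h4, if_neg (fun h5 : κ - X = Z0 => h4 (by rw [← h5, sub_sub_cancel])),
      if_neg (fun h5 : κ - X = κ - Z0 => h3 (sub_right_inj.mp h5))]
    by_cases h5 : h X
    · rw [if_pos h5, if_neg (fun h6 => (hh X).mp h6 h5)]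
      exact e2
    · rw [if_neg h5, if_pos ((hh X).mpr h5), add_comm]
      exact e2

end gauge

section select

variable {G : Type} [AddCommGroup G] [Fintype G] [DecidableEq G]

lemma exists_avoid (B : Finset G) (l : List (Finset G)) {t : ℕ} (hl : ∀ s ∈ l, s.card ≤ t)
    (h : l.length * t + B.card < Fintype.card G) : ∃ x, x ∉ B ∧ ∀ s ∈ l, x ∉ s := by
  have key : ∀ (l : List (Finset G)), (∀ s ∈ l, s.card ≤ t) →
      ∃ U : Finset G, U.card ≤ l.length * t ∧ ∀ s ∈ l, s ⊆ U := by
    intro l
    induction l with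
    | nil => exact fun _ => ⟨∅, by simp, by simp⟩
    | cons s l ih =>
      intro hs
      obtain ⟨U, hU1, hU2⟩ := ih (fun s' hs' => hs s' (List.mem_cons_of_mem _ hs'))
      refine ⟨s ∪ U, ?_, ?_⟩
      · have h1 := Finset.card_union_le s U
        have h2 := hs s List.mem_cons_self
        rw [List.length_cons, add_mul, one_mul]
        omega
      · intro s' hs'
        rcases List.mem_cons.mp hs' with h1 | h1
        · rw [h1]
          exact Finset.subset_union_left
        · exact (hU2 s' h1).trans Finset.subset_union_right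
  obtain ⟨U, hU1, hU2⟩ := key l hl
  have h1 := Finset.card_union_le B U
  obtain ⟨x, hx⟩ := exists_notMem_of_card_lt (s := B ∪ U) (by omega)
  rw [mem_union, not_or] at hx
  exact ⟨x, hx.1, fun s hs h2 => hx.2 (hU2 s hs h2)⟩

lemma card_filter_comp (p : G → Prop) [DecidablePred p] (e : G ≃ G) :
    (univ.filter fun Y => p (e Y)).card = (univ.filter fun Y => p Y).card := by
  apply Finset.card_bij (fun Y _ => e Y)
  · intro Y hY
    rw [mem_filter] at hY ⊢
    exact ⟨mem_univ _, hY.2⟩
  · intro Y _ Y' _ h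
    exact e.injective h
  · intro Y hY
    rw [mem_filter] at hY
    exact ⟨e.symm Y, by simpa using hY.2, by simp⟩

end select

end Pool.Agent.Lib.MP_185394_co.Near
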