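import Pool.Agent.Lib.MP_185394_co.Near.Small

/-!
The class permutations of the special rows.
-/

namespace Pool.Agent.Lib.MP_185394_co.Near

open Finset

set_option linter.unusedSectionVars false

section rows

variable {β γ : ℕ} [NeZero β] [NeZero γ]

/-- the permutation of the row `κ` -/
def rhoKappa (β : ℕ) [NeZero β] : Equiv.Perm (ZMod β) :=
  Equiv.swap 1 (-1) * Equiv.swap 0 1

lemma rhoKappa_zero : rhoKappa β 0 = -1 := by
  simp [rhoKappa]

lemma rhoKappa_one (h1 : (1 : ZMod β) ≠ 0) : rhoKappa β 1 = 0 := by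
  have h2 : (0 : ZMod β) ≠ -1 := (neg_ne_zero.mpr h1).symm
  simp [rhoKappa, Equiv.swap_apply_of_ne_of_ne h1.symm h2]

lemma rhoKappa_neg_one (h1 : (1 : ZMod β) ≠ 0) (h2 : (1 : ZMod β) ≠ -1) :
    rhoKappa β (-1) = 1 := by
  simp [rhoKappa, Equiv.swap_apply_of_ne_of_ne (neg_ne_zero.mpr h1) h2.symm]

lemma rhoKappa_other {Y : ZMod β} (h0 : Y ≠ 0) (h1 : Y ≠ 1) (h2 : Y ≠ -1) :
    rhoKappa β Y = Y := by
  simp [rhoKappa, Equiv.swap_apply_of_ne_of_ne h0 h1, Equiv.swap_apply_of_ne_of_ne h1 h2]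

/-- the effect of a swap on the class counts -/
lemma swap_effect {X a b : ZMod β} (hab : a ≠ b) (Y Z : ZMod β) :
    ind (X + Equiv.swap a b Y = Z) - ind (X + Y = Z) =
      (ind (Y = a) - ind (Y = b)) * (ind (Z = X + b) - ind (Z = X + a)) := by
  by_cases h1 : Y = a
  · subst h1
    rw [Equiv.swap_apply_left, ind_true (rfl : Y = Y), ind_false hab,
      ind_congr (eq_comm (a := X + b) (b := Z)), ind_congr (eq_comm (a := X + Y) (b := Z))]
    ring
  · by_cases h2 : Y = b
    · subst h2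
      rw [Equiv.swap_apply_right, ind_true (rfl : Y = Y), ind_false h1,
        ind_congr (eq_comm (a := X + a) (b := Z)), ind_congr (eq_comm (a := X + Y) (b := Z))]
      ring
    · rw [Equiv.swap_apply_of_ne_of_ne h1 h2, ind_false h1, ind_false h2]
      ring

/-- the effect of the row `κ` -/
lemma kappa_effect (h1 : (1 : ZMod β) ≠ 0) (h2 : (1 : ZMod β) ≠ -1) (Y Z : ZMod β) :
    ind (1 + rhoKappa β Y = Z) - ind (1 + Y = Z) =
      ind (Y = 0) * (ind (Z = 0) - ind (Z = 1)) + ind (Y = 1) * (ind (Z = 1) - ind (Z = 2)) +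
      ind (Y = -1) * (ind (Z = 2) - ind (Z = 0)) := by
  by_cases g0 : Y = 0
  · subst g0
    rw [rhoKappa_zero, ind_true (rfl : (0 : ZMod β) = 0), ind_false h1.symm,
      ind_false (neg_ne_zero.mpr h1).symm,
      ind_congr (p := 1 + -1 = Z) (q := Z = 0) (by rw [add_neg_cancel, eq_comm]),
      ind_congr (p := 1 + 0 = Z) (q := Z = 1) (by rw [add_zero, eq_comm])]
    ring
  by_cases g1 : Y = 1
  · subst g1
    rw [rhoKappa_one h1, ind_true (rfl : (1 : ZMod β) = 1), ind_false h1,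
      ind_false h2,
      ind_congr (p := 1 + 0 = Z) (q := Z = 1) (by rw [add_zero, eq_comm]),
      ind_congr (p := 1 + 1 = Z) (q := Z = 2) (by rw [one_add_one_eq_two, eq_comm])]
    ring
  by_cases g2 : Y = -1
  · subst g2
    rw [rhoKappa_neg_one h1 h2, ind_true (rfl : (-1 : ZMod β) = -1), ind_false g0, ind_false g1,
      ind_congr (p := 1 + 1 = Z) (q := Z = 2) (by rw [one_add_one_eq_two, eq_comm]),
      ind_congr (p := 1 + -1 = Z) (q := Z = 0) (by rw [add_neg_cancel, eq_comm])]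
    ring
  rw [rhoKappa_other g0 g1 g2, ind_false g0, ind_false g1, ind_false g2]
  ring

theorem exists_rowPerms {J : Type} [Fintype J] [DecidableEq J] (X a b : J → ZMod β)
    (h1 : (1 : ZMod β) ≠ 0) (h2 : (1 : ZMod β) ≠ -1) (hγ : (1 : ZMod γ) ≠ 0)
    (hab : ∀ j, a j ≠ b j) (ha : ∀ j, a j ≠ 0) (hb : ∀ j, b j ≠ 0) (hXa : ∀ j, X j + a j ≠ 1)
    (hXb : ∀ j, X j + b j ≠ 1) (hJ : Fintype.card J + 2 ≤ γ)
    (hsum : ∀ Y Z, ∑ j, (ind (Y = a j) - ind (Y = b j)) *
      (ind (Z = X j + b j) - ind (Z = X j + a j)) =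
      (ind (Y = 1) - ind (Y = -1)) * (ind (Z = 2) - ind (Z = 0)) +
      (1 - ind (Y = 0) - ind (Y = 1)) * (ind (Z = Y) - ind (Z = 1 - Y))) :
    ∃ ρ : ZMod β × ZMod γ → Equiv.Perm (ZMod β), RowPerms ρ ∧
      (univ.filter fun r => ρ r ≠ 1).card ≤ Fintype.card J + 1 ∧
      ∀ r, (univ.filter fun Y => ρ r Y ≠ Y).card ≤ 3 := by
  classical
  obtain ⟨U, hU1, hU2⟩ := Finset.exists_subset_card_eq
    (s := ((univ : Finset (ZMod γ)).erase 0).erase 1) (n := Fintype.card J) (by
      rw [Finset.card_erase_of_mem (Finset.mem_erase.mpr ⟨hγ, mem_univ _⟩),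
        Finset.card_erase_of_mem (mem_univ _), Finset.card_univ, ZMod.card]
      omega)
  have e0 : J ≃ U := Fintype.equivOfCardEq (by rw [Fintype.card_coe, hU2])
  let e : J → ZMod γ := fun j => (e0 j).1
  have he1 : ∀ j, e j ≠ 1 := fun j => (Finset.mem_erase.mp (hU1 (e0 j).2)).1
  have he0 : ∀ j, e j ≠ 0 := fun j =>
    (Finset.mem_erase.mp (Finset.mem_erase.mp (hU1 (e0 j).2)).2).1
  have heinj : Function.Injective e := fun i j h => e0.injective (Subtype.ext h)
  let row : J → ZMod β × ZMod γ := fun j => (X j, e j)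
  have hrinj : Function.Injective row := fun i j h => heinj (Prod.ext_iff.mp h).2
  have hrκ : ∀ j, row j ≠ (1, 1) := fun j h => he1 j (Prod.ext_iff.mp h).2
  have hr0 : ∀ j, row j ≠ 0 := fun j h => he0 j (Prod.ext_iff.mp h).2
  let ρ : ZMod β × ZMod γ → Equiv.Perm (ZMod β) := fun r =>
    if r = (1, 1) then rhoKappa β
    else if h : ∃ j, row j = r then Equiv.swap (a h.choose) (b h.choose) else 1
  have hρκ : ρ (1, 1) = rhoKappa β := if_pos rfl
  have hρj : ∀ j, ρ (row j) = Equiv.swap (a j) (b j) := by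
    intro j
    have h : ∃ i, row i = row j := ⟨j, rfl⟩
    have h3 : h.choose = j := hrinj h.choose_spec
    simp only [ρ, if_neg (hrκ j), dif_pos h, h3]
  have hρo : ∀ r, r ≠ (1, 1) → (∀ j, row j ≠ r) → ρ r = 1 := by
    intro r h3 h4
    simp only [ρ, if_neg h3]
    rw [dif_neg (fun h => h4 h.choose h.choose_spec)]
  have hcases : ∀ r, r = (1, 1) ∨ (∃ j, row j = r) ∨ ρ r = 1 := by
    intro r
    by_cases h3 : r = (1, 1)
    · exact Or.inl h3
    by_cases h4 : ∃ j, row j = r
    · exact Or.inr (Or.inl h4)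
    · exact Or.inr (Or.inr (hρo r h3 (fun j h => h4 ⟨j, h⟩)))
  refine ⟨ρ, ⟨?_, ?_, ?_, ?_, ?_⟩, ?_, ?_⟩
  · -- the counts
    intro Y Z
    have hz0 : ((0 : ZMod β × ZMod γ)).1 = 0 := rfl
    have hκ0 : ((1, 1) : ZMod β × ZMod γ) ≠ 0 := fun h => h1 (Prod.ext_iff.mp h).1
    have hρ0 : ρ 0 = 1 := hρo 0 hκ0.symm hr0
    let F : ZMod β × ZMod γ → ℤ := fun r => ind (r.1 + ρ r Y = Z) - ind (r.1 + Y = Z)
    have hF0 : F 0 = 0 := by
      simp only [F, hρ0, Equiv.Perm.one_apply, sub_self]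
    have hcnt : ((univ.filter fun r : ZMod β × ZMod γ => r ≠ 0 ∧ r.1 + ρ r Y = Z).card : ℤ) =
        ∑ r, ind (r.1 + ρ r Y = Z) - ind (Y = Z) := by
      rw [card_filter_ind]
      have h3 : ∀ r : ZMod β × ZMod γ, ind (r ≠ 0 ∧ r.1 + ρ r Y = Z) =
          ind (r.1 + ρ r Y = Z) - ind (r = 0) * ind (Y = Z) := by
        intro r
        by_cases h4 : r = 0
        · rw [h4, ind_false (fun h => h.1 rfl), ind_true (rfl : (0 : ZMod β × ZMod γ) = 0), hρ0,
            ind_congr (p := (0 : ZMod β × ZMod γ).1 + (1 : Equiv.Perm (ZMod β)) Y = Z)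
              (q := Y = Z) (by rw [hz0, Equiv.Perm.one_apply, zero_add])]
          ring
        · rw [ind_false h4, zero_mul, sub_zero]
          exact ind_congr ⟨fun h => h.2, fun h => ⟨h4, h⟩⟩
      simp only [h3, Finset.sum_sub_distrib, ← Finset.sum_mul, sum_ind_eq', one_mul]
    have hbase : ∑ r : ZMod β × ZMod γ, ind (r.1 + Y = Z) = γ := by
      have h3 : ∑ x : ZMod β, ind (x + Y = Z) = 1 :=
        (Equiv.sum_comp (Equiv.addRight Y) (fun x => ind (x = Z))).trans (sum_ind_eq' Z)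
      have h4 : ∀ x : ZMod β, ∑ _y : ZMod γ, ind (x + Y = Z) = γ * ind (x + Y = Z) := by
        intro x
        rw [Finset.sum_const, Finset.card_univ, ZMod.card, nsmul_eq_mul]
      rw [Fintype.sum_prod_type]
      refine (Finset.sum_congr rfl fun x _ => h4 x).trans ?_
      rw [← Finset.mul_sum, h3, mul_one]
    have hF : ∑ r, ind (r.1 + ρ r Y = Z) = γ + ∑ r, F r := by
      rw [← hbase, ← Finset.sum_add_distrib]
      apply Finset.sum_congr rfl
      intro r _
      simp only [F]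
      ring
    have hFs : ∑ r, F r = F (1, 1) + ∑ j, F (row j) := by
      have h3 : ∑ r, F r = ∑ r ∈ insert (1, 1) (univ.image row), F r := by
        symm
        apply Finset.sum_subset (Finset.subset_univ _)
        intro r _ hr
        rw [Finset.mem_insert, not_or] at hr
        have h4 : ρ r = 1 := hρo r hr.1 (fun j h =>
          hr.2 (Finset.mem_image.mpr ⟨j, mem_univ _, h⟩))
        simp only [F, h4, Equiv.Perm.one_apply, sub_self]
      rw [h3, Finset.sum_insert, Finset.sum_image (fun i _ j _ h => hrinj h)]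
      intro h4
      obtain ⟨j, -, hj⟩ := Finset.mem_image.mp h4
      exact hrκ j hj
    have hFκ : F (1, 1) = ind (Y = 0) * (ind (Z = 0) - ind (Z = 1)) +
        ind (Y = 1) * (ind (Z = 1) - ind (Z = 2)) +
        ind (Y = -1) * (ind (Z = 2) - ind (Z = 0)) := by
      rw [← kappa_effect h1 h2 Y Z]
      simp only [F, hρκ]
    have hFj : ∑ j, F (row j) = ∑ j, (ind (Y = a j) - ind (Y = b j)) *
        (ind (Z = X j + b j) - ind (Z = X j + a j)) := by
      apply Finset.sum_congr rfl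
      intro j _
      rw [← swap_effect (hab j) Y Z]
      simp only [F, hρj]
      rfl
    rw [hcnt, hF, hFs, hFκ, hFj, hsum, ind_congr (p := Y = Z) (q := Z = Y) eq_comm]
    by_cases g0 : Y = 0
    · subst g0
      rw [ind_true (rfl : (0 : ZMod β) = 0), ind_false h1.symm,
        ind_false (neg_ne_zero.mpr h1).symm]
      ring_nf
    by_cases g1 : Y = 1
    · subst g1
      rw [ind_true (rfl : (1 : ZMod β) = 1), ind_false h1, ind_false h2,
        ind_congr (p := Z = 1 - 1) (q := Z = 0) (by rw [sub_self])]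
      ring
    by_cases g2 : Y = -1
    · subst g2
      rw [ind_true (rfl : (-1 : ZMod β) = -1), ind_false g0, ind_false g1,
        ind_congr (p := Z = 1 - -1) (q := Z = 2) (by rw [sub_neg_eq_add, one_add_one_eq_two])]
      ring
    rw [ind_false g0, ind_false g1, ind_false g2]
    ring
  · intro r hr
    rcases hcases r with h | ⟨j, h⟩ | h
    · exact absurd h hr
    · rw [← h, hρj, Equiv.swap_apply_of_ne_of_ne (ha j).symm (hb j).symm]
    · rw [h]
      rfl
  · intro r Y hr h3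
    rcases hcases r with h | ⟨j, h⟩ | h
    · exact absurd h hr
    · rw [← h, hρj] at h3 ⊢
      have h4 : X j + Equiv.swap (a j) (b j) Y = 1 := h3
      by_cases g1 : Y = a j
      · rw [g1, Equiv.swap_apply_left] at h4
        exact absurd h4 (hXb j)
      by_cases g2 : Y = b j
      · rw [g2, Equiv.swap_apply_right] at h4
        exact absurd h4 (hXa j)
      exact Equiv.swap_apply_of_ne_of_ne g1 g2
    · rw [h]
      rfl
  · rw [hρκ]
    exact rhoKappa_zero
  · rw [hρκ]
    exact rhoKappa_one h1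
  · refine (Finset.card_le_card (t := insert (1, 1) (univ.image row)) ?_).trans
      ((Finset.card_insert_le _ _).trans (Nat.add_le_add_right (Finset.card_image_le) 1))
    intro r hr
    rcases hcases r with h | ⟨j, h⟩ | h
    · exact Finset.mem_insert.mpr (Or.inl h)
    · exact Finset.mem_insert.mpr (Or.inr (Finset.mem_image.mpr ⟨j, mem_univ _, h⟩))
    · exact absurd h (mem_filter.mp hr).2
  · intro r
    rcases hcases r with h | ⟨j, h⟩ | h
    · refine (Finset.card_le_card (t := {0, 1, -1}) ?_).trans Finset.card_le_three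
      intro Y hY
      have h3 := (mem_filter.mp hY).2
      rw [h, hρκ] at h3
      simp only [Finset.mem_insert, Finset.mem_singleton]
      by_contra h4
      push Not at h4
      exact h3 (rhoKappa_other h4.1 h4.2.1 h4.2.2)
    · refine (Finset.card_le_card (t := {a j, b j}) ?_).trans
        (Finset.card_le_two.trans (by norm_num))
      intro Y hY
      have h3 := (mem_filter.mp hY).2
      rw [← h, hρj] at h3
      simp only [Finset.mem_insert, Finset.mem_singleton]
      by_contra h4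
      push Not at h4
      exact h3 (Equiv.swap_apply_of_ne_of_ne h4.1 h4.2)
    · have h3 : (univ.filter fun Y => ρ r Y ≠ Y) = ∅ := by
        rw [h]
        ext Y
        simp
      rw [h3]
      norm_num

end rows

section concrete

/-- the special rows of the first type -/
def jobsA (h : ℕ) : Finset (ℕ × ℕ) := Ico 1 (h + 1) ×ˢ range (h - 1)

/-- the special rows of the second type -/
def jobsB (h : ℕ) : Finset (ℕ × ℕ × ℕ) :=
  (Ico 2 (h + 1) ×ˢ (Ico 1 (2 * h - 1) ×ˢ Ico 2 (2 * h))).filter fun x =>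
    ¬ (x.1 ≤ x.2.1 ∧ x.2.1 < 2 * h + 1 - x.1 ∧ x.1 ≤ x.2.2 ∧ x.2.2 < 2 * h + 1 - x.1)

lemma tele (f : ℕ → ℤ) {a b : ℕ} (hab : a ≤ b) :
    ∑ n ∈ Ico a b, (f n - f (n + 1)) = f a - f b := by
  induction b, hab using Nat.le_induction with
  | base => simp
  | succ b hb ih =>
    rw [Finset.sum_Ico_succ_top hb, ih]
    ring

lemma sum_rect (u v : ℕ → ℤ) (S T : Finset ℕ) :
    ∑ x ∈ S ×ˢ T, u x.1 * v x.2 = (∑ y ∈ S, u y) * ∑ z ∈ T, v z := by
  rw [Finset.sum_product, Finset.sum_mul_sum]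

lemma sum_jobsB (f k : ℕ → ℤ) {h : ℕ} (hh : 2 ≤ h) :
    ∑ x ∈ jobsB h, (f x.2.1 - f (x.2.1 + 1)) * (k (x.2.2 + 1) - k x.2.2) =
      (h - 1) * ((f 1 - f (2 * h - 1)) * (k (2 * h) - k 2)) +
      ∑ C ∈ Ico 2 (h + 1), (f C - f (2 * h + 1 - C)) * (k C - k (2 * h + 1 - C)) := by
  unfold jobsB
  rw [Finset.sum_filter, Finset.sum_product]
  have key : ∀ C ∈ Ico 2 (h + 1), (∑ x ∈ Ico 1 (2 * h - 1) ×ˢ Ico 2 (2 * h),
      if ¬ ((C, x).1 ≤ (C, x).2.1 ∧ (C, x).2.1 < 2 * h + 1 - (C, x).1 ∧ (C, x).1 ≤ (C, x).2.2 ∧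
        (C, x).2.2 < 2 * h + 1 - (C, x).1)
      then (f (C, x).2.1 - f ((C, x).2.1 + 1)) * (k ((C, x).2.2 + 1) - k (C, x).2.2) else 0) =
      (f 1 - f (2 * h - 1)) * (k (2 * h) - k 2) +
      (f C - f (2 * h + 1 - C)) * (k C - k (2 * h + 1 - C)) := by
    intro C hC
    rw [Finset.mem_Ico] at hC
    rw [← Finset.sum_filter]
    have e1 : ∑ x ∈ (Ico 1 (2 * h - 1) ×ˢ Ico 2 (2 * h)).filter (fun x =>
        ¬ (C ≤ x.1 ∧ x.1 < 2 * h + 1 - C ∧ C ≤ x.2 ∧ x.2 < 2 * h + 1 - C)),
        (f x.1 - f (x.1 + 1)) * (k (x.2 + 1) - k x.2) =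
        ∑ x ∈ Ico 1 (2 * h - 1) ×ˢ Ico 2 (2 * h), (f x.1 - f (x.1 + 1)) * (k (x.2 + 1) - k x.2) -
        ∑ x ∈ Ico C (2 * h + 1 - C) ×ˢ Ico C (2 * h + 1 - C),
          (f x.1 - f (x.1 + 1)) * (k (x.2 + 1) - k x.2) := by
      rw [eq_sub_iff_add_eq, add_comm, ← Finset.sum_filter_add_sum_filter_not
        (Ico 1 (2 * h - 1) ×ˢ Ico 2 (2 * h)) (fun x => C ≤ x.1 ∧ x.1 < 2 * h + 1 - C ∧ C ≤ x.2 ∧
          x.2 < 2 * h + 1 - C)]
      congr 1
      apply Finset.sum_congr _ (fun _ _ => rfl)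
      ext ⟨y, z⟩
      simp only [Finset.mem_product, Finset.mem_Ico, Finset.mem_filter]
      omega
    refine e1.trans ?_
    have e2 : ∀ a b : ℕ, a ≤ b → ∑ z ∈ Ico a b, (k (z + 1) - k z) = k b - k a := by
      intro a b hab
      have := tele k hab
      have h3 : ∑ z ∈ Ico a b, (k (z + 1) - k z) = - ∑ z ∈ Ico a b, (k z - k (z + 1)) := by
        rw [← Finset.sum_neg_distrib]
        apply Finset.sum_congr rfl
        intro z _
        ring
      rw [h3, this]
      ring
    rw [sum_rect (fun y => f y - f (y + 1)) (fun z => k (z + 1) - k z),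
      sum_rect (fun y => f y - f (y + 1)) (fun z => k (z + 1) - k z), tele f (by omega),
      tele f (by omega), e2 _ _ (by omega), e2 _ _ (by omega)]
    ring
  refine (Finset.sum_congr rfl key).trans ?_
  rw [Finset.sum_add_distrib, Finset.sum_const, Nat.card_Ico, nsmul_eq_mul]
  have : ((h + 1 - 2 : ℕ) : ℤ) = h - 1 := by omega
  rw [this]

lemma sum_jobsA (f : ℕ → ℤ) (c : ℤ) {h : ℕ} (hh : 2 ≤ h) :
    ∑ x ∈ jobsA h, (f (2 * x.2 + 1) - f (2 * x.2 + 3)) * c =
      h * ((f 1 - f (2 * h - 1)) * c) := by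
  unfold jobsA
  rw [Finset.sum_product]
  have e1 : ∀ n : ℕ, ∑ i ∈ range n, (f (2 * i + 1) - f (2 * i + 3)) = f 1 - f (2 * n + 1) := by
    intro n
    induction n with
    | zero => simp
    | succ n ih =>
      rw [Finset.sum_range_succ, ih]
      have : 2 * (n + 1) + 1 = 2 * n + 3 := by ring
      rw [this]
      ring
  simp only [← Finset.sum_mul, e1, Finset.sum_const, Nat.card_Ico, nsmul_eq_mul]
  have e2 : 2 * (h - 1) + 1 = 2 * h - 1 := by omega
  have e3 : ((h + 1 - 1 : ℕ) : ℤ) = h := by omega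
  rw [e2, e3]
  ring

lemma castEq {β : ℕ} [NeZero β] (Y : ZMod β) {n : ℕ} (hn : n < β) :
    Y = (n : ZMod β) ↔ Y.val = n := by
  constructor
  · intro h
    rw [h, ZMod.val_cast_of_lt hn]
  · intro h
    rw [← h, ZMod.natCast_zmod_val]

lemma sum_pairs {h : ℕ} [NeZero (2 * h)] (hh : 2 ≤ h) (Y Z : ZMod (2 * h)) :
    ∑ C ∈ Ico 2 (h + 1), (ind (Y = (C : ZMod (2 * h))) - ind (Y = ((2 * h + 1 - C : ℕ) :
      ZMod (2 * h)))) * (ind (Z = (C : ZMod (2 * h))) - ind (Z = ((2 * h + 1 - C : ℕ) :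
      ZMod (2 * h)))) =
    (1 - ind (Y = 0) - ind (Y = 1)) * (ind (Z = Y) - ind (Z = 1 - Y)) := by
  have hv := ZMod.val_lt Y
  have hYv : Y = (Y.val : ZMod (2 * h)) := (ZMod.natCast_zmod_val Y).symm
  have h0 : Y = 0 ↔ Y.val = 0 := by
    have := castEq Y (n := 0) (by omega)
    rwa [Nat.cast_zero] at this
  have h1 : Y = 1 ↔ Y.val = 1 := by
    have := castEq Y (n := 1) (by omega)
    rwa [Nat.cast_one] at this
  have hcast : ∀ C : ℕ, C ≤ 2 * h + 1 → ((2 * h + 1 - C : ℕ) : ZMod (2 * h)) = 1 - C := by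
    intro C hC
    rw [Nat.cast_sub hC, Nat.cast_add, Nat.cast_one, ZMod.natCast_self, zero_add]
  by_cases g0 : Y.val = 0 ∨ Y.val = 1
  · have e1 : 1 - ind (Y = 0) - ind (Y = 1) = 0 := by
      rcases g0 with g | g
      · rw [ind_true (h0.mpr g), ind_false (fun h' => by rw [h1.mp h'] at g; omega)]
        ring
      · rw [ind_true (h1.mpr g), ind_false (fun h' => by rw [h0.mp h'] at g; omega)]
        ring
    rw [e1, zero_mul]
    apply Finset.sum_eq_zero
    intro C hC
    rw [Finset.mem_Ico] at hC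
    rw [ind_false (fun h' => by rw [castEq Y (by omega)] at h'; omega),
      ind_false (fun h' => by rw [castEq Y (by omega)] at h'; omega)]
    ring
  · rw [not_or] at g0
    rw [ind_false (fun h' => g0.1 (h0.mp h')), ind_false (fun h' => g0.2 (h1.mp h'))]
    by_cases g1 : Y.val ≤ h
    · rw [Finset.sum_eq_single Y.val]
      · rw [hcast _ (by omega), ← hYv, ind_true (rfl : Y = Y), ind_false (p := Y = 1 - Y)]
        · ring
        · intro h'
          have h2 : Y = ((2 * h + 1 - Y.val : ℕ) : ZMod (2 * h)) := by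
            rw [hcast _ (by omega), ← hYv]
            exact h'
          rw [castEq Y (by omega)] at h2
          omega
      · intro C hC hne
        rw [Finset.mem_Ico] at hC
        rw [ind_false (fun h' => by rw [castEq Y (by omega)] at h'; omega),
          ind_false (fun h' => by rw [castEq Y (by omega)] at h'; omega)]
        ring
      · intro h'
        exact absurd (Finset.mem_Ico.mpr ⟨by omega, by omega⟩) h'
    · rw [Finset.sum_eq_single (2 * h + 1 - Y.val)]
      · have e1 : 2 * h + 1 - (2 * h + 1 - Y.val) = Y.val := by omega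
        rw [e1, hcast _ (by omega), ← hYv, ind_true (rfl : Y = Y), ind_false (p := Y = 1 - Y)]
        · ring
        · intro h'
          have h2 : Y = ((2 * h + 1 - Y.val : ℕ) : ZMod (2 * h)) := by
            rw [hcast _ (by omega), ← hYv]
            exact h'
          rw [castEq Y (by omega)] at h2
          omega
      · intro C hC hne
        rw [Finset.mem_Ico] at hC
        rw [ind_false (fun h' => by rw [castEq Y (by omega)] at h'; omega),
          ind_false (fun h' => by rw [castEq Y (by omega)] at h'; omega)]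
        ring
      · intro h'
        exact absurd (Finset.mem_Ico.mpr ⟨by omega, by omega⟩) h'

lemma card_jobs (h : ℕ) : Fintype.card ((jobsA h) ⊕ (jobsB h)) ≤ h * h + h * (2 * h * (2 * h)) := by
  rw [Fintype.card_sum, Fintype.card_coe, Fintype.card_coe]
  apply Nat.add_le_add
  · unfold jobsA
    rw [Finset.card_product, Nat.card_Ico, Finset.card_range]
    exact Nat.mul_le_mul (by omega) (by omega)
  · unfold jobsB
    refine (Finset.card_filter_le _ _).trans ?_
    rw [Finset.card_product, Finset.card_product, Nat.card_Ico, Nat.card_Ico, Nat.card_Ico]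
    exact Nat.mul_le_mul (by omega) (Nat.mul_le_mul (by omega) (by omega))

/-- the class permutations exist -/
theorem exists_rowPerms_concrete {h γ : ℕ} [NeZero (2 * h)] [NeZero γ] (hh : 2 ≤ h)
    (hγ1 : (1 : ZMod γ) ≠ 0) (hγ : h * h + h * (2 * h * (2 * h)) + 2 ≤ γ) :
    ∃ ρ : ZMod (2 * h) × ZMod γ → Equiv.Perm (ZMod (2 * h)), RowPerms ρ ∧
      (univ.filter fun r => ρ r ≠ 1).card ≤ γ ∧
      ∀ r, (univ.filter fun Y => ρ r Y ≠ Y).card ≤ 3 := by
  classical
  have hne : ∀ {a b : ℕ}, a < 2 * h → b < 2 * h → a ≠ b →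
      (a : ZMod (2 * h)) ≠ (b : ZMod (2 * h)) := by
    intro a b ha hb hab h'
    rw [castEq _ hb, ZMod.val_cast_of_lt ha] at h'
    exact hab h'
  have h01 : (1 : ZMod (2 * h)) ≠ 0 := by
    have := hne (a := 1) (b := 0) (by omega) (by omega) (by omega)
    rwa [Nat.cast_one, Nat.cast_zero] at this
  have hm1 : ((2 * h - 1 : ℕ) : ZMod (2 * h)) = -1 := by
    rw [Nat.cast_sub (by omega), ZMod.natCast_self, Nat.cast_one, zero_sub]
  have h1m : (1 : ZMod (2 * h)) ≠ -1 := by
    have := hne (a := 1) (b := 2 * h - 1) (by omega) (by omega) (by omega)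
    rwa [Nat.cast_one, hm1] at this
  let X : (jobsA h) ⊕ (jobsB h) → ZMod (2 * h) := fun j => match j with
    | .inl x => -((2 * x.1.2 + 1 : ℕ) : ZMod (2 * h))
    | .inr x => ((x.1.2.2 : ℕ) : ZMod (2 * h)) - (x.1.2.1 : ℕ)
  let a : (jobsA h) ⊕ (jobsB h) → ZMod (2 * h) := fun j => match j with
    | .inl x => ((2 * x.1.2 + 1 : ℕ) : ZMod (2 * h))
    | .inr x => ((x.1.2.1 : ℕ) : ZMod (2 * h))
  let b : (jobsA h) ⊕ (jobsB h) → ZMod (2 * h) := fun j => match j with
    | .inl x => ((2 * x.1.2 + 3 : ℕ) : ZMod (2 * h))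
    | .inr x => ((x.1.2.1 + 1 : ℕ) : ZMod (2 * h))
  have hA : ∀ x : jobsA h, 2 * x.1.2 + 3 < 2 * h := by
    intro x
    have h1 := x.2
    unfold jobsA at h1
    rw [Finset.mem_product, Finset.mem_Ico, Finset.mem_range] at h1
    omega
  have hB : ∀ x : jobsB h, 1 ≤ x.1.2.1 ∧ x.1.2.1 < 2 * h - 1 ∧ 2 ≤ x.1.2.2 ∧ x.1.2.2 < 2 * h := by
    intro x
    have h1 := x.2
    unfold jobsB at h1
    rw [Finset.mem_filter, Finset.mem_product, Finset.mem_product, Finset.mem_Ico,
      Finset.mem_Ico, Finset.mem_Ico] at h1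
    omega
  have hXaA : ∀ x : jobsA h, X (.inl x) + a (.inl x) = 0 := fun x => neg_add_cancel _
  have hXbA : ∀ x : jobsA h, X (.inl x) + b (.inl x) = 2 := by
    intro x
    show -((2 * x.1.2 + 1 : ℕ) : ZMod (2 * h)) + ((2 * x.1.2 + 3 : ℕ) : ZMod (2 * h)) = 2
    push_cast
    ring
  have hXaB : ∀ x : jobsB h, X (.inr x) + a (.inr x) = ((x.1.2.2 : ℕ) : ZMod (2 * h)) :=
    fun x => sub_add_cancel _ _
  have hXbB : ∀ x : jobsB h, X (.inr x) + b (.inr x) = ((x.1.2.2 + 1 : ℕ) : ZMod (2 * h)) := by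
    intro x
    show ((x.1.2.2 : ℕ) : ZMod (2 * h)) - (x.1.2.1 : ℕ) + ((x.1.2.1 + 1 : ℕ) : ZMod (2 * h)) =
      ((x.1.2.2 + 1 : ℕ) : ZMod (2 * h))
    push_cast
    ring
  have hmain := exists_rowPerms (β := 2 * h) (γ := γ) X a b h01 h1m hγ1 ?_ ?_ ?_ ?_ ?_
    ((Nat.add_le_add_right (card_jobs h) 2).trans hγ) ?_
  · obtain ⟨ρ, h1, h2, h3⟩ := hmain
    refine ⟨ρ, h1, h2.trans ?_, h3⟩
    have := card_jobs h
    omega
  · rintro (x | x)
    · exact hne (by have := hA x; omega) (by have := hA x; omega) (by omega)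
    · exact hne (by have := hB x; omega) (by have := hB x; omega) (by omega)
  · rintro (x | x)
    · have := hne (a := 2 * x.1.2 + 1) (b := 0) (by have := hA x; omega) (by omega) (by omega)
      rwa [Nat.cast_zero] at this
    · have := hne (a := x.1.2.1) (b := 0) (by have := hB x; omega) (by omega)
        (by have := hB x; omega)
      rwa [Nat.cast_zero] at this
  · rintro (x | x)
    · have := hne (a := 2 * x.1.2 + 3) (b := 0) (by have := hA x; omega) (by omega) (by omega)
      rwa [Nat.cast_zero] at this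
    · have := hne (a := x.1.2.1 + 1) (b := 0) (by have := hB x; omega) (by omega) (by omega)
      rwa [Nat.cast_zero] at this
  · rintro (x | x)
    · rw [hXaA]
      exact h01.symm
    · rw [hXaB]
      have := hne (a := x.1.2.2) (b := 1) (by have := hB x; omega) (by omega)
        (by have := hB x; omega)
      rwa [Nat.cast_one] at this
  · rintro (x | x)
    · rw [hXbA]
      have := hne (a := 2) (b := 1) (by omega) (by omega) (by omega)
      rwa [Nat.cast_one] at this
    · rw [hXbB]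
      by_cases g : x.1.2.2 + 1 = 2 * h
      · rw [g, ZMod.natCast_self]
        exact h01.symm
      · have := hne (a := x.1.2.2 + 1) (b := 1) (by have := hB x; omega) (by omega)
          (by have := hB x; omega)
        rwa [Nat.cast_one] at this
  · -- the sum
    intro Y Z
    rw [Fintype.sum_sum_type]
    let f : ℕ → ℤ := fun n => ind (Y = (n : ZMod (2 * h)))
    let k : ℕ → ℤ := fun n => ind (Z = (n : ZMod (2 * h)))
    have e1 : ∑ x : jobsA h, (ind (Y = a (.inl x)) - ind (Y = b (.inl x))) *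
        (ind (Z = X (.inl x) + b (.inl x)) - ind (Z = X (.inl x) + a (.inl x))) =
        h * ((f 1 - f (2 * h - 1)) * (ind (Z = 2) - ind (Z = 0))) := by
      rw [← sum_jobsA f _ hh, ← Finset.sum_coe_sort (jobsA h)
        (fun x => (f (2 * x.2 + 1) - f (2 * x.2 + 3)) * (ind (Z = 2) - ind (Z = 0)))]
      apply Finset.sum_congr rfl
      intro x _
      rw [hXaA, hXbA]
    have e2 : ∑ x : jobsB h, (ind (Y = a (.inr x)) - ind (Y = b (.inr x))) *
        (ind (Z = X (.inr x) + b (.inr x)) - ind (Z = X (.inr x) + a (.inr x))) =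
        (h - 1) * ((f 1 - f (2 * h - 1)) * (k (2 * h) - k 2)) +
        ∑ C ∈ Ico 2 (h + 1), (f C - f (2 * h + 1 - C)) * (k C - k (2 * h + 1 - C)) := by
      rw [← sum_jobsB f k hh, ← Finset.sum_coe_sort (jobsB h)
        (fun x => (f x.2.1 - f (x.2.1 + 1)) * (k (x.2.2 + 1) - k x.2.2))]
      apply Finset.sum_congr rfl
      intro x _
      rw [hXaB, hXbB]
    rw [e1, e2]
    have e3 : ∑ C ∈ Ico 2 (h + 1), (f C - f (2 * h + 1 - C)) * (k C - k (2 * h + 1 - C)) =
        (1 - ind (Y = 0) - ind (Y = 1)) * (ind (Z = Y) - ind (Z = 1 - Y)) := sum_pairs hh Y Z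
    have e4 : f 1 = ind (Y = 1) := by
      simp only [f]
      exact ind_congr (by rw [Nat.cast_one])
    have e5 : f (2 * h - 1) = ind (Y = -1) := by
      simp only [f]
      exact ind_congr (by rw [hm1])
    have e6 : k (2 * h) = ind (Z = 0) := by
      simp only [k]
      exact ind_congr (by rw [ZMod.natCast_self])
    have e7 : k 2 = ind (Z = 2) := by
      simp only [k]
      exact ind_congr (by rw [Nat.cast_ofNat])
    rw [e3, e4, e5, e6, e7]
    ring

end concrete

end Pool.Agent.Lib.MP_185394_co.Near
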