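import Pool.Agent.Lib.MP_185394_co.Near.Count

/-!
The large indivisible plex in the blown up square.
-/

namespace Pool.Agent.Lib.MP_185394_co.Near

open Finset

set_option linter.unusedSectionVars false

lemma sum_sgn (f : Fin 10 → ℤ) : ∑ i, sgn i * f i =
    f 0 + f 1 + f 2 + f 3 + f 4 + f 5 - f 6 - f 7 - f 8 - f 9 := by
  have e : ∀ i : Fin 10, sgn i = ![1, 1, 1, 1, 1, 1, -1, -1, -1, -1] i := by
    decide
  simp only [e]
  simp [Fin.sum_univ_succ]
  ring

section tensums

variable {V : Type} [AddCommGroup V] [DecidableEq V]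

lemma ten_row (c p x y r : V) : ∑ i, sgn i * ind ((ten c p x y i).1 = r) =
    ind (c = r) + ind (c + c + c = r) := by
  rw [sum_sgn]
  show ind (c = r) + ind (c + c + c = r) + ind (x = r) + ind (c + c + c + c - x = r) +
    ind (y = r) + ind (y - x + (c + c) = r) - ind (x = r) - ind (c + c + c + c - x = r) -
    ind (y = r) - ind (y - x + (c + c) = r) = _
  ring

lemma ten_col (c p x y r : V) : ∑ i, sgn i * ind ((ten c p x y i).2 = r) =
    ind (c = r) + ind (-(c + c) = r) := by
  rw [sum_sgn]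
  show ind (p = r) + ind (x + p - (c + c + c) = r) + ind (c = r) + ind (-(c + c) = r) +
    ind (-y = r) + ind (c + c + c - (y - x + (c + c)) = r) - ind (p = r) -
    ind (x + p - (c + c + c) = r) - ind (c + c + c - (y - x + (c + c)) = r) - ind (-y = r) = _
  ring

lemma ten_sym (c p x y r : V) :
    ∑ i, sgn i * ind ((ten c p x y i).1 + (ten c p x y i).2 = r) =
    ind (0 = r) + ind (c + c + c = r) := by
  rw [sum_sgn]
  have e1 : c + c + c + (x + p - (c + c + c)) = x + p := by abel
  have e2 : c + c + c + c - x + (x + p - (c + c + c)) = c + p := by abel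
  have e3 : y + (c + c + c - (y - x + (c + c))) = x + c := by abel
  have e4 : y - x + (c + c) + -y = c + c + c + c - x + -(c + c) := by abel
  have e5 : y + -y = 0 := by abel
  have e6 : y - x + (c + c) + (c + c + c - (y - x + (c + c))) = c + c + c := by abel
  show ind (c + p = r) + ind (c + c + c + (x + p - (c + c + c)) = r) + ind (x + c = r) +
    ind (c + c + c + c - x + -(c + c) = r) + ind (y + -y = r) +
    ind (y - x + (c + c) + (c + c + c - (y - x + (c + c))) = r) - ind (x + p = r) -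
    ind (c + c + c + c - x + (x + p - (c + c + c)) = r) -
    ind (y + (c + c + c - (y - x + (c + c))) = r) - ind (y - x + (c + c) + -y = r) = _
  rw [e1, e2, e3, e4, e5, e6]
  ring

end tensums

variable {G : Type} [AddCommGroup G] [Fintype G] [DecidableEq G]

section

variable {g : ℕ} [NeZero g] {κ : G} {M : G → G → G} {a : G → ZMod g ≃ ZMod g}
  {op : ZMod g → ZMod g → ZMod g}

lemma Base.natL (hB : Base κ M a op) {r s : G × ZMod g} (h1 : ¬ Touched κ M r.1 s.1)
    (h2 : r + s ≠ (κ, 1)) : liftSq κ M a op r s = r + s := by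
  unfold liftSq liftCell
  rw [if_neg, if_neg h1]
  · simp only [Equiv.apply_symm_apply]
    rfl
  · rintro ⟨h3, h4 | h4⟩
    · apply h2
      have h5 := (hB.hole_iff h4 _ _).mpr h3
      rw [Equiv.apply_symm_apply, Equiv.apply_symm_apply] at h5
      exact Prod.ext h4 h5
    · exact h1 h4

lemma diagL {X0 Y0 : G} (hT : Touched κ M X0 Y0) (hX0 : X0 ≠ κ)
    (haX : ∀ u, a X0 u = u) (haY : ∀ u, a Y0 u = u) (u : ZMod g) :
    liftSq κ M a op (X0, u) (Y0, u) = (M X0 Y0, a (M X0 Y0) u) := by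
  have e1 : (a X0).symm u = u := by rw [Equiv.symm_apply_eq, haX]
  have e2 : (a Y0).symm u = u := by rw [Equiv.symm_apply_eq, haY]
  unfold liftSq liftCell
  simp only [e1, e2]
  rw [if_pos ⟨trivial, Or.inr hT⟩, lineCls_M κ M hT.1 hT.2.1 (fun h => hX0 h.1.1)]

lemma Base.holeL (hB : Base κ M a op) {r s : G × ZMod g} (h : r + s = (κ, 1)) (hr0 : r.1 ≠ 0)
    (hs0 : s.1 ≠ 0) (hrκ : r.1 ≠ κ) (hM : M r.1 s.1 = r.1) :
    liftSq κ M a op r s = r := by
  have h1 : r.1 + s.1 = κ := (Prod.ext_iff.mp h).1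
  have h2 : r.2 + s.2 = 1 := (Prod.ext_iff.mp h).2
  have h3 : (a r.1).symm r.2 = (a s.1).symm s.2 := by
    rw [← hB.hole_iff h1, Equiv.apply_symm_apply, Equiv.apply_symm_apply]
    exact h2
  unfold liftSq liftCell
  rw [if_pos ⟨h3, Or.inl h1⟩, lineCls_M κ M hr0 hs0 (fun h => hrκ h.1.1), hM,
    Equiv.apply_symm_apply]

end

lemma card_image_filter {E F : Type} [Fintype E] [DecidableEq F] {d : E → F}
    (hd : Function.Injective d) (p : F → Prop) [DecidablePred p] :
    (((univ.image d).filter p).card : ℤ) = ∑ u, ind (p (d u)) := by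
  rw [Finset.filter_image, Finset.card_image_of_injective _ hd, card_filter_ind]

/-- the order of the defect -/
lemma addOrderOf_defect {g : ℕ} [NeZero g] {κ : G} (hκ : addOrderOf κ = Fintype.card G)
    (h4 : 4 ∣ Fintype.card G) (hg : Odd g) (hco : Nat.Coprime (Fintype.card G) g) :
    addOrderOf ((κ, 1) + ∑ a : G × ZMod g, a : G × ZMod g) = Fintype.card (G × ZMod g) := by
  obtain ⟨d, hd⟩ := hg
  obtain ⟨e, he⟩ := h4
  have h1 : (∑ a : G × ZMod g, a) = (∑ X : G, X, 0) := by
    rw [Fintype.sum_prod_type]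
    refine Prod.ext ?_ ?_
    · rw [Prod.fst_sum]
      simp only [Prod.fst_sum, Finset.sum_const, Finset.card_univ, ZMod.card]
      rw [← Finset.smul_sum, hd, add_smul, one_smul, mul_comm, mul_smul, two_smul, sum_add_self,
        smul_zero, zero_add]
    · rw [Prod.snd_sum]
      simp only [Prod.snd_sum, Finset.sum_const, Finset.card_univ]
      have h3 : 4 * e = (2 * e) * 2 := by ring
      rw [he, h3, mul_smul, two_smul, sum_add_self, smul_zero]
  rw [h1, Prod.mk_add_mk, add_zero, Prod.addOrderOf_mk]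
  rw [addOrderOf_add_self hκ ⟨e, he⟩ sum_add_self, ZMod.addOrderOf_one, Nat.Coprime.lcm_eq_mul hco,
    Fintype.card_prod, ZMod.card]

theorem level2 {κ : G} {M : G → G → G} (hM : Punctured κ M) (hkk : M κ κ = 0) {t : ℕ}
    (hD : Dense κ (Good κ M) t) (hκ : addOrderOf κ = Fintype.card G) (h4 : 4 ∣ Fintype.card G)
    (h3κ : M (κ + κ + κ) (-(κ + κ)) = κ + κ + κ) (τ : ℕ) (hτ : Even τ)
    (ht : 40 * t + 20 ≤ Fintype.card G) (htτ : 8 * (t + 2) ≤ τ)
    (hτG : 2 * (τ + 2 * t + 4) + 1 ≤ Fintype.card G) (X0 Y0 : G)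
    (hX0 : X0 ≠ 0) (hY0 : Y0 ≠ 0) (hX0κ : X0 ≠ κ) (hY0κ : Y0 ≠ κ) (hXY : X0 + Y0 ≠ κ)
    (hMXY : M X0 Y0 = X0 + Y0 + τ • κ) (hτκ : τ • κ ≠ 0)
    (hZ : ∀ W ∈ ({0, X0, Y0} : Finset G), M X0 Y0 ≠ W ∧ M X0 Y0 ≠ κ - W) :
    ∃ (D : ℕ) (m0 : ℕ), 0 < D ∧ ∀ m, m0 ≤ m → Odd (1 + D * m) →
      Nat.Coprime (Fintype.card G) (1 + D * m) → 1 < 1 + D * m →
      (Fintype.card G - τ) * (1 + D * m) - 2 ≤ kappa (Fintype.card G * (1 + D * m) - 1) := by
  classical
  set b := Fintype.card G with hb
  have hκ0 : κ ≠ 0 := by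
    rintro rfl
    rw [addOrderOf_zero] at hκ
    omega
  have hsm : ∀ j : ℕ, 0 < j → j < b → j • κ ≠ 0 := by
    intro j hj hjb h
    have := Nat.le_of_dvd hj (addOrderOf_dvd_of_nsmul_eq_zero h)
    omega
  have hk2 : κ + κ ≠ 0 := by
    rw [← two_smul ℕ]
    exact hsm 2 (by norm_num) (by omega)
  have hk3 : κ + κ + κ ≠ 0 := by
    have e : κ + κ + κ = (3 : ℕ) • κ := by rw [succ_nsmul, two_smul]
    rw [e]
    exact hsm 3 (by norm_num) (by omega)
  have hk3κ : κ + κ + κ ≠ κ := by
    intro h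
    apply hk2
    have : κ + κ + κ = κ + (κ + κ) := by abel
    rw [this] at h
    exact add_eq_left.mp h
  have h2X := two_smul_ne hκ ((by norm_num : 2 ∣ 4).trans h4)
  set Z0 := M X0 Y0 with hZ0
  have hZ0κ : Z0 ≠ κ := by
    have := (hZ 0 (by simp)).2
    rwa [sub_zero] at this
  have hT0 : Touched κ M X0 Y0 := by
    refine ⟨hX0, hY0, hXY, ?_⟩
    rw [← hZ0, hMXY]
    intro h
    exact hτκ (add_eq_left.mp h)
  obtain ⟨A, hA1, hA2⟩ := Finset.exists_subset_card_eq (s := ((univ : Finset G).erase 0).erase κ)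
    (n := τ) (by
      rw [Finset.card_erase_of_mem (Finset.mem_erase.mpr ⟨hκ0, mem_univ _⟩),
        Finset.card_erase_of_mem (mem_univ _), Finset.card_univ]
      omega)
  have hAκ : κ ∉ A := fun h => (Finset.mem_erase.mp (hA1 h)).1 rfl
  have hA0 : (0 : G) ∉ A := fun h => (Finset.mem_erase.mp (Finset.mem_erase.mp (hA1 h)).2).1 rfl
  obtain ⟨D, m0, hD0, hw⟩ := exists_weights hM hD τ hτ (by omega) (by omega) htτ hτG A hA2 hA0 hAκ
    X0 Y0 Z0 hX0 hY0 hZ0κ hMXY
  refine ⟨D, m0, hD0, ?_⟩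
  intro m hm hodd hco hg1
  obtain ⟨q, hq⟩ := hw m hm
  obtain ⟨g, hgdef⟩ : ∃ g, g = 1 + D * m := ⟨_, rfl⟩
  rw [← hgdef] at hodd hco hg1 hq ⊢
  have : NeZero g := ⟨by omega⟩
  have : Fact (1 < g) := ⟨hg1⟩
  -- the gauge and the square
  obtain ⟨a, ha0, haX, haY, haZ, hak⟩ := exists_gauge h2X hκ0 hX0κ hY0κ hXY hZ hodd (τ : ZMod g)
  have hB : Base κ M a (fun u v => u + u - v) :=
    { punct := hM
      kk := hkk
      k0 := hκ0
      k2 := hk2
      a0 := ha0
      ak := hak
      one_ne := one_ne_zero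
      idem := fun u => by abel
      op_left := fun u v v' h => sub_right_inj.mp h
      op_right := fun v u u' h => two_mul_inj hodd (sub_left_inj.mp h) }
  have hL := hB.punctured_lift
  set L := liftSq κ M a (fun u v => u + u - v) with hLdef
  -- the ten cells
  obtain ⟨p, x, y, hgood, hinj⟩ := exists_ten hD hκ0 hk2 hk3 (by omega)
  obtain ⟨c, hc⟩ : ∃ c : G × ZMod g, c = (κ, 1) := ⟨_, rfl⟩
  set cell : Fin 10 → (G × ZMod g) × (G × ZMod g) := ten c (p, 0) (x, 0) (y, 0) with hcell
  have hblk : ∀ i, ((cell i).1.1, (cell i).2.1) = ten κ p x y i := by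
    intro i
    have h := ten_map (AddMonoidHom.fst G (ZMod g)) c (p, 0) (x, 0) (y, 0) i
    rw [hc] at h
    simp only [AddMonoidHom.coe_fst] at h
    rw [h, hcell, hc]
  have hcinj : Function.Injective cell := by
    intro i j h
    apply hinj
    rw [← hblk, ← hblk, h]
  have hcgood : ∀ i, Good κ M (cell i).1.1 (cell i).2.1 := by
    intro i
    have h := hgood i
    rw [← hblk] at h
    exact h
  obtain ⟨K, hK, hK1, hK2⟩ := hq.exists_lines (fun i => ((cell i).1.1, (cell i).2.1)) (by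
    intro i j h
    simp only [hblk] at h
    exact hinj h) hcgood (fun i => (cell i).2.2 - (cell i).1.2)
  have hKT : ∀ X Y, Touched κ M X Y → K X Y = ∅ := by
    intro X Y h
    rw [← Finset.card_eq_zero]
    have h1 := hK X Y
    rw [hq.touched X Y h, sub_self] at h1
    exact_mod_cast h1
  -- membership in the natural part
  have hne_of_good : ∀ r s : G × ZMod g, Good κ M r.1 s.1 → r ≠ 0 ∧ s ≠ 0 ∧ r + s ≠ (κ, 1) := by
    rintro r s ⟨h1, h2, h3, -⟩
    refine ⟨fun h => h1 ?_, fun h => h2 ?_, fun h => h3 ?_⟩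
    · rw [h]; rfl
    · rw [h]; rfl
    · have := (Prod.ext_iff.mp h).1
      exact this
  have hm1 : ∀ i, i < 6 → cell i ∈ natCells κ K := by
    intro i hi
    obtain ⟨h1, h2, h3⟩ := hne_of_good _ _ (hcgood i)
    exact mem_natCells.mpr ⟨h1, h2, h3, hK1 i hi⟩
  have hm2 : ∀ i, 6 ≤ i → cell i ∉ natCells κ K := by
    intro i hi h
    exact hK2 i hi (mem_natCells.mp h).2.2.2
  let d : ZMod g → (G × ZMod g) × (G × ZMod g) := fun u => ((X0, u), (Y0, u))
  have hdinj : Function.Injective d := by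
    intro u v h
    exact (Prod.ext_iff.mp (Prod.ext_iff.mp h).1).2
  set Dg := univ.image d with hDg
  have hDmem : ∀ e ∈ Dg, ∃ u, e = ((X0, u), (Y0, u)) := by
    intro e he
    obtain ⟨u, -, hu⟩ := Finset.mem_image.mp he
    exact ⟨u, hu.symm⟩
  have hDP : ∀ e ∈ Dg, e ∉ natCells κ K := by
    intro e he h
    obtain ⟨u, rfl⟩ := hDmem e he
    have h1 := (mem_natCells.mp h).2.2.2
    simp only [hKT X0 Y0 hT0] at h1
    exact Finset.notMem_empty _ h1
  have hDc : ∀ i, cell i ∉ Dg := by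
    intro i h
    obtain ⟨u, hu⟩ := hDmem _ h
    have h1 := hcgood i
    rw [hu] at h1
    exact hT0.2.2.2 h1.2.2.2
  set hcl : (G × ZMod g) × (G × ZMod g) := (c + c + c, -(c + c)) with hhcl
  have hsum : hcl.1 + hcl.2 = (κ, 1) := by
    rw [hhcl, ← hc]
    show c + c + c + -(c + c) = c
    abel
  have hhP : hcl ∉ natCells κ K := by
    intro h
    exact (mem_natCells.mp h).2.2.1 hsum
  have hhD : hcl ∉ Dg := by
    intro h
    obtain ⟨u, hu⟩ := hDmem _ h
    rw [hu] at hsum
    exact hXY (Prod.ext_iff.mp hsum).1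
  have hhc : ∀ i, cell i ≠ hcl := by
    intro i h
    have h1 := (hne_of_good _ _ (hcgood i)).2.2
    rw [h] at h1
    exact h1 hsum
  set P := combine (natCells κ K) Dg cell hcl with hP
  have hPmem : ∀ e ∈ P, (e.1 ≠ 0 ∧ e.2 ≠ 0 ∧ e.1 + e.2 ≠ (κ, 1) ∧ ¬ Touched κ M e.1.1 e.2.1 ∧
      e ∉ Dg ∧ e ≠ hcl) ∨ e ∈ Dg ∨ e = hcl := by
    intro e he
    rw [hP] at he
    unfold combine at he
    rw [mem_filter] at he
    rcases he.2 with h | ⟨i, -, h⟩ | h | h
    · left
      have h1 := mem_natCells.mp h.1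
      refine ⟨h1.1, h1.2.1, h1.2.2.1, fun hT => ?_, fun h2 => hDP e h2 h.1,
        fun h2 => hhP (h2 ▸ h.1)⟩
      have h3 := h1.2.2.2
      rw [hKT _ _ hT] at h3
      exact Finset.notMem_empty _ h3
    · left
      have h1 := hne_of_good _ _ (hcgood i)
      rw [h]
      exact ⟨h1.1, h1.2.1, h1.2.2, fun hT => hT.2.2.2 (hcgood i).2.2.2, hDc i, hhc i⟩
    · exact Or.inr (Or.inl h)
    · exact Or.inr (Or.inr h)
  have hcd : ∀ (pr : (G × ZMod g) × (G × ZMod g) → Prop) [DecidablePred pr], _ :=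
    fun pr _ => card_combine (natCells κ K) Dg cell hcl hcinj hm1 hm2 hDP hDc hhP hhD hhc pr
  -- the symbols
  have hLnat : ∀ e : (G × ZMod g) × (G × ZMod g), e.1 + e.2 ≠ (κ, 1) →
      ¬ Touched κ M e.1.1 e.2.1 → L e.1 e.2 = e.1 + e.2 := fun e h1 h2 => hB.natL h2 h1
  have hLD : ∀ u, L (X0, u) (Y0, u) = (Z0, u + u + τ) := by
    intro u
    rw [hLdef, diagL hT0 hX0κ haX haY u, ← hZ0, haZ]
  have hLh : L hcl.1 hcl.2 = c + c + c := by
    have e1 : hcl.1.1 = κ + κ + κ := by rw [hhcl, hc]; rfl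
    have e2 : hcl.2.1 = -(κ + κ) := by rw [hhcl, hc]; rfl
    refine hB.holeL hsum ?_ ?_ ?_ ?_
    · rw [e1]
      exact hk3
    · rw [e2]
      exact neg_ne_zero.mpr hk2
    · rw [e1]
      exact hk3κ
    · rw [e1, e2]
      exact h3κ
  have hkz : (((b - τ) * g - 2 : ℕ) : ℤ) = g * b - g * τ - 2 := by
    have h1 : 2 ≤ (b - τ) * g := by
      have : 1 ≤ b - τ := by omega
      nlinarith
    have h2 : τ ≤ b := by omega
    rw [Nat.cast_sub h1, Nat.cast_mul, Nat.cast_sub h2]
    push_cast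
    ring
  have hbz : ((Fintype.card G : ℕ) : ℤ) = (b : ℤ) := rfl
  have hσ2 : (∑ a : G × ZMod g, a) + ∑ a : G × ZMod g, a = 0 := sum_add_self
  have hkap := le_kappa_of_punctured (c : G × ZMod g) L (by rw [hc]; exact hL)
    ((b - τ) * g - 2) (g * τ + 2) (b * g) (by
      have : 3 ≤ (b - τ) * g := by
        have : 3 ≤ b - τ := by omega
        nlinarith
      omega) (by rw [Fintype.card_prod, ZMod.card]) (by
      have h1 : 2 ≤ (b - τ) * g := by
        have : 1 ≤ b - τ := by omega
        nlinarith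
      have h2 : (b - τ) * g + g * τ = b * g := by
        rw [mul_comm g τ, ← Nat.add_mul, Nat.sub_add_cancel (by omega)]
      omega) (by nlinarith) P ?_ ?_ ?_ ?_ (c + ∑ a, a) rfl (by
        rw [hc, addOrderOf_defect hκ h4 hodd hco, Fintype.card_prod, ZMod.card])
    (fun e => if e ∈ Dg then τ else if e = hcl then 2 else 0) ?_ ?_
  · exact hkap
  · -- the cells have nonzero row and column
    intro e he
    rcases hPmem e he with h | h | h
    · exact ⟨h.1, h.2.1⟩
    · obtain ⟨u, rfl⟩ := hDmem e h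
      exact ⟨fun h => hX0 (Prod.ext_iff.mp h).1, fun h => hY0 (Prod.ext_iff.mp h).1⟩
    · rw [h, hhcl, hc]
      refine ⟨fun h => hk3 (Prod.ext_iff.mp h).1, fun h => hk2 ?_⟩
      have := (Prod.ext_iff.mp h).1
      exact neg_eq_zero.mp this
  · -- rows
    intro r hr
    have h1 : (((P.filter fun e => e.1 = r).card : ℕ) : ℤ) = (((b - τ) * g - 2 : ℕ) : ℤ) := by
      rw [hP, hcd (fun e => e.1 = r), natCells_row hq hAκ hK r hr, hkz, hcell, ten_row,
        hDg, card_image_filter hdinj]
      have h2 : ∑ u, ind ((d u).1 = r) = ind (r.1 = X0) := by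
        have h3 : ∀ u, ind ((d u).1 = r) = ind (r.1 = X0) * ind (u = r.2) := by
          intro u
          by_cases h5 : r.1 = X0
          · by_cases h6 : u = r.2
            · rw [ind_true h5, ind_true h6, ind_true (Prod.ext h5.symm h6)]
              rfl
            · rw [ind_false h6, ind_false (fun h => h6 (Prod.ext_iff.mp h).2), mul_zero]
          · rw [ind_false h5, ind_false (fun h => h5 (Prod.ext_iff.mp h).1.symm), zero_mul]
        simp only [h3, ← Finset.mul_sum, sum_ind_eq', mul_one]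
      have h3 : ind (hcl.1 = r) = ind (c + c + c = r) := rfl
      have h4 : ind (r = (κ, 1)) = ind (c = r) := ind_congr (by rw [hc, eq_comm])
      rw [h2, h3, h4]
      ring
    exact_mod_cast h1
  · -- columns
    intro r hr
    have h1 : (((P.filter fun e => e.2 = r).card : ℕ) : ℤ) = (((b - τ) * g - 2 : ℕ) : ℤ) := by
      rw [hP, hcd (fun e => e.2 = r), natCells_col hq hAκ hK r hr, hkz, hcell, ten_col,
        hDg, card_image_filter hdinj]
      have h2 : ∑ u, ind ((d u).2 = r) = ind (r.1 = Y0) := by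
        have h3 : ∀ u, ind ((d u).2 = r) = ind (r.1 = Y0) * ind (u = r.2) := by
          intro u
          by_cases h5 : r.1 = Y0
          · by_cases h6 : u = r.2
            · rw [ind_true h5, ind_true h6, ind_true (Prod.ext h5.symm h6)]
              rfl
            · rw [ind_false h6, ind_false (fun h => h6 (Prod.ext_iff.mp h).2), mul_zero]
          · rw [ind_false h5, ind_false (fun h => h5 (Prod.ext_iff.mp h).1.symm), zero_mul]
        simp only [h3, ← Finset.mul_sum, sum_ind_eq', mul_one]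
      have h3 : ind (hcl.2 = r) = ind (-(c + c) = r) := rfl
      have h4 : ind (r = (κ, 1)) = ind (c = r) := ind_congr (by rw [hc, eq_comm])
      rw [h2, h3, h4]
      ring
    exact_mod_cast h1
  · -- symbols
    intro z hz
    have h1 : (((P.filter fun e => L e.1 e.2 = z).card : ℕ) : ℤ) =
        (((b - τ) * g - 2 : ℕ) : ℤ) := by
      rw [hP, hcd (fun e => L e.1 e.2 = z)]
      have h0 : ((natCells κ K).filter fun e => L e.1 e.2 = z) =
          (natCells κ K).filter fun e => e.1 + e.2 = z := by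
        apply Finset.filter_congr
        rintro ⟨r, s⟩ he
        have h2 := mem_natCells.mp he
        have h3 : ¬ Touched κ M r.1 s.1 := by
          intro hT
          have h4 := h2.2.2.2
          rw [hKT _ _ hT] at h4
          exact Finset.notMem_empty _ h4
        show L r s = z ↔ r + s = z
        rw [hLnat (r, s) h2.2.2.1 h3]
      have h0' : ∑ i, sgn i * ind (L (cell i).1 (cell i).2 = z) =
          ∑ i, sgn i * ind ((cell i).1 + (cell i).2 = z) := by
        apply Finset.sum_congr rfl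
        intro i _
        rw [hLnat (cell i) (hne_of_good _ _ (hcgood i)).2.2
          (fun hT => hT.2.2.2 (hcgood i).2.2.2)]
      rw [h0, h0', natCells_sym hq hA0 hodd hK z (by rw [← hc]; exact hz), hkz, hcell, ten_sym,
        hDg, card_image_filter hdinj]
      have h2 : ∑ u, ind (L (d u).1 (d u).2 = z) = ind (z.1 = Z0) := by
        have h3 : ∀ u, ind (L (d u).1 (d u).2 = z) = ind (z.1 = Z0) *
            ind (slope2 hodd (τ : ZMod g) u = z.2) := by
          intro u
          have h7 : L (d u).1 (d u).2 = (Z0, slope2 hodd (τ : ZMod g) u) := hLD u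
          rw [h7]
          by_cases h5 : z.1 = Z0
          · by_cases h6 : slope2 hodd (τ : ZMod g) u = z.2
            · rw [ind_true h5, ind_true h6, ind_true (Prod.ext h5.symm h6)]
              rfl
            · rw [ind_false h6, ind_false (fun h => h6 (Prod.ext_iff.mp h).2), mul_zero]
          · rw [ind_false h5, ind_false (fun h => h5 (Prod.ext_iff.mp h).1.symm), zero_mul]
        have h4 : ∑ u, ind (slope2 hodd (τ : ZMod g) u = z.2) = 1 := by
          rw [Equiv.sum_comp (slope2 hodd (τ : ZMod g)) (fun v => ind (v = z.2)), sum_ind_eq']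
        simp only [h3, ← Finset.mul_sum, h4, mul_one]
      have h3 : ind (L hcl.1 hcl.2 = z) = ind (c + c + c = z) := by rw [hLh]
      have h4 : ind (z = 0) = ind (0 = z) := ind_congr eq_comm
      rw [h2, h3, h4]
      ring
    exact_mod_cast h1
  · -- the excesses
    intro e he
    rcases hPmem e he with h | h | h
    · rw [if_neg h.2.2.2.2.1, if_neg h.2.2.2.2.2, zero_smul, add_zero]
      exact hLnat e h.2.2.1 h.2.2.2.1
    · obtain ⟨u, rfl⟩ := hDmem e h
      rw [if_pos h, hLD u]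
      have h1 : τ • (c + ∑ a : G × ZMod g, a) = τ • c := by
        obtain ⟨j, hj⟩ := hτ
        rw [smul_add]
        nth_rewrite 2 [hj]
        rw [add_smul, ← smul_add, hσ2, smul_zero, add_zero]
      rw [h1, hc, hMXY]
      refine Prod.ext rfl ?_
      show u + u + (τ : ZMod g) = u + u + τ • (1 : ZMod g)
      rw [nsmul_one]
    · rw [h, if_neg hhD, if_pos rfl, hLh]
      have h1 : 2 • (c + ∑ a : G × ZMod g, a) = c + c := by
        rw [smul_add, two_smul, two_smul, hσ2, add_zero]
      rw [h1, hhcl]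
      show c + c + c = c + c + c + -(c + c) + (c + c)
      abel
  · -- the total excess
    have h1 : ∀ e : (G × ZMod g) × (G × ZMod g), (if e ∈ Dg then τ else if e = hcl then 2 else 0) =
        (if e ∈ Dg then τ else 0) + if e = hcl then 2 else 0 := by
      intro e
      by_cases h2 : e ∈ Dg
      · rw [if_pos h2, if_pos h2, if_neg (fun h : e = hcl => hhD (h ▸ h2)),
          add_zero]
      · rw [if_neg h2, if_neg h2, zero_add]
    refine (Finset.sum_le_sum_of_subset (Finset.subset_univ P)).trans ?_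
    simp only [h1, Finset.sum_add_distrib]
    rw [← Finset.sum_filter, Finset.sum_const, Finset.sum_ite_eq' univ hcl, if_pos (mem_univ _)]
    have h2 : (univ.filter fun e => e ∈ Dg) = Dg := by ext e; simp
    rw [h2, hDg, Finset.card_image_of_injective _ hdinj, Finset.card_univ, ZMod.card, smul_eq_mul]

end Pool.Agent.Lib.MP_185394_co.Near
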