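import Mathlib

/-!
Rational weights with prescribed margins on the cells of a Latin square, vanishing on a sparse
set of cells.
-/

namespace Pool.Agent.Lib.MP_185394_co.Near

open Finset

set_option linter.unusedSectionVars false

/-- A small perturbation of the identity is invertible, with a bound. -/
lemma exists_solution {ι : Type} [Fintype ι] (W : ι → ι → ℚ) (b : ι → ℚ) (B : ℚ)
    (hB : ∀ i, |b i| ≤ B) (hW : ∀ i, ∑ j, |W i j| ≤ 1 / 2) :
    ∃ a : ι → ℚ, (∀ i, a i + ∑ j, W i j * a j = b i) ∧ ∀ i, |a i| ≤ 2 * B := by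
  classical
  let T : (ι → ℚ) →ₗ[ℚ] (ι → ℚ) :=
    { toFun := fun a i => a i + ∑ j, W i j * a j
      map_add' := by
        intro x y
        funext i
        simp only [Pi.add_apply, mul_add, Finset.sum_add_distrib]
        ring
      map_smul' := by
        intro c x
        funext i
        simp only [Pi.smul_apply, smul_eq_mul, RingHom.id_apply, mul_add, Finset.mul_sum]
        congr 1
        apply Finset.sum_congr rfl
        intro j _
        ring }
  have key : ∀ (a : ι → ℚ) (B' : ℚ), (∀ i, |T a i| ≤ B') → ∀ i, |a i| ≤ 2 * B' := by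
    intro a B' h i
    obtain ⟨i0, _, hi0⟩ := Finset.exists_max_image univ (fun i => |a i|) ⟨i, mem_univ i⟩
    have h1 : a i0 = T a i0 - ∑ j, W i0 j * a j := by
      simp [T]
    have h2 : |a i0| ≤ |T a i0| + |∑ j, W i0 j * a j| := by
      calc |a i0| = |T a i0 - ∑ j, W i0 j * a j| := by rw [← h1]
        _ ≤ _ := abs_sub _ _
    have h3 : |∑ j, W i0 j * a j| ≤ 1 / 2 * |a i0| := by
      calc |∑ j, W i0 j * a j| ≤ ∑ j, |W i0 j * a j| := Finset.abs_sum_le_sum_abs _ _
        _ ≤ ∑ j, |W i0 j| * |a i0| := by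
            apply Finset.sum_le_sum
            intro j _
            rw [abs_mul]
            exact mul_le_mul_of_nonneg_left (hi0 j (mem_univ j)) (abs_nonneg _)
        _ = (∑ j, |W i0 j|) * |a i0| := by rw [Finset.sum_mul]
        _ ≤ _ := mul_le_mul_of_nonneg_right (hW i0) (abs_nonneg _)
    have h4 := h i0
    have h5 := hi0 i (mem_univ i)
    linarith
  have hinj : Function.Injective T := by
    rw [← LinearMap.ker_eq_bot, LinearMap.ker_eq_bot']
    intro a ha
    funext i
    have h1 := key a 0 (fun i => by rw [ha]; simp) i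
    have h2 : |a i| = 0 := le_antisymm (by linarith) (abs_nonneg _)
    simpa using h2
  obtain ⟨a, ha⟩ := (LinearMap.injective_iff_surjective.mp hinj) b
  refine ⟨a, fun i => congrFun ha i, key a B fun i => ?_⟩
  rw [ha]
  exact hB i

section

variable {R C S : Type} [Fintype R] [Fintype C] [Fintype S] [DecidableEq R] [DecidableEq C]
  [DecidableEq S]

/-- the off-diagonal part of the elementary corrections -/
def corr (n : ℕ) (M : R → C → S) (e e' : R × C) : ℚ :=
  2 / (n : ℚ) ^ 2 - ((if e.1 = e'.1 then 1 else 0) + (if e.2 = e'.2 then 1 else 0) +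
    (if M e.1 e.2 = M e'.1 e'.2 then 1 else 0)) / n

lemma card_one_of_inj {A B : Type} [Fintype A] [Fintype B] [DecidableEq B] {f : A → B}
    (hf : Function.Injective f) (hc : Fintype.card A = Fintype.card B) (b : B) :
    (∑ a, if f a = b then (1 : ℚ) else 0) = 1 := by
  classical
  obtain ⟨a, rfl⟩ := ((Fintype.bijective_iff_injective_and_card f).mpr ⟨hf, hc⟩).2 b
  rw [Finset.sum_eq_single a]
  · simp
  · intro a' _ h
    rw [if_neg (fun h' => h (hf h'))]
  · intro h
    exact absurd (mem_univ a) h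

lemma corr_row (n : ℕ) (hn : 0 < n) (hC : Fintype.card C = n) (hS : Fintype.card S = n)
    (M : R → C → S) (hrow : ∀ r, Function.Injective (M r)) (r : R) (e' : R × C) :
    ∑ c, corr n M (r, c) e' = - if r = e'.1 then 1 else 0 := by
  unfold corr
  have hn' : (n : ℚ) ≠ 0 := by exact_mod_cast hn.ne'
  simp only [Finset.sum_sub_distrib, ← Finset.sum_div, Finset.sum_add_distrib]
  rw [card_one_of_inj (hrow r) (hC.trans hS.symm)]
  simp only [Finset.sum_const, Finset.card_univ, hC, Finset.sum_ite_eq', Finset.mem_univ, if_true]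
  split_ifs
  · field_simp
    simp [hC]
    ring
  · field_simp
    simp [hC]
    ring

lemma corr_col (n : ℕ) (hn : 0 < n) (hR : Fintype.card R = n) (hS : Fintype.card S = n)
    (M : R → C → S) (hcol : ∀ c, Function.Injective (fun r => M r c)) (c : C) (e' : R × C) :
    ∑ r, corr n M (r, c) e' = - if c = e'.2 then 1 else 0 := by
  unfold corr
  have hn' : (n : ℚ) ≠ 0 := by exact_mod_cast hn.ne'
  simp only [Finset.sum_sub_distrib, ← Finset.sum_div, Finset.sum_add_distrib]
  rw [card_one_of_inj (hcol c) (hR.trans hS.symm)]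
  simp only [Finset.sum_const, Finset.card_univ, hR, Finset.sum_ite_eq', Finset.mem_univ, if_true]
  split_ifs
  · field_simp
    simp [hR]
    ring
  · field_simp
    simp [hR]
    ring

/-- the cells carrying a symbol are in bijection with the rows -/
lemma sum_symbol {A : Type} [AddCommMonoid A] (n : ℕ) (hC : Fintype.card C = n)
    (hS : Fintype.card S = n)
    (M : R → C → S) (hrow : ∀ r, Function.Injective (M r)) (s : S) (g : R → C → A) :
    ∃ c : R → C, (∀ r, M r (c r) = s) ∧
      ∑ e : R × C, (if M e.1 e.2 = s then g e.1 e.2 else 0) = ∑ r, g r (c r) := by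
  have hsurj : ∀ r, ∃ c, M r c = s := fun r =>
    ((Fintype.bijective_iff_injective_and_card (M r)).mpr ⟨hrow r, hC.trans hS.symm⟩).2 s
  choose c hc using hsurj
  refine ⟨c, hc, ?_⟩
  rw [Fintype.sum_prod_type]
  apply Finset.sum_congr rfl
  intro r _
  rw [Finset.sum_eq_single (c r)]
  · rw [if_pos (hc r)]
  · intro c' _ h
    rw [if_neg (fun h' => h (hrow r (h'.trans (hc r).symm)))]
  · intro h
    exact absurd (mem_univ _) h

lemma corr_sym (n : ℕ) (hn : 0 < n) (hR : Fintype.card R = n) (hC : Fintype.card C = n)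
    (hS : Fintype.card S = n) (M : R → C → S) (hrow : ∀ r, Function.Injective (M r))
    (hcol : ∀ c, Function.Injective (fun r => M r c)) (s : S) (e' : R × C) :
    ∑ e : R × C, (if M e.1 e.2 = s then corr n M e e' else 0) =
      - if s = M e'.1 e'.2 then 1 else 0 := by
  have hn' : (n : ℚ) ≠ 0 := by exact_mod_cast hn.ne'
  obtain ⟨c, hc, hsum⟩ := sum_symbol n hC hS M hrow s (fun r c => corr n M (r, c) e')
  have hcinj : Function.Injective c := by
    intro r r' h
    have h1 : M r (c r) = M r' (c r) := by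
      rw [hc r, h, hc r']
    exact hcol (c r) h1
  have h0 : ∑ e : R × C, (if M e.1 e.2 = s then corr n M e e' else 0) =
      ∑ r, corr n M (r, c r) e' := hsum
  rw [h0]
  unfold corr
  simp only [hc, Finset.sum_sub_distrib, ← Finset.sum_div, Finset.sum_add_distrib]
  rw [card_one_of_inj hcinj (hR.trans hC.symm)]
  simp only [Finset.sum_const, Finset.card_univ, hR, Finset.sum_ite_eq', Finset.mem_univ, if_true]
  split_ifs
  · field_simp
    simp
    ring
  · field_simp
    simp
    ring

lemma sum_corr_le (n : ℕ) (hn : 0 < n) (hR : Fintype.card R = n) (M : R → C → S)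
    (N : Finset (R × C)) (t : ℕ)
    (hNr : ∀ r, (N.filter fun e => e.1 = r).card ≤ t)
    (hNc : ∀ c, (N.filter fun e => e.2 = c).card ≤ t)
    (hNs : ∀ s, (N.filter fun e => M e.1 e.2 = s).card ≤ t) (ht : 40 * t ≤ n) (e : R × C) :
    ∑ e' ∈ N, |corr n M e e'| ≤ 1 / 8 := by
  have hn' : (0 : ℚ) < n := by exact_mod_cast hn
  have hN : (N.card : ℚ) ≤ n * t := by
    have h1 : N.card = ∑ r, (N.filter fun e => e.1 = r).card :=
      Finset.card_eq_sum_card_fiberwise (fun _ _ => Finset.mem_coe.mpr (mem_univ _))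
    have h2 : ∑ r, (N.filter fun e => e.1 = r).card ≤ ∑ _r : R, t :=
      Finset.sum_le_sum fun r _ => hNr r
    rw [Finset.sum_const, Finset.card_univ, hR, smul_eq_mul, ← h1] at h2
    exact_mod_cast h2
  have h1 : ∀ e' ∈ N, |corr n M e e'| ≤ 2 / (n : ℚ) ^ 2 +
      ((if e'.1 = e.1 then 1 else 0) + (if e'.2 = e.2 then 1 else 0) +
      (if M e'.1 e'.2 = M e.1 e.2 then 1 else 0)) / n := by
    intro e' _
    unfold corr
    have h2 : (0 : ℚ) ≤ ((if e.1 = e'.1 then 1 else 0) + (if e.2 = e'.2 then 1 else 0) +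
        (if M e.1 e.2 = M e'.1 e'.2 then 1 else 0)) / n := by
      apply div_nonneg _ hn'.le
      split_ifs <;> norm_num
    have h3 : (0 : ℚ) ≤ 2 / (n : ℚ) ^ 2 := by positivity
    have h4 : (((if e'.1 = e.1 then 1 else 0) + (if e'.2 = e.2 then 1 else 0) +
        (if M e'.1 e'.2 = M e.1 e.2 then 1 else 0)) : ℚ) =
        ((if e.1 = e'.1 then 1 else 0) + (if e.2 = e'.2 then 1 else 0) +
        (if M e.1 e.2 = M e'.1 e'.2 then 1 else 0)) := by
      simp only [eq_comm]
    rw [h4, abs_le]
    constructor <;> linarith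
  have h2 : ∑ e' ∈ N, |corr n M e e'| ≤ ∑ e' ∈ N, (2 / (n : ℚ) ^ 2 +
      ((if e'.1 = e.1 then 1 else 0) + (if e'.2 = e.2 then 1 else 0) +
      (if M e'.1 e'.2 = M e.1 e.2 then 1 else 0)) / n) := Finset.sum_le_sum h1
  refine h2.trans ?_
  rw [Finset.sum_add_distrib, Finset.sum_const, ← Finset.sum_div, Finset.sum_add_distrib,
    Finset.sum_add_distrib, nsmul_eq_mul]
  have h3 : (∑ e' ∈ N, if e'.1 = e.1 then (1 : ℚ) else 0) ≤ t := by
    rw [Finset.sum_boole]
    exact_mod_cast hNr e.1
  have h4 : (∑ e' ∈ N, if e'.2 = e.2 then (1 : ℚ) else 0) ≤ t := by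
    rw [Finset.sum_boole]
    exact_mod_cast hNc e.2
  have h5 : (∑ e' ∈ N, if M e'.1 e'.2 = M e.1 e.2 then (1 : ℚ) else 0) ≤ t := by
    rw [Finset.sum_boole]
    exact_mod_cast hNs (M e.1 e.2)
  have ht' : (40 : ℚ) * t ≤ n := by exact_mod_cast ht
  have h6 : (N.card : ℚ) * (2 / (n : ℚ) ^ 2) ≤ 2 * t / n := by
    rw [mul_div_assoc', div_le_div_iff₀ (by positivity) hn']
    nlinarith [mul_le_mul_of_nonneg_right hN (by positivity : (0 : ℚ) ≤ 2 * n)]
  have h7 : ((∑ e' ∈ N, if e'.1 = e.1 then (1 : ℚ) else 0) +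
      (∑ e' ∈ N, if e'.2 = e.2 then (1 : ℚ) else 0) +
      (∑ e' ∈ N, if M e'.1 e'.2 = M e.1 e.2 then (1 : ℚ) else 0)) / n ≤ 3 * t / n :=
    div_le_div_of_nonneg_right (by linarith) hn'.le
  have h8 : 2 * (t : ℚ) / n + 3 * t / n ≤ 1 / 8 := by
    rw [← add_div, div_le_div_iff₀ hn' (by norm_num)]
    linarith
  linarith

/-- Rational weights with prescribed margins on the complement of a sparse set of cells of a
Latin square. -/
theorem exists_rat_weights (n : ℕ) (hn : 0 < n) (hR : Fintype.card R = n)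
    (hC : Fintype.card C = n) (hS : Fintype.card S = n) (M : R → C → S)
    (hrow : ∀ r, Function.Injective (M r)) (hcol : ∀ c, Function.Injective (fun r => M r c))
    (N : Finset (R × C)) (t : ℕ)
    (hNr : ∀ r, (N.filter fun e => e.1 = r).card ≤ t)
    (hNc : ∀ c, (N.filter fun e => e.2 = c).card ≤ t)
    (hNs : ∀ s, (N.filter fun e => M e.1 e.2 = s).card ≤ t) (ht : 40 * t ≤ n)
    (ρ : R → ℚ) (γ : C → ℚ) (σ : S → ℚ) (T : ℚ) (hρ : ∑ r, ρ r = T) (hγ : ∑ c, γ c = T)
    (hσ : ∑ s, σ s = T) (F : ℚ) (hF0 : 0 < F) (hF1 : F ≤ 1 / 2)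
    (hf : ∀ r c, F / 2 ≤ (ρ r + γ c + σ (M r c)) / n - 2 * T / (n : ℚ) ^ 2 ∧
      (ρ r + γ c + σ (M r c)) / n - 2 * T / (n : ℚ) ^ 2 ≤ F) :
    ∃ q : R → C → ℚ, (∀ r c, (r, c) ∈ N → q r c = 0) ∧
      (∀ r c, (r, c) ∉ N → 0 < q r c ∧ q r c < 1) ∧ (∀ r, ∑ c, q r c = ρ r) ∧
      (∀ c, ∑ r, q r c = γ c) ∧
      ∀ s, (∑ e : R × C, if M e.1 e.2 = s then q e.1 e.2 else 0) = σ s := by
  classical
  have hn' : (0 : ℚ) < n := by exact_mod_cast hn
  set f : R × C → ℚ := fun e => (ρ e.1 + γ e.2 + σ (M e.1 e.2)) / n - 2 * T / (n : ℚ) ^ 2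
    with hfdef
  have hf' : ∀ e, F / 2 ≤ f e ∧ f e ≤ F := fun e => hf e.1 e.2
  obtain ⟨a, ha, haB⟩ := exists_solution (ι := N) (fun i j => corr n M i.1 j.1)
    (fun i => - f i.1) F (by
      intro i
      rw [abs_neg, abs_le]
      have := hf' i.1
      constructor <;> linarith) (by
      intro i
      rw [Finset.sum_coe_sort N (fun j => |corr n M i.1 j|)]
      have := sum_corr_le n hn hR M N t hNr hNc hNs ht i.1
      linarith)
  set a' : R × C → ℚ := fun e => if h : e ∈ N then a ⟨e, h⟩ else 0 with ha'def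
  have ha'N : ∀ i : N, a' i.1 = a i := fun i => by simp [a']
  have hsumN : ∀ e, ∑ j : N, corr n M e j.1 * a j = ∑ e' ∈ N, corr n M e e' * a' e' := by
    intro e
    rw [← Finset.sum_coe_sort N (fun j => corr n M e j * a' j)]
    apply Finset.sum_congr rfl
    intro j _
    rw [ha'N]
  set q : R × C → ℚ := fun e => f e + a' e + ∑ e' ∈ N, corr n M e e' * a' e' with hqdef
  have ha'B : ∀ e ∈ N, |a' e| ≤ 2 * F := fun e he => by
    have h1 := ha'N ⟨e, he⟩
    simp only at h1
    rw [h1]
    exact haB _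
  have hpert : ∀ e, |∑ e' ∈ N, corr n M e e' * a' e'| ≤ F / 4 := by
    intro e
    calc |∑ e' ∈ N, corr n M e e' * a' e'| ≤ ∑ e' ∈ N, |corr n M e e' * a' e'| :=
          Finset.abs_sum_le_sum_abs _ _
      _ ≤ ∑ e' ∈ N, |corr n M e e'| * (2 * F) := by
          apply Finset.sum_le_sum
          intro e' he'
          rw [abs_mul]
          exact mul_le_mul_of_nonneg_left (ha'B e' he') (abs_nonneg _)
      _ = (∑ e' ∈ N, |corr n M e e'|) * (2 * F) := by rw [Finset.sum_mul]
      _ ≤ 1 / 8 * (2 * F) :=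
          mul_le_mul_of_nonneg_right (sum_corr_le n hn hR M N t hNr hNc hNs ht e) (by linarith)
      _ = F / 4 := by ring
  have hind : ∀ (g : R × C → ℚ), ∑ e ∈ N, g e * a' e = ∑ e, g e * a' e := by
    intro g
    apply Finset.sum_subset (Finset.subset_univ _)
    intro e _ he
    simp [a', he]
  refine ⟨fun r c => q (r, c), ?_, ?_, ?_, ?_, ?_⟩
  · intro r c h
    have h1 := ha ⟨(r, c), h⟩
    rw [hsumN, ← ha'N] at h1
    simp only at h1
    simp only [hqdef]
    linarith
  · intro r c h
    have h1 : a' (r, c) = 0 := by simp [a', h]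
    have h2 := abs_le.mp (hpert (r, c))
    have h3 := hf' (r, c)
    simp only [hqdef, h1]
    constructor <;> linarith [h2.1, h2.2, h3.1, h3.2]
  · intro r
    simp only [hqdef, Finset.sum_add_distrib]
    rw [Finset.sum_comm]
    have h1 : ∑ e' ∈ N, ∑ c, corr n M (r, c) e' * a' e' = - ∑ c, a' (r, c) := by
      simp only [← Finset.sum_mul]
      simp only [corr_row n hn hC hS M hrow]
      rw [hind (fun e => - if r = e.1 then 1 else 0), Fintype.sum_prod_type]
      rw [Finset.sum_eq_single r]
      · simp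
      · intro r' _ hr'
        simp [Ne.symm hr']
      · intro h
        exact absurd (mem_univ _) h
    rw [h1]
    have h2 : ∑ c, f (r, c) = ρ r := by
      simp only [hfdef, Finset.sum_sub_distrib, ← Finset.sum_div, Finset.sum_add_distrib]
      have h3 : ∑ c, σ (M r c) = T := by
        rw [← hσ]
        exact Function.Bijective.sum_comp
          ((Fintype.bijective_iff_injective_and_card (M r)).mpr ⟨hrow r, hC.trans hS.symm⟩) σ
      rw [h3, hγ]
      simp only [Finset.sum_const, Finset.card_univ, hC, nsmul_eq_mul]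
      field_simp
      ring
    rw [h2]
    ring
  · intro c
    simp only [hqdef, Finset.sum_add_distrib]
    rw [Finset.sum_comm]
    have h1 : ∑ e' ∈ N, ∑ r, corr n M (r, c) e' * a' e' = - ∑ r, a' (r, c) := by
      simp only [← Finset.sum_mul]
      simp only [corr_col n hn hR hS M hcol]
      rw [hind (fun e => - if c = e.2 then 1 else 0), Fintype.sum_prod_type_right]
      rw [Finset.sum_eq_single c]
      · simp
      · intro r' _ hr'
        simp [Ne.symm hr']
      · intro h
        exact absurd (mem_univ _) h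
    rw [h1]
    have h2 : ∑ r, f (r, c) = γ c := by
      simp only [hfdef, Finset.sum_sub_distrib, ← Finset.sum_div, Finset.sum_add_distrib]
      have h3 : ∑ r, σ (M r c) = T := by
        rw [← hσ]
        exact Function.Bijective.sum_comp
          ((Fintype.bijective_iff_injective_and_card (fun r => M r c)).mpr
            ⟨hcol c, hR.trans hS.symm⟩) σ
      rw [h3, hρ]
      simp only [Finset.sum_const, Finset.card_univ, hR, nsmul_eq_mul]
      field_simp
      ring
    rw [h2]
    ring
  · intro s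
    have h0 : (∑ e : R × C, if M e.1 e.2 = s then q (e.1, e.2) else 0) =
        (∑ e : R × C, if M e.1 e.2 = s then f e else 0) +
        (∑ e : R × C, if M e.1 e.2 = s then a' e else 0) +
        ∑ e' ∈ N, (∑ e : R × C, if M e.1 e.2 = s then corr n M e e' else 0) * a' e' := by
      simp only [Finset.sum_mul]
      rw [Finset.sum_comm (s := N), ← Finset.sum_add_distrib, ← Finset.sum_add_distrib]
      apply Finset.sum_congr rfl
      rintro ⟨r, c⟩ _
      by_cases h : M r c = s
      · simp [h, hqdef]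
      · simp [h]
    rw [h0]
    simp only [corr_sym n hn hR hC hS M hrow hcol s]
    rw [hind (fun e => - if s = M e.1 e.2 then 1 else 0)]
    have h1 : (∑ e : R × C, (- if s = M e.1 e.2 then (1 : ℚ) else 0) * a' e) =
        - ∑ e : R × C, if M e.1 e.2 = s then a' e else 0 := by
      rw [← Finset.sum_neg_distrib]
      apply Finset.sum_congr rfl
      intro e _
      by_cases h : M e.1 e.2 = s
      · simp [h]
      · simp [h, Ne.symm h]
    rw [h1]
    have h2 : (∑ e : R × C, if M e.1 e.2 = s then f e else 0) = σ s := by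
      obtain ⟨c, hc, hsum⟩ := sum_symbol n hC hS M hrow s (fun r c => f (r, c))
      have h3 : (∑ e : R × C, if M e.1 e.2 = s then f e else 0) = ∑ r, f (r, c r) := hsum
      have hcinj : Function.Injective c := by
        intro r r' h
        have h1 : M r (c r) = M r' (c r) := by
          rw [hc r, h, hc r']
        exact hcol (c r) h1
      rw [h3]
      simp only [hfdef, hc, Finset.sum_sub_distrib, ← Finset.sum_div, Finset.sum_add_distrib]
      have h4 : ∑ r, γ (c r) = T := by
        rw [← hγ]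
        exact Function.Bijective.sum_comp
          ((Fintype.bijective_iff_injective_and_card c).mpr ⟨hcinj, hR.trans hC.symm⟩) γ
      rw [h4, hρ]
      simp only [Finset.sum_const, Finset.card_univ, hR, nsmul_eq_mul]
      field_simp
      ring
    rw [h2]
    ring

end

end Pool.Agent.Lib.MP_185394_co.Near
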