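import Pool.Agent.Lib.MP_185394_co.Near.Gauge

/-!
The ten cells exchanged at the end of the construction of the plex.
-/

namespace Pool.Agent.Lib.MP_185394_co.Near

open Finset

set_option linter.unusedSectionVars false

/-- The ten cells: the first six are removed, the last four are added. -/
def ten {V : Type} [AddCommGroup V] (c p x y : V) : Fin 10 → V × V :=
  ![(c, p), (c + c + c, x + p - (c + c + c)), (x, c), (c + c + c + c - x, -(c + c)), (y, -y),
    (y - x + (c + c), c + c + c - (y - x + (c + c))), (x, p),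
    (c + c + c + c - x, x + p - (c + c + c)), (y, c + c + c - (y - x + (c + c))),
    (y - x + (c + c), -y)]

lemma ten_map {V W : Type} [AddCommGroup V] [AddCommGroup W] (φ : V →+ W) (c p x y : V)
    (i : Fin 10) : ten (φ c) (φ p) (φ x) (φ y) i =
      (φ (ten c p x y i).1, φ (ten c p x y i).2) := by
  fin_cases i <;> simp [ten]

variable {G : Type} [AddCommGroup G] [Fintype G] [DecidableEq G]

theorem exists_ten {κ : G} {nat : G → G → Prop} [∀ x y, Decidable (nat x y)] {t : ℕ}
    (hD : Dense κ nat t) (hκ : κ ≠ 0) (h2 : κ + κ ≠ 0) (h3 : κ + κ + κ ≠ 0)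
    (ht : 5 * t + 8 < Fintype.card G) :
    ∃ p x y : G, (∀ i, nat (ten κ p x y i).1 (ten κ p x y i).2) ∧
      Function.Injective (ten κ p x y) := by
  -- the class of the column `p`
  obtain ⟨p, hpB, hp⟩ := exists_avoid (B := ([κ, -(κ + κ)] : List G).toFinset)
    [univ.filter fun p => ¬ nat κ p] (t := t) (by simpa using hD.row κ hκ) (by
      have := List.toFinset_card_le ([κ, -(κ + κ)] : List G)
      simp only [List.length_cons, List.length_nil] at this ⊢
      omega)
  simp only [List.mem_toFinset, List.mem_cons, List.not_mem_nil, or_false, not_or] at hpB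
  have hp1 : nat κ p := by
    have := hp _ (List.mem_singleton.mpr rfl)
    simpa using this
  have hp0 : p ≠ 0 := hD.y0 _ _ hp1
  have h2' : -(κ + κ) ≠ 0 := neg_ne_zero.mpr h2
  have h3' : κ + κ + κ ≠ κ := fun h => h2 (by
    have : κ + κ + κ = κ + (κ + κ) := by abel
    rw [this] at h
    exact add_eq_left.mp h)
  -- the class of the row `x`
  have hc1 : (univ.filter fun x => ¬ nat (κ + κ + κ + κ - x) (-(κ + κ))).card ≤ t := by
    have := card_filter_comp (fun x => ¬ nat x (-(κ + κ))) (Equiv.subLeft (κ + κ + κ + κ))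
    simp only [Equiv.subLeft_apply] at this
    rw [this]
    exact hD.col _ h2'
  have hc2 : (univ.filter fun x => ¬ nat (κ + κ + κ) (x + p - (κ + κ + κ))).card ≤ t := by
    refine le_trans (Finset.card_le_card_of_injOn (fun x => x + p - (κ + κ + κ)) ?_ ?_)
      (hD.row _ h3)
    · intro x hx
      simpa using hx
    · intro x _ y _ h
      simpa using h
  have hc3 : (univ.filter fun x => ¬ nat (κ + κ + κ + κ - x) (x + p - (κ + κ + κ))).card ≤ t := by
    have := card_filter_comp (fun x => ¬ nat x ((κ + p) - x)) (Equiv.subLeft (κ + κ + κ + κ))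
    simp only [Equiv.subLeft_apply] at this
    have e : ∀ x, κ + p - (κ + κ + κ + κ - x) = x + p - (κ + κ + κ) := by
      intro x
      abel
    simp only [e] at this
    rw [this]
    exact hD.sym _ (fun h => hp0 (add_eq_left.mp h))
  obtain ⟨x, hxB, hx⟩ := exists_avoid (B := ([κ, κ + κ + κ, κ + κ, -κ, κ + κ + κ + κ - p,
      κ - p] : List G).toFinset)
    [univ.filter fun x => ¬ nat x κ, univ.filter fun x => ¬ nat x p,
      univ.filter fun x => ¬ nat (κ + κ + κ + κ - x) (-(κ + κ)),
      univ.filter fun x => ¬ nat (κ + κ + κ) (x + p - (κ + κ + κ)),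
      univ.filter fun x => ¬ nat (κ + κ + κ + κ - x) (x + p - (κ + κ + κ))] (t := t) (by
      intro s hs
      simp only [List.mem_cons, List.not_mem_nil, or_false] at hs
      rcases hs with rfl | rfl | rfl | rfl | rfl
      · exact hD.col _ hκ
      · exact hD.col _ hp0
      · exact hc1
      · exact hc2
      · exact hc3) (by
      have := List.toFinset_card_le ([κ, κ + κ + κ, κ + κ, -κ, κ + κ + κ + κ - p,
        κ - p] : List G)
      simp only [List.length_cons, List.length_nil] at this ⊢
      omega)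
  simp only [List.mem_toFinset, List.mem_cons, List.not_mem_nil, or_false, not_or] at hxB
  simp only [List.forall_mem_cons, mem_filter, mem_univ, true_and, not_not] at hx
  obtain ⟨hx1, hx2, hx3, hx4, hx5, -⟩ := hx
  obtain ⟨xB1, xB2, xB3, xB4, xB5, xB6⟩ := hxB
  have hx0 : x ≠ 0 := hD.x0 _ _ hx1
  -- the class of the row `y`
  have hd1 : (univ.filter fun y => ¬ nat y (-y)).card ≤ t := by
    have := hD.sym 0 (Ne.symm hκ)
    simpa only [zero_sub] using this
  have hd2 : (univ.filter fun y => ¬ nat (y - x + (κ + κ))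
      (κ + κ + κ - (y - x + (κ + κ)))).card ≤ t := by
    refine le_trans (Finset.card_le_card_of_injOn (fun y => y - x + (κ + κ)) ?_ ?_)
      (hD.sym _ h3')
    · intro y hy
      simpa using hy
    · intro y _ y' _ h
      simpa using h
  have hd3 : (univ.filter fun y => ¬ nat y (κ + κ + κ - (y - x + (κ + κ)))).card ≤ t := by
    have := hD.sym (x + κ) (fun h => hx0 (add_eq_right.mp h))
    have e : ∀ y, κ + κ + κ - (y - x + (κ + κ)) = x + κ - y := by
      intro y
      abel
    simp only [e]
    exact this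
  have hd4 : (univ.filter fun y => ¬ nat (y - x + (κ + κ)) (-y)).card ≤ t := by
    refine le_trans (Finset.card_le_card_of_injOn (fun y => y - x + (κ + κ)) ?_ ?_)
      (hD.sym (κ + κ - x) (fun h => xB1 ?_))
    · intro y hy
      have e : κ + κ - x - (y - x + (κ + κ)) = -y := by abel
      simp only [coe_filter, mem_univ, true_and, Set.mem_ofPred_eq] at hy ⊢
      rw [e]
      exact hy
    · intro y _ y' _ h
      simpa using h
    · have : x = κ + κ - (κ + κ - x) := by abel
      rw [this, h]
      abel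
  obtain ⟨y, hyB, hy⟩ := exists_avoid (B := ([κ, κ + κ + κ, x, κ + κ + κ + κ - x, x - κ, x + κ,
      x + x - (κ + κ), κ + κ] : List G).toFinset)
    [univ.filter fun y => ¬ nat y (-y), univ.filter fun y => ¬ nat (y - x + (κ + κ))
      (κ + κ + κ - (y - x + (κ + κ))),
      univ.filter fun y => ¬ nat y (κ + κ + κ - (y - x + (κ + κ))),
      univ.filter fun y => ¬ nat (y - x + (κ + κ)) (-y)] (t := t) (by
      intro s hs
      simp only [List.mem_cons, List.not_mem_nil, or_false] at hs
      rcases hs with rfl | rfl | rfl | rfl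
      · exact hd1
      · exact hd2
      · exact hd3
      · exact hd4) (by
      have := List.toFinset_card_le ([κ, κ + κ + κ, x, κ + κ + κ + κ - x, x - κ, x + κ,
        x + x - (κ + κ), κ + κ] : List G)
      simp only [List.length_cons, List.length_nil] at this ⊢
      omega)
  simp only [List.mem_toFinset, List.mem_cons, List.not_mem_nil, or_false, not_or] at hyB
  simp only [List.forall_mem_cons, mem_filter, mem_univ, true_and, not_not] at hy
  obtain ⟨hy1, hy2, hy3, hy4, -⟩ := hy
  obtain ⟨yB1, yB2, yB3, yB4, yB5, yB6, yB7, yB8⟩ := hyB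
  refine ⟨p, x, y, ?_, ?_⟩
  · intro i
    fin_cases i
    · exact hp1
    · exact hx4
    · exact hx1
    · exact hx3
    · exact hy1
    · exact hy2
    · exact hx2
    · exact hx5
    · exact hy3
    · exact hy4
  · -- distinctness
    have sub_ne : ∀ {a b d e : G}, a ≠ b → d - e = a - b ∨ d - e = b - a → d ≠ e := by
      intro a b d e h h' h''
      rw [h'', sub_self] at h'
      rcases h' with h' | h'
      · exact h (sub_eq_zero.mp h'.symm)
      · exact h (sub_eq_zero.mp h'.symm).symm
    have f1 : κ ≠ κ + κ + κ := h3'.symm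
    have f2 : κ ≠ κ + κ + κ + κ - x := sub_ne xB2 (by left; abel)
    have f3 : κ ≠ y - x + (κ + κ) := sub_ne yB5 (by right; abel)
    have f4 : κ + κ + κ ≠ κ + κ + κ + κ - x := sub_ne xB1 (by left; abel)
    have f5 : κ + κ + κ ≠ y - x + (κ + κ) := sub_ne yB6 (by right; abel)
    have f6 : x ≠ y - x + (κ + κ) := sub_ne yB7 (by right; abel)
    have f7 : κ + κ + κ + κ - x ≠ y := Ne.symm yB4
    have f8 : κ + κ + κ + κ - x ≠ y - x + (κ + κ) := sub_ne yB8 (by right; abel)
    have f9 : y ≠ y - x + (κ + κ) := sub_ne xB3 (by left; abel)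
    have c1 : κ ≠ -(κ + κ) := by
      intro h
      apply h3
      nth_rewrite 3 [h]
      abel
    have c2 : κ ≠ x + p - (κ + κ + κ) := sub_ne xB5 (by right; abel)
    have c3 : -(κ + κ) ≠ x + p - (κ + κ + κ) := sub_ne xB6 (by right; abel)
    have c4 : p ≠ x + p - (κ + κ + κ) := sub_ne xB2 (by right; abel)
    have c5 : -y ≠ κ + κ + κ - (y - x + (κ + κ)) := sub_ne xB4 (by right; abel)
    have g1 : κ ≠ x := Ne.symm xB1
    have g2 : κ ≠ y := Ne.symm yB1
    have g3 : κ + κ + κ ≠ x := Ne.symm xB2
    have g4 : κ + κ + κ ≠ y := Ne.symm yB2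
    have g5 : x ≠ y := Ne.symm yB3
    have g6 : κ ≠ p := Ne.symm hpB.1
    have g7 : -(κ + κ) ≠ p := Ne.symm hpB.2
    rw [← List.nodup_ofFn]
    show ([(κ, p), (κ + κ + κ, x + p - (κ + κ + κ)), (x, κ), (κ + κ + κ + κ - x, -(κ + κ)),
      (y, -y), (y - x + (κ + κ), κ + κ + κ - (y - x + (κ + κ))), (x, p),
      (κ + κ + κ + κ - x, x + p - (κ + κ + κ)), (y, κ + κ + κ - (y - x + (κ + κ))),
      (y - x + (κ + κ), -y)] : List (G × G)).Nodup
    generalize x + p - (κ + κ + κ) = q at *
    generalize κ + κ + κ - (y - x + (κ + κ)) = z5 at *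
    generalize κ + κ + κ + κ - x = z3 at *
    generalize y - x + (κ + κ) = z4 at *
    generalize κ + κ + κ = z1 at *
    generalize -(κ + κ) = z2 at *
    simp only [List.nodup_cons, List.mem_cons, Prod.mk.injEq, List.not_mem_nil, or_false, not_or,
      not_and, List.nodup_nil, and_true, not_false_eq_true]
    refine ⟨⟨?_, ?_, ?_, ?_, ?_, ?_, ?_, ?_, ?_⟩, ⟨?_, ?_, ?_, ?_, ?_, ?_, ?_, ?_⟩,
      ⟨?_, ?_, ?_, ?_, ?_, ?_, ?_⟩, ⟨?_, ?_, ?_, ?_, ?_, ?_⟩, ⟨?_, ?_, ?_, ?_, ?_⟩,
      ⟨?_, ?_, ?_, ?_⟩, ⟨?_, ?_, ?_⟩, ⟨?_, ?_⟩, ?_⟩ <;> intro h <;>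
    first
      | exact absurd h ‹_›
      | exact absurd h.symm ‹_›
      | (intro h'
         first
          | exact absurd h' ‹_›
          | exact absurd h'.symm ‹_›)

end Pool.Agent.Lib.MP_185394_co.Near
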