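import Pool.Agent.Lib.MP_185394_co.Near.Plex2

/-!
The nearly natural Latin square of order `β γ - 1`, built from class permutations of its rows.
-/

namespace Pool.Agent.Lib.MP_185394_co.Near

open Finset

set_option linter.unusedSectionVars false

/-- the class permutations of the rows -/
structure RowPerms {β γ : ℕ} [NeZero β] [NeZero γ]
    (ρ : ZMod β × ZMod γ → Equiv.Perm (ZMod β)) : Prop where
  count : ∀ Y Z, ((univ.filter fun r : ZMod β × ZMod γ => r ≠ 0 ∧ r.1 + ρ r Y = Z).card : ℤ) =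
    γ - ind (Z = 1 - Y)
  zero : ∀ r, r ≠ (1, 1) → ρ r 0 = 0
  one : ∀ r Y, r ≠ (1, 1) → r.1 + ρ r Y = 1 → ρ r Y = Y
  kap0 : ρ (1, 1) 0 = -1
  kap1 : ρ (1, 1) 1 = 0

/-- the lines assigned to the rows -/
structure Lines {β γ : ℕ} [NeZero β] [NeZero γ]
    (ρ : ZMod β × ZMod γ → Equiv.Perm (ZMod β))
    (l : ZMod β × ZMod γ → ZMod β → ZMod γ) : Prop where
  inj : ∀ Y r r', r ≠ 0 → r' ≠ 0 → r.1 + ρ r Y = r'.1 + ρ r' Y → l r Y = l r' Y →
    (Y ≠ 0 ∨ r.1 + ρ r Y ≠ 1) → r = r'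
  nat : ∀ Y r, r ≠ 0 → r.1 + ρ r Y ≠ 1 - Y → ρ r Y = Y → l r Y = r.2
  ne : ∀ Y r, r ≠ 0 → r.1 + ρ r Y = 1 - Y → Y ≠ 0 → l r Y ≠ 0
  kap0 : l (1, 1) 0 = 0
  kap1 : l (1, 1) 1 = 0

/-- the square -/
def smallSq {β γ : ℕ} (ρ : ZMod β × ZMod γ → Equiv.Perm (ZMod β))
    (l : ZMod β × ZMod γ → ZMod β → ZMod γ) (r s : ZMod β × ZMod γ) : ZMod β × ZMod γ :=
  if s.1 = 0 ∧ r.1 + ρ r s.1 = 1 then (1, 1 + (r.2 - 1) * s.2)
  else if r.1 + ρ r s.1 = 1 - s.1 then (r.1 + ρ r s.1, 1 + l r s.1 - s.2)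
  else if r.1 + ρ r s.1 = 1 ∧ s.2 + l r s.1 = 1 then (1, 1) - s
  else (r.1 + ρ r s.1, s.2 + l r s.1)

variable {β γ : ℕ} [NeZero β] [NeZero γ] {ρ : ZMod β × ZMod γ → Equiv.Perm (ZMod β)}
  {l : ZMod β × ZMod γ → ZMod β → ZMod γ}

/-- the four kinds of cells -/
lemma smallSq_cases (ρ : ZMod β × ZMod γ → Equiv.Perm (ZMod β))
    (l : ZMod β × ZMod γ → ZMod β → ZMod γ) (r s : ZMod β × ZMod γ) :
    (s.1 = 0 ∧ r.1 + ρ r s.1 = 1 ∧ smallSq ρ l r s = (1, 1 + (r.2 - 1) * s.2)) ∨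
    (s.1 ≠ 0 ∧ r.1 + ρ r s.1 = 1 - s.1 ∧
      smallSq ρ l r s = (r.1 + ρ r s.1, 1 + l r s.1 - s.2)) ∨
    (s.1 ≠ 0 ∧ r.1 + ρ r s.1 ≠ 1 - s.1 ∧ r.1 + ρ r s.1 = 1 ∧ s.2 + l r s.1 = 1 ∧
      smallSq ρ l r s = (1, 1) - s) ∨
    (r.1 + ρ r s.1 ≠ 1 - s.1 ∧ ¬ (r.1 + ρ r s.1 = 1 ∧ s.2 + l r s.1 = 1) ∧
      smallSq ρ l r s = (r.1 + ρ r s.1, s.2 + l r s.1)) := by
  unfold smallSq
  by_cases h1 : s.1 = 0 ∧ r.1 + ρ r s.1 = 1
  · left
    rw [if_pos h1]
    exact ⟨h1.1, h1.2, rfl⟩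
  rw [if_neg h1]
  by_cases h2 : r.1 + ρ r s.1 = 1 - s.1
  · right; left
    rw [if_pos h2]
    refine ⟨fun h => h1 ⟨h, ?_⟩, h2, rfl⟩
    rw [h2, h, sub_zero]
  rw [if_neg h2]
  by_cases h3 : r.1 + ρ r s.1 = 1 ∧ s.2 + l r s.1 = 1
  · right; right; left
    rw [if_pos h3]
    exact ⟨fun h => h1 ⟨h, h3.1⟩, h2, h3.1, h3.2, rfl⟩
  · right; right; right
    rw [if_neg h3]
    exact ⟨h2, h3, rfl⟩

lemma mul_row [Fact γ.Prime] {x y y' : ZMod γ} (hx : x ≠ 1)
    (h : 1 + (x - 1) * y = 1 + (x - 1) * y') : y = y' :=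
  mul_left_cancel₀ (sub_ne_zero.mpr hx) (add_left_cancel h)

lemma mul_col [Fact γ.Prime] {x x' y : ZMod γ} (hy : y ≠ 0)
    (h : 1 + (x - 1) * y = 1 + (x' - 1) * y) : x = x' :=
  sub_left_injective (mul_right_cancel₀ hy (add_left_cancel h))

lemma RowPerms.class_one (hρ : RowPerms ρ) (hβ : (1 : ZMod β) ≠ 0) {r : ZMod β × ZMod γ}
    (h : r.1 + ρ r 0 = 1) : r ≠ (1, 1) ∧ r.1 = 1 := by
  have h1 : r ≠ (1, 1) := by
    rintro rfl
    rw [hρ.kap0] at h
    simp only [add_neg_cancel] at h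
    exact hβ h.symm
  refine ⟨h1, ?_⟩
  rw [hρ.zero r h1, add_zero] at h
  exact h

/-- a hole is in the column complementary to its symbol -/
lemma RowPerms.hole (hρ : RowPerms ρ) (hl : Lines ρ l) {r s : ZMod β × ZMod γ} (hr : r ≠ 0)
    (h1 : r.1 + ρ r s.1 ≠ 1 - s.1)
    (h2 : r.1 + ρ r s.1 = 1) (h3 : s.2 + l r s.1 = 1) :
    (r ≠ (1, 1) ∧ (1, 1) - s = r) ∨ (r = (1, 1) ∧ s = (1, 1)) := by
  by_cases hr1 : r = (1, 1)
  · right
    subst hr1
    refine ⟨rfl, ?_⟩
    have h4 : ρ (1, 1) s.1 = ρ (1, 1) 1 := by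
      rw [hρ.kap1]
      exact add_eq_left.mp h2
    have h5 := (ρ (1, 1)).injective h4
    rw [h5, hl.kap1, add_zero] at h3
    exact Prod.ext h5 h3
  · left
    refine ⟨hr1, ?_⟩
    have h4 := hρ.one r s.1 hr1 h2
    have h5 := hl.nat s.1 r hr h1 h4
    rw [h5] at h3
    rw [h4] at h2
    rw [sub_eq_iff_eq_add]
    exact (Prod.ext h2 (by rw [← h3, add_comm]; rfl)).symm

theorem smallSq_punctured [Fact γ.Prime] (hρ : RowPerms ρ) (hl : Lines ρ l)
    (hβ : (1 : ZMod β) ≠ 0) : Punctured ((1, 1) : ZMod β × ZMod γ) (smallSq ρ l) where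
  ne := by
    intro r s hr hs h
    rcases smallSq_cases ρ l r s with ⟨h1, h2, h3⟩ | ⟨h1, h2, h3⟩ | ⟨h1, h2, h3, h4, h5⟩ |
      ⟨h1, h2, h3⟩
    · rw [h3] at h
      have h4 := (Prod.ext_iff.mp h).2
      simp only [add_eq_left] at h4
      rw [h1] at h2
      obtain ⟨h5, h6⟩ := hρ.class_one hβ h2
      rcases mul_eq_zero.mp h4 with h7 | h7
      · exact h5 (Prod.ext h6 (sub_eq_zero.mp h7))
      · exact hs (Prod.ext h1 h7)
    · rw [h3] at h
      have h4 := (Prod.ext_iff.mp h).1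
      simp only at h4
      rw [h2] at h4
      exact h1 (sub_eq_self.mp h4)
    · rw [h5] at h
      exact hs (sub_eq_self.mp h)
    · rw [h3] at h
      exact h2 ⟨(Prod.ext_iff.mp h).1, (Prod.ext_iff.mp h).2⟩
  row := by
    intro r hr s s' hs hs' h
    -- a hole against a non-hole
    have key : ∀ s s' : ZMod β × ZMod γ, s' ≠ 0 → s.1 ≠ 0 → r.1 + ρ r s.1 ≠ 1 - s.1 →
        r.1 + ρ r s.1 = 1 → s.2 + l r s.1 = 1 → (smallSq ρ l r s').1 = r.1 + ρ r s'.1 →
        smallSq ρ l r s' ≠ (1, 1) - s := by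
      intro s s' hs' h1 h2 h3 h4 h5 h6
      have h7 : r.1 + ρ r s'.1 = 1 - s.1 := by
        rw [← h5, h6]
        rfl
      -- the column has class zero
      have h8 : s'.1 = 0 ∧ l r 0 = 1 - s.2 := by
        rcases hρ.hole hl hr h2 h3 h4 with ⟨h9, h10⟩ | ⟨h9, h10⟩
        · have h11 : r.1 = 1 - s.1 := by rw [← h10]; rfl
          rw [← h11] at h7
          have h12 : ρ r s'.1 = ρ r 0 := by
            rw [hρ.zero r h9]
            exact add_eq_left.mp h7
          refine ⟨(ρ r).injective h12, ?_⟩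
          rw [hl.nat 0 r hr (by
            rw [hρ.zero r h9, add_zero, h11, sub_zero]
            intro h13
            exact h1 (sub_eq_self.mp h13)) (hρ.zero r h9)]
          rw [← h10]
          rfl
        · rw [h9, h10] at h7
          simp only [sub_self] at h7
          have h12 : ρ (1, 1) s'.1 = ρ (1, 1) 0 := by
            rw [hρ.kap0]
            exact (eq_neg_of_add_eq_zero_right h7)
          refine ⟨(ρ (1, 1)).injective h12, ?_⟩
          rw [h9, h10, hl.kap0]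
          simp
      obtain ⟨h8, h9⟩ := h8
      have hs2 : s'.2 ≠ 0 := fun h => hs' (Prod.ext h8 h)
      rcases smallSq_cases ρ l r s' with ⟨g1, g2, g3⟩ | ⟨g1, g2, g3⟩ | ⟨g1, g2, g3, g4, g5⟩ |
        ⟨g1, g2, g3⟩
      · rw [g2] at h7
        exact h1 (sub_eq_self.mp h7.symm)
      · exact g1 h8
      · exact g1 h8
      · rw [g3] at h6
        have h10 := (Prod.ext_iff.mp h6).2
        simp only [h8, Prod.snd_sub] at h10
        rw [h9] at h10
        exact hs2 (add_eq_right.mp h10)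
    rcases smallSq_cases ρ l r s with ⟨h1, h2, h3⟩ | ⟨h1, h2, h3⟩ | ⟨h1, h2, h3, h4, h5⟩ |
      ⟨h1, h2, h3⟩ <;>
    rcases smallSq_cases ρ l r s' with ⟨g1, g2, g3⟩ | ⟨g1, g2, g3⟩ | ⟨g1, g2, g3, g4, g5⟩ |
      ⟨g1, g2, g3⟩
    · rw [h3, g3] at h
      have h4 := (Prod.ext_iff.mp h).2
      simp only at h4
      rw [h1] at h2
      obtain ⟨h5, h6⟩ := hρ.class_one hβ h2
      have h7 : r.2 ≠ 1 := fun h7 => h5 (Prod.ext h6 h7)
      exact Prod.ext (h1.trans g1.symm) (mul_row h7 h4)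
    · rw [h3, g3] at h
      have h4 : (1 : ZMod β) = r.1 + ρ r s'.1 := (Prod.ext_iff.mp h).1
      rw [g2] at h4
      exact absurd (sub_eq_self.mp h4.symm) g1
    · exact absurd (h.trans g5) (key s' s hs g1 g2 g3 g4 (by rw [h3, h2]))
    · rw [h3, g3] at h
      have h4 : (1 : ZMod β) = r.1 + ρ r s'.1 := (Prod.ext_iff.mp h).1
      have h5 := (ρ r).injective (add_left_cancel (h2.trans h4))
      rw [← h4, ← h5, h1, sub_zero] at g1
      exact absurd rfl g1
    · rw [h3, g3] at h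
      have h4 : r.1 + ρ r s.1 = 1 := (Prod.ext_iff.mp h).1
      rw [h2] at h4
      exact absurd (sub_eq_self.mp h4) h1
    · rw [h3, g3] at h
      have h4 : r.1 + ρ r s.1 = r.1 + ρ r s'.1 := (Prod.ext_iff.mp h).1
      have h5 := (ρ r).injective (add_left_cancel h4)
      have h6 := (Prod.ext_iff.mp h).2
      simp only [h5] at h6
      exact Prod.ext h5 (sub_right_inj.mp h6)
    · exact absurd (h.trans g5) (key s' s hs g1 g2 g3 g4 (by rw [h3]))
    · rw [h3, g3] at h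
      have h4 : r.1 + ρ r s.1 = r.1 + ρ r s'.1 := (Prod.ext_iff.mp h).1
      have h5 := (ρ r).injective (add_left_cancel h4)
      rw [← h4, h2, h5] at g1
      exact absurd rfl g1
    · exact absurd (h.symm.trans h5) (key s s' hs' h1 h2 h3 h4 (by rw [g3, g2]))
    · exact absurd (h.symm.trans h5) (key s s' hs' h1 h2 h3 h4 (by rw [g3]))
    · rw [h5, g5] at h
      exact sub_right_inj.mp h
    · exact absurd (h.symm.trans h5) (key s s' hs' h1 h2 h3 h4 (by rw [g3]))
    · rw [h3, g3] at h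
      have h4 : r.1 + ρ r s.1 = 1 := (Prod.ext_iff.mp h).1
      have h5 := (ρ r).injective (add_left_cancel (h4.trans g2.symm))
      rw [h4, h5, g1, sub_zero] at h1
      exact absurd rfl h1
    · rw [h3, g3] at h
      have h4 : r.1 + ρ r s.1 = r.1 + ρ r s'.1 := (Prod.ext_iff.mp h).1
      have h5 := (ρ r).injective (add_left_cancel h4)
      rw [h4, g2, h5] at h1
      exact absurd rfl h1
    · exact absurd (h.trans g5) (key s' s hs g1 g2 g3 g4 (by rw [h3]))
    · rw [h3, g3] at h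
      have h4 : r.1 + ρ r s.1 = r.1 + ρ r s'.1 := (Prod.ext_iff.mp h).1
      have h5 := (ρ r).injective (add_left_cancel h4)
      have h6 := (Prod.ext_iff.mp h).2
      simp only [h5] at h6
      exact Prod.ext h5 (add_right_cancel h6)
  col := by
    intro s hs r r' hr hr' h
    have key : ∀ r r' : ZMod β × ZMod γ, r ≠ 0 → r' ≠ 0 → s.1 ≠ 0 → r.1 + ρ r s.1 ≠ 1 - s.1 →
        r.1 + ρ r s.1 = 1 → s.2 + l r s.1 = 1 → (smallSq ρ l r' s).1 = r'.1 + ρ r' s.1 →
        smallSq ρ l r' s ≠ (1, 1) - s := by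
      intro r r' hr hr' h1 h2 h3 h4 h5 h6
      have h7 : r'.1 + ρ r' s.1 = 1 - s.1 := by
        rw [← h5, h6]
        rfl
      rcases smallSq_cases ρ l r' s with ⟨g1, g2, g3⟩ | ⟨g1, g2, g3⟩ | ⟨g1, g2, g3, g4, g5⟩ |
        ⟨g1, g2, g3⟩
      · exact h1 g1
      · rw [g3] at h6
        have h8 : 1 + l r' s.1 - s.2 = 1 - s.2 := (Prod.ext_iff.mp h6).2
        exact hl.ne s.1 r' hr' g2 g1 (add_eq_left.mp (sub_left_inj.mp h8))
      · exact g2 h7
      · exact g1 h7
    rcases smallSq_cases ρ l r s with ⟨h1, h2, h3⟩ | ⟨h1, h2, h3⟩ | ⟨h1, h2, h3, h4, h5⟩ |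
      ⟨h1, h2, h3⟩ <;>
    rcases smallSq_cases ρ l r' s with ⟨g1, g2, g3⟩ | ⟨g1, g2, g3⟩ | ⟨g1, g2, g3, g4, g5⟩ |
      ⟨g1, g2, g3⟩
    · rw [h3, g3] at h
      have h4 := (Prod.ext_iff.mp h).2
      simp only at h4
      rw [h1] at h2 g2
      obtain ⟨h5, h6⟩ := hρ.class_one hβ h2
      obtain ⟨g5, g6⟩ := hρ.class_one hβ g2
      have h7 : s.2 ≠ 0 := fun h7 => hs (Prod.ext h1 h7)
      exact Prod.ext (h6.trans g6.symm) (mul_col h7 h4)
    · exact absurd h1 g1
    · exact absurd h1 g1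
    · rw [h3, g3] at h
      have h4 : (1 : ZMod β) = r'.1 + ρ r' s.1 := (Prod.ext_iff.mp h).1
      rw [← h4, h1, sub_zero] at g1
      exact absurd rfl g1
    · exact absurd g1 h1
    · rw [h3, g3] at h
      have h4 : r.1 + ρ r s.1 = r'.1 + ρ r' s.1 := (Prod.ext_iff.mp h).1
      have h5 : 1 + l r s.1 - s.2 = 1 + l r' s.1 - s.2 := (Prod.ext_iff.mp h).2
      exact hl.inj s.1 r r' hr hr' h4 (add_left_cancel (sub_left_inj.mp h5)) (Or.inl h1)
    · exact absurd (h.trans g5) (key r' r hr' hr g1 g2 g3 g4 (by rw [h3]))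
    · rw [h3, g3] at h
      have h4 : r.1 + ρ r s.1 = r'.1 + ρ r' s.1 := (Prod.ext_iff.mp h).1
      rw [← h4, h2] at g1
      exact absurd rfl g1
    · exact absurd g1 h1
    · exact absurd (h.symm.trans h5) (key r r' hr hr' h1 h2 h3 h4 (by rw [g3]))
    · have h6 : l r s.1 = l r' s.1 := add_left_cancel (h4.trans g4.symm)
      exact hl.inj s.1 r r' hr hr' (h3.trans g3.symm) h6 (Or.inl h1)
    · exact absurd (h.symm.trans h5) (key r r' hr hr' h1 h2 h3 h4 (by rw [g3]))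
    · rw [h3, g3] at h
      have h4 : r.1 + ρ r s.1 = 1 := (Prod.ext_iff.mp h).1
      rw [h4, g1, sub_zero] at h1
      exact absurd rfl h1
    · rw [h3, g3] at h
      have h4 : r.1 + ρ r s.1 = r'.1 + ρ r' s.1 := (Prod.ext_iff.mp h).1
      rw [h4, g2] at h1
      exact absurd rfl h1
    · exact absurd (h.trans g5) (key r' r hr' hr g1 g2 g3 g4 (by rw [h3]))
    · rw [h3, g3] at h
      have h4 : r.1 + ρ r s.1 = r'.1 + ρ r' s.1 := (Prod.ext_iff.mp h).1
      have h5 : s.2 + l r s.1 = s.2 + l r' s.1 := (Prod.ext_iff.mp h).2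
      refine hl.inj s.1 r r' hr hr' h4 (add_left_cancel h5) ?_
      by_cases hs0 : s.1 = 0
      · right
        rw [hs0, sub_zero] at h1
        rw [hs0]
        exact h1
      · exact Or.inl hs0

lemma exists_inj_extend {E F : Type} [DecidableEq E] [Fintype F] [DecidableEq F] (S T : Finset E)
    (f0 : E → F) (hTS : T ⊆ S) (hT : Set.InjOn f0 T) (hS : S.card ≤ Fintype.card F) :
    ∃ f : E → F, Set.InjOn f S ∧ ∀ x ∈ T, f x = f0 x := by
  classical
  have h1 : (T.image f0).card = T.card := Finset.card_image_of_injOn hT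
  have h2 : (S \ T).card ≤ (univ \ T.image f0).card := by
    rw [Finset.card_sdiff_of_subset hTS, Finset.card_sdiff_of_subset (Finset.subset_univ _),
      Finset.card_univ, h1]
    omega
  obtain ⟨U, hU1, hU2⟩ := Finset.exists_subset_card_eq h2
  have e := Finset.equivOfCardEq hU2.symm
  refine ⟨fun x => if h : x ∈ S \ T then (e ⟨x, h⟩ : F) else f0 x, ?_, ?_⟩
  · intro x hx y hy hxy
    simp only at hxy
    by_cases h3 : x ∈ S \ T
    · by_cases h4 : y ∈ S \ T
      · rw [dif_pos h3, dif_pos h4] at hxy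
        have := e.injective (Subtype.ext hxy)
        exact congrArg Subtype.val this
      · rw [dif_pos h3, dif_neg h4] at hxy
        have h5 : y ∈ T := by
          by_contra h5
          exact h4 (Finset.mem_sdiff.mpr ⟨hy, h5⟩)
        have h6 := hU1 (e ⟨x, h3⟩).2
        rw [hxy] at h6
        exact absurd (Finset.mem_image_of_mem f0 h5) (Finset.mem_sdiff.mp h6).2
    · by_cases h4 : y ∈ S \ T
      · rw [dif_neg h3, dif_pos h4] at hxy
        have h5 : x ∈ T := by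
          by_contra h5
          exact h3 (Finset.mem_sdiff.mpr ⟨hx, h5⟩)
        have h6 := hU1 (e ⟨y, h4⟩).2
        rw [← hxy] at h6
        exact absurd (Finset.mem_image_of_mem f0 h5) (Finset.mem_sdiff.mp h6).2
      · rw [dif_neg h3, dif_neg h4] at hxy
        have h5 : x ∈ T := by
          by_contra h5
          exact h3 (Finset.mem_sdiff.mpr ⟨hx, h5⟩)
        have h6 : y ∈ T := by
          by_contra h6
          exact h4 (Finset.mem_sdiff.mpr ⟨hy, h6⟩)
        exact hT h5 h6 hxy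
  · intro x hx
    have : x ∉ S \ T := fun h => (Finset.mem_sdiff.mp h).2 hx
    simp only
    rw [dif_neg this]

theorem RowPerms.exists_lines (hρ : RowPerms ρ) (hβ : (1 : ZMod β) ≠ 0) :
    ∃ l : ZMod β × ZMod γ → ZMod β → ZMod γ, Lines ρ l := by
  classical
  have hcard : ∀ Y Z, (univ.filter fun r : ZMod β × ZMod γ => r ≠ 0 ∧ r.1 + ρ r Y = Z).card ≤
      γ := by
    intro Y Z
    have h1 := hρ.count Y Z
    have h2 := ind_nonneg (Z = 1 - Y)
    have h3 : ((univ.filter fun r : ZMod β × ZMod γ => r ≠ 0 ∧ r.1 + ρ r Y = Z).card : ℤ) ≤ γ := by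
      omega
    exact_mod_cast h3
  have key : ∀ Y Z, ∃ f : ZMod β × ZMod γ → ZMod γ,
      Set.InjOn f (univ.filter fun r : ZMod β × ZMod γ => r ≠ 0 ∧ r.1 + ρ r Y = Z) ∧
      (Z ≠ 1 - Y → ∀ r, r ≠ 0 → r.1 + ρ r Y = Z → ρ r Y = Y → f r = r.2) ∧
      (Z = 1 - Y → ∀ r, r ≠ 0 → r.1 + ρ r Y = Z → f r ≠ 0) ∧
      ((Y = 0 ∧ Z = 0) ∨ (Y = 1 ∧ Z = 1) → f (1, 1) = 0) := by
    intro Y Z
    by_cases hZ : Z = 1 - Y
    · -- the reflected classes
      set S := univ.filter fun r : ZMod β × ZMod γ => r ≠ 0 ∧ r.1 + ρ r Y = Z with hS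
      have h1 := hρ.count Y Z
      rw [ind_true hZ, ← hS] at h1
      have h2 : S.card = ((univ : Finset (ZMod γ)).erase 0).card := by
        rw [Finset.card_erase_of_mem (mem_univ _), Finset.card_univ, ZMod.card]
        have : 0 < γ := Nat.pos_of_ne_zero (NeZero.ne γ)
        omega
      have e := Finset.equivOfCardEq h2
      refine ⟨fun r => if h : r ∈ S then (e ⟨r, h⟩ : ZMod γ) else 0, ?_, fun h => absurd hZ h,
        ?_, ?_⟩
      · intro x hx y hy hxy
        have hx' : x ∈ S := hx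
        have hy' : y ∈ S := hy
        simp only [dif_pos hx', dif_pos hy'] at hxy
        exact congrArg Subtype.val (e.injective (Subtype.ext hxy))
      · intro _ r hr hrZ
        have hr' : r ∈ S := mem_filter.mpr ⟨mem_univ _, hr, hrZ⟩
        simp only [dif_pos hr']
        exact (Finset.mem_erase.mp (e ⟨r, hr'⟩).2).1
      · rintro (⟨h3, h4⟩ | ⟨h3, h4⟩)
        · rw [h3, h4, sub_zero] at hZ
          exact absurd hZ.symm hβ
        · rw [h3, h4, sub_self] at hZ
          exact absurd hZ hβ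
    · set S := univ.filter fun r : ZMod β × ZMod γ => r ≠ 0 ∧ r.1 + ρ r Y = Z with hS
      have hκ0 : ((1, 1) : ZMod β × ZMod γ) ≠ 0 := fun h => hβ (Prod.ext_iff.mp h).1
      by_cases hYZ : (Y = 0 ∧ Z = 0) ∨ (Y = 1 ∧ Z = 1)
      · -- the two classes with a special line
        have hκS : (1, 1) ∈ S := by
          refine mem_filter.mpr ⟨mem_univ _, hκ0, ?_⟩
          rcases hYZ with ⟨h3, h4⟩ | ⟨h3, h4⟩
          · rw [h3, h4, hρ.kap0]
            exact add_neg_cancel 1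
          · rw [h3, h4, hρ.kap1]
            exact add_zero 1
        have hκn : ρ (1, 1) Y ≠ Y := by
          rcases hYZ with ⟨h3, h4⟩ | ⟨h3, h4⟩
          · rw [h3, hρ.kap0]
            exact neg_ne_zero.mpr hβ
          · rw [h3, hρ.kap1]
            exact hβ.symm
        have hZY : Z - Y = 0 := by
          rcases hYZ with ⟨h3, h4⟩ | ⟨h3, h4⟩ <;> rw [h3, h4, sub_self]
        obtain ⟨f, hf1, hf2⟩ := exists_inj_extend S
          (insert (1, 1) (S.filter fun r => ρ r Y = Y))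
          (fun r => if r = (1, 1) then (0 : ZMod γ) else r.2) (by
            intro r hr
            rcases Finset.mem_insert.mp hr with h | h
            · rw [h]
              exact hκS
            · exact (mem_filter.mp h).1) (by
            have hn : ∀ r ∈ S.filter (fun r => ρ r Y = Y), r ≠ (1, 1) ∧ r.1 = 0 ∧ r.2 ≠ 0 := by
              intro r hr
              have h3 := mem_filter.mp hr
              have h4 := (mem_filter.mp h3.1).2
              have h5 : r.1 = 0 := by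
                have h6 := h4.2
                rw [h3.2] at h6
                rw [← hZY, ← h6, add_sub_cancel_right]
              refine ⟨fun h => hκn (h ▸ h3.2), h5, fun h => h4.1 (Prod.ext h5 h)⟩
            intro x hx y hy hxy
            rw [mem_coe, Finset.mem_insert] at hx hy
            simp only at hxy
            rcases hx with hx | hx <;> rcases hy with hy | hy
            · rw [hx, hy]
            · obtain ⟨h3, h4, h5⟩ := hn y hy
              rw [if_pos hx, if_neg h3] at hxy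
              exact absurd hxy.symm h5
            · obtain ⟨h3, h4, h5⟩ := hn x hx
              rw [if_pos hy, if_neg h3] at hxy
              exact absurd hxy h5
            · obtain ⟨h3, h4, h5⟩ := hn x hx
              obtain ⟨g3, g4, g5⟩ := hn y hy
              rw [if_neg h3, if_neg g3] at hxy
              exact Prod.ext (h4.trans g4.symm) hxy) (by
            rw [ZMod.card]
            exact hcard Y Z)
        refine ⟨f, hf1, ?_, fun h => absurd h hZ, ?_⟩
        · intro _ r hr hrZ hrn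
          have hrS : r ∈ S := mem_filter.mpr ⟨mem_univ _, hr, hrZ⟩
          rw [hf2 r (Finset.mem_insert_of_mem (mem_filter.mpr ⟨hrS, hrn⟩)),
            if_neg (fun h : r = (1, 1) => hκn (h ▸ hrn))]
        · intro _
          rw [hf2 _ (Finset.mem_insert_self _ _), if_pos rfl]
      · obtain ⟨f, hf1, hf2⟩ := exists_inj_extend S (S.filter fun r => ρ r Y = Y)
          (fun r => r.2) (Finset.filter_subset _ _) (by
            intro x hx y hy hxy
            rw [mem_coe, mem_filter] at hx hy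
            have h3 := (mem_filter.mp hx.1).2.2
            have h4 := (mem_filter.mp hy.1).2.2
            rw [hx.2] at h3
            rw [hy.2] at h4
            exact Prod.ext (add_right_cancel (h3.trans h4.symm)) hxy) (by
            rw [ZMod.card]
            exact hcard Y Z)
        refine ⟨f, hf1, ?_, fun h => absurd h hZ, fun h => absurd h hYZ⟩
        intro _ r hr hrZ hrn
        have hrS : r ∈ S := mem_filter.mpr ⟨mem_univ _, hr, hrZ⟩
        exact hf2 r (mem_filter.mpr ⟨hrS, hrn⟩)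
  choose f hf1 hf2 hf3 hf4 using key
  refine ⟨fun r Y => f Y (r.1 + ρ r Y) r, ?_, ?_, ?_, ?_, ?_⟩
  · intro Y r r' hr hr' h h' _
    rw [← h] at h'
    exact hf1 Y (r.1 + ρ r Y) (mem_coe.mpr (mem_filter.mpr ⟨mem_univ _, hr, rfl⟩))
      (mem_coe.mpr (mem_filter.mpr ⟨mem_univ _, hr', h.symm⟩)) h'
  · intro Y r hr h1 h2
    exact hf2 Y _ h1 r hr rfl h2
  · intro Y r hr h1 _
    exact hf3 Y _ h1 r hr rfl
  · apply hf4
    left
    refine ⟨rfl, ?_⟩
    rw [hρ.kap0]
    exact add_neg_cancel 1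
  · apply hf4
    right
    refine ⟨rfl, ?_⟩
    rw [hρ.kap1]
    exact add_zero 1

end Pool.Agent.Lib.MP_185394_co.Near
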