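import Pool.Agent.Lib.MP_185394_co.Near.Blow
import Pool.Agent.Lib.MP_185394_co.Near.Rat
import Pool.Agent.Lib.MP_185394_co.Near.Int

/-!
Weights on the blocks of a nearly natural Latin square.
-/

namespace Pool.Agent.Lib.MP_185394_co.Near

open Finset

set_option linter.unusedSectionVars false

variable {G : Type} [AddCommGroup G] [Fintype G] [DecidableEq G]

/-- the natural blocks -/
def Good (κ : G) (M : G → G → G) (X Y : G) : Prop :=
  X ≠ 0 ∧ Y ≠ 0 ∧ X + Y ≠ κ ∧ M X Y = X + Y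

instance (κ : G) (M : G → G → G) (X Y : G) : Decidable (Good κ M X Y) := by
  unfold Good
  infer_instance

lemma sum_subtype_ne {A : Type} [AddCommMonoid A] (x0 : G) (f : G → A) (h0 : f x0 = 0) :
    ∑ a : {a : G // a ≠ x0}, f a.1 = ∑ a, f a := by
  rw [← Finset.sum_subtype (univ.erase x0) (fun x => by simp) f]
  exact Finset.sum_erase _ h0

/-- rational weights -/
theorem exists_rat_G {κ : G} {M : G → G → G} (hM : Punctured κ M) {t : ℕ}
    (hD : Dense κ (Good κ M) t) (hG : 2 ≤ Fintype.card G) (ht : 40 * t + 1 ≤ Fintype.card G)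
    (ρ γ σ : G → ℚ) (hρ0 : ρ 0 = 0) (hγ0 : γ 0 = 0) (hσ0 : σ κ = 0) (T : ℚ)
    (hρ : ∑ X, ρ X = T) (hγ : ∑ X, γ X = T) (hσ : ∑ X, σ X = T) (lo hi : ℚ) (hhi : 0 < hi)
    (hlo : 7 * hi ≤ 8 * lo) (hn : 2 * (3 * hi - 2 * lo) + 1 ≤ Fintype.card G)
    (hρb : ∀ X, X ≠ 0 → lo ≤ ρ X ∧ ρ X ≤ hi) (hγb : ∀ X, X ≠ 0 → lo ≤ γ X ∧ γ X ≤ hi)
    (hσb : ∀ X, X ≠ κ → lo ≤ σ X ∧ σ X ≤ hi) :
    ∃ q : G → G → ℚ, (∀ X Y, ¬ Good κ M X Y → q X Y = 0) ∧
      (∀ X Y, Good κ M X Y → 0 < q X Y ∧ q X Y < 1) ∧ (∀ X, ∑ Y, q X Y = ρ X) ∧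
      (∀ Y, ∑ X, q X Y = γ Y) ∧ ∀ Z, ∑ X, q X (Z - X) = σ Z := by
  set n := Fintype.card G - 1 with hndef
  have hn0 : 0 < n := by omega
  have hn0' : (0 : ℚ) < n := by exact_mod_cast hn0
  have hnG : (Fintype.card G : ℚ) = n + 1 := by
    have : Fintype.card G = n + 1 := by omega
    exact_mod_cast this
  have hcard : ∀ x0 : G, Fintype.card {a : G // a ≠ x0} = n := by
    intro x0
    rw [Fintype.card_subtype_compl]
    simp [hndef]
  let M' : {a : G // a ≠ 0} → {a : G // a ≠ 0} → {a : G // a ≠ κ} := fun X Y =>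
    ⟨M X.1 Y.1, hM.ne _ _ X.2 Y.2⟩
  have hrow : ∀ X, Function.Injective (M' X) := fun X Y Y' h =>
    Subtype.ext (hM.row X.1 X.2 _ _ Y.2 Y'.2 (Subtype.ext_iff.mp h))
  have hcol : ∀ Y, Function.Injective (fun X => M' X Y) := fun Y X X' h =>
    Subtype.ext (hM.col Y.1 Y.2 _ _ X.2 X'.2 (Subtype.ext_iff.mp h))
  let N : Finset ({a : G // a ≠ 0} × {a : G // a ≠ 0}) :=
    univ.filter fun e => ¬ Good κ M e.1.1 e.2.1
  have hNr : ∀ r, (N.filter fun e => e.1 = r).card ≤ t := by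
    intro r
    refine le_trans ?_ (hD.row r.1 r.2)
    apply Finset.card_le_card_of_injOn (fun e => e.2.1)
    · intro e he
      rw [mem_coe, mem_filter] at he
      rw [mem_coe, mem_filter]
      refine ⟨mem_univ _, ?_⟩
      rw [← he.2]
      exact (mem_filter.mp he.1).2
    · intro e he e' he' h
      rw [mem_coe, mem_filter] at he he'
      exact Prod.ext (he.2.trans he'.2.symm) (Subtype.ext h)
  have hNc : ∀ r, (N.filter fun e => e.2 = r).card ≤ t := by
    intro r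
    refine le_trans ?_ (hD.col r.1 r.2)
    apply Finset.card_le_card_of_injOn (fun e => e.1.1)
    · intro e he
      rw [mem_coe, mem_filter] at he
      rw [mem_coe, mem_filter]
      refine ⟨mem_univ _, ?_⟩
      rw [← he.2]
      exact (mem_filter.mp he.1).2
    · intro e he e' he' h
      rw [mem_coe, mem_filter] at he he'
      exact Prod.ext (Subtype.ext h) (he.2.trans he'.2.symm)
  have hNs : ∀ s, (N.filter fun e => M' e.1 e.2 = s).card ≤ t := by
    intro s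
    refine le_trans ?_ (hD.sym s.1 s.2)
    apply Finset.card_le_card_of_injOn (fun e => e.1.1)
    · intro e he
      rw [mem_coe, mem_filter] at he
      rw [mem_coe, mem_filter]
      refine ⟨mem_univ _, fun hg => ?_⟩
      have h1 : M e.1.1 e.2.1 = s.1 := Subtype.ext_iff.mp he.2
      have h2 := hg.2.2.2
      rw [add_sub_cancel, ← h1] at h2
      have h3 := hM.row e.1.1 e.1.2 _ _ (by rw [h1]; exact hg.2.1) e.2.2 h2
      rw [h1] at h3
      rw [h3] at hg
      exact (mem_filter.mp he.1).2 hg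
    · intro e he e' he' h
      rw [mem_coe, mem_filter] at he he'
      have h0 : e.1 = e'.1 := Subtype.ext h
      refine Prod.ext h0 ?_
      have h1 := he.2.trans he'.2.symm
      rw [h0] at h1
      exact hrow _ h1
  have hTlo : (n : ℚ) * lo ≤ T := by
    rw [← hρ, ← sum_subtype_ne 0 ρ hρ0]
    have h1 : ∑ _a : {a : G // a ≠ 0}, lo ≤ ∑ a : {a : G // a ≠ 0}, ρ a.1 :=
      Finset.sum_le_sum fun a _ => (hρb a.1 a.2).1
    rw [Finset.sum_const, Finset.card_univ, hcard, nsmul_eq_mul] at h1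
    exact h1
  have hThi : T ≤ (n : ℚ) * hi := by
    rw [← hρ, ← sum_subtype_ne 0 ρ hρ0]
    have h1 : ∑ a : {a : G // a ≠ 0}, ρ a.1 ≤ ∑ _a : {a : G // a ≠ 0}, hi :=
      Finset.sum_le_sum fun a _ => (hρb a.1 a.2).2
    rw [Finset.sum_const, Finset.card_univ, hcard, nsmul_eq_mul] at h1
    exact h1
  have hT2 : ∀ x : ℚ, x / n - 2 * T / (n : ℚ) ^ 2 = (x - 2 * (T / n)) / n := by
    intro x
    field_simp
  have hTn1 : lo ≤ T / n := by rw [le_div_iff₀ hn0']; linarith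
  have hTn2 : T / n ≤ hi := by rw [div_le_iff₀ hn0']; linarith
  obtain ⟨q, hq0, hq1, hqr, hqc, hqs⟩ := exists_rat_weights n hn0 (hcard 0) (hcard 0) (hcard κ)
    M' hrow hcol N t hNr hNc hNs (by omega) (fun X => ρ X.1) (fun Y => γ Y.1) (fun Z => σ Z.1) T
    (by rw [sum_subtype_ne 0 ρ hρ0, hρ]) (by rw [sum_subtype_ne 0 γ hγ0, hγ])
    (by rw [sum_subtype_ne κ σ hσ0, hσ]) ((3 * hi - 2 * lo) / n)
    (div_pos (by linarith [hTn1.trans hTn2]) hn0') (by
      rw [div_le_div_iff₀ hn0' (by norm_num)]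
      rw [hnG] at hn
      linarith) (by
      intro r c
      rw [hT2, div_div, mul_comm (n : ℚ) 2, ← div_div]
      have h1 := hρb r.1 r.2
      have h2 := hγb c.1 c.2
      have h3 := hσb (M' r c).1 (M' r c).2
      constructor
      · apply div_le_div_of_nonneg_right _ hn0'.le
        linarith [h1.1, h2.1, h3.1]
      · apply div_le_div_of_nonneg_right _ hn0'.le
        linarith [h1.2, h2.2, h3.2])
  let q' : G → G → ℚ := fun X Y => if h : X ≠ 0 ∧ Y ≠ 0 then q ⟨X, h.1⟩ ⟨Y, h.2⟩ else 0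
  have hq' : ∀ X Y (h : X ≠ 0 ∧ Y ≠ 0), q' X Y = q ⟨X, h.1⟩ ⟨Y, h.2⟩ := fun X Y h => dif_pos h
  have hq'g : ∀ X Y, ¬ Good κ M X Y → q' X Y = 0 := by
    intro X Y hg
    by_cases h : X ≠ 0 ∧ Y ≠ 0
    · rw [hq' X Y h]
      exact hq0 _ _ (mem_filter.mpr ⟨mem_univ _, hg⟩)
    · simp only [q', dif_neg h]
  have hq'0 : ∀ X Y, (X = 0 ∨ Y = 0) → q' X Y = 0 := by
    intro X Y h
    apply hq'g
    rintro ⟨h1, h2, -, -⟩
    rcases h with h | h
    · exact h1 h
    · exact h2 h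
  refine ⟨q', hq'g, ?_, ?_, ?_, ?_⟩
  · intro X Y hg
    rw [hq' X Y ⟨hg.1, hg.2.1⟩]
    refine hq1 _ _ (fun h => ?_)
    exact (mem_filter.mp h).2 hg
  · intro X
    by_cases hX : X = 0
    · rw [hX, hρ0]
      exact Finset.sum_eq_zero fun Y _ => hq'0 _ _ (Or.inl rfl)
    · rw [← hqr ⟨X, hX⟩, ← sum_subtype_ne 0 (fun Y => q' X Y) (hq'0 _ _ (Or.inr rfl))]
      apply Finset.sum_congr rfl
      intro Y _
      exact hq' X Y.1 ⟨hX, Y.2⟩
  · intro Y
    by_cases hY : Y = 0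
    · rw [hY, hγ0]
      exact Finset.sum_eq_zero fun X _ => hq'0 _ _ (Or.inr rfl)
    · rw [← hqc ⟨Y, hY⟩, ← sum_subtype_ne 0 (fun X => q' X Y) (hq'0 _ _ (Or.inl rfl))]
      apply Finset.sum_congr rfl
      intro X _
      exact hq' X.1 Y ⟨X.2, hY⟩
  · intro Z
    by_cases hZ : Z = κ
    · rw [hZ, hσ0]
      refine Finset.sum_eq_zero fun X _ => hq'g _ _ ?_
      rintro ⟨-, -, h, -⟩
      exact h (add_sub_cancel _ _)
    · rw [← hqs ⟨Z, hZ⟩, Fintype.sum_prod_type]
      rw [← sum_subtype_ne 0 (fun X => q' X (Z - X)) (hq'0 _ _ (Or.inl rfl))]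
      apply Finset.sum_congr rfl
      intro X _
      have h1 : ∀ Y : {a : G // a ≠ 0}, (if M' X Y = ⟨Z, hZ⟩ then q X Y else 0) =
          if Y.1 = Z - X.1 then q' X.1 Y.1 else 0 := by
        intro Y
        rw [hq' X.1 Y.1 ⟨X.2, Y.2⟩]
        by_cases hg : Good κ M X.1 Y.1
        · have h2 : M' X Y = ⟨Z, hZ⟩ ↔ Y.1 = Z - X.1 := by
            rw [Subtype.ext_iff]
            show M X.1 Y.1 = Z ↔ _
            rw [hg.2.2.2, eq_sub_iff_add_eq, add_comm]
          by_cases h3 : M' X Y = ⟨Z, hZ⟩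
          · rw [if_pos h3, if_pos (h2.mp h3)]
          · rw [if_neg h3, if_neg (fun h => h3 (h2.mpr h))]
        · have h2 : q X Y = 0 := hq0 _ _ (mem_filter.mpr ⟨mem_univ _, hg⟩)
          show (if M' X Y = ⟨Z, hZ⟩ then q X Y else 0) = if Y.1 = Z - X.1 then q X Y else 0
          rw [h2]
          simp
      have h2 : ∑ Y : {a : G // a ≠ 0}, (if M' (X, Y).1 (X, Y).2 = ⟨Z, hZ⟩ then
          q (X, Y).1 (X, Y).2 else 0) = ∑ Y : {a : G // a ≠ 0},
          if Y.1 = Z - X.1 then q' X.1 Y.1 else 0 := Finset.sum_congr rfl fun Y _ => h1 Y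
      rw [h2, sum_subtype_ne 0 (fun Y => if Y = Z - X.1 then q' X.1 Y else 0)]
      · simp
      · split_ifs
        · exact hq'0 _ _ (Or.inr rfl)
        · rfl

/-- integral multiples of the rational weights -/
theorem exists_scaled {κ : G} {M : G → G → G} {q : G → G → ℚ}
    (hq0 : ∀ X Y, ¬ Good κ M X Y → q X Y = 0) (hq1 : ∀ X Y, Good κ M X Y → 0 < q X Y ∧ q X Y < 1) :
    ∃ (D : ℕ) (w : G → G → ℤ), 0 < D ∧ (∀ X Y, (w X Y : ℚ) = D * q X Y) ∧
      (∀ X Y, ¬ Good κ M X Y → w X Y = 0) ∧ ∀ X Y, Good κ M X Y → 1 ≤ w X Y ∧ w X Y + 1 ≤ D := by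
  let D : ℕ := ∏ X, ∏ Y, (q X Y).den
  have hD : 0 < D := Finset.prod_pos fun X _ => Finset.prod_pos fun Y _ => (q X Y).den_pos
  have hdvd : ∀ X Y, (q X Y).den ∣ D := fun X Y =>
    (Finset.dvd_prod_of_mem (fun Y => (q X Y).den) (mem_univ Y)).trans
      (Finset.dvd_prod_of_mem (fun X => ∏ Y, (q X Y).den) (mem_univ X))
  have hex : ∀ X Y, ∃ w : ℤ, (w : ℚ) = D * q X Y := by
    intro X Y
    obtain ⟨k, hk⟩ := hdvd X Y
    refine ⟨k * (q X Y).num, ?_⟩
    rw [hk]
    push_cast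
    have h1 : ((q X Y).den : ℚ) * q X Y = (q X Y).num := Rat.den_mul_eq_num _
    rw [← h1]
    ring
  choose w hw using hex
  have hD' : (0 : ℚ) < D := by exact_mod_cast hD
  refine ⟨D, w, hD, hw, ?_, ?_⟩
  · intro X Y h
    have h1 := hw X Y
    rw [hq0 X Y h, mul_zero] at h1
    exact_mod_cast h1
  · intro X Y h
    obtain ⟨h1, h2⟩ := hq1 X Y h
    have h3 : (0 : ℚ) < w X Y := by rw [hw]; positivity
    have h4 : (w X Y : ℚ) < D := by
      rw [hw]
      nlinarith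
    constructor
    · have : 0 < w X Y := by exact_mod_cast h3
      omega
    · have : w X Y < D := by exact_mod_cast h4
      omega

/-- the indicator of a proposition, as an integer -/
def ind (p : Prop) [Decidable p] : ℤ := if p then 1 else 0

lemma ind_true {p : Prop} [Decidable p] (h : p) : ind p = 1 := if_pos h

lemma ind_false {p : Prop} [Decidable p] (h : ¬ p) : ind p = 0 := if_neg h

lemma ind_nonneg (p : Prop) [Decidable p] : 0 ≤ ind p := by
  unfold ind
  split_ifs <;> norm_num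

lemma ind_le_one (p : Prop) [Decidable p] : ind p ≤ 1 := by
  unfold ind
  split_ifs <;> norm_num

/-- number of touched blocks in a row -/
def tRow (κ : G) (M : G → G → G) (X : G) : ℤ := ∑ Y, ind (Touched κ M X Y)

/-- number of touched blocks in a column -/
def tCol (κ : G) (M : G → G → G) (Y : G) : ℤ := ∑ X, ind (Touched κ M X Y)

/-- number of touched blocks with a given natural symbol -/
def tSym (κ : G) (M : G → G → G) (Z : G) : ℤ := ∑ X, ind (Touched κ M X (Z - X))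

lemma sum_reindex {A : Type} [AddCommMonoid A] (f : G → G → A) :
    ∑ Z, ∑ X, f X (Z - X) = ∑ X, ∑ Y, f X Y := by
  rw [Finset.sum_comm]
  apply Finset.sum_congr rfl
  intro X _
  exact Equiv.sum_comp (Equiv.subRight X) (fun Y => f X Y)

lemma sum_add_self : (∑ a : G, a) + ∑ a : G, a = 0 := by
  have h1 : ∑ a : G, a = ∑ a : G, -a := (Equiv.sum_comp (Equiv.neg G) (fun a => a)).symm
  nth_rewrite 2 [h1]
  rw [Finset.sum_neg_distrib, add_neg_cancel]

lemma sum_ind_eq (x : G) : ∑ X, ind (X = x) = 1 := by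
  unfold ind
  simp

lemma sum_ind_mem (A : Finset G) : ∑ X, ind (X ∈ A) = A.card := by
  unfold ind
  simp

lemma sum_ind_smul (x : G) : ∑ X, ind (X = x) • X = x := by
  unfold ind
  simp

lemma card_good_ge {κ : G} {M : G → G → G} {t : ℕ} (hD : Dense κ (Good κ M) t) :
    (∀ X, X ≠ 0 → tRow κ M X ≤ t) ∧ (∀ Y, Y ≠ 0 → tCol κ M Y ≤ t) ∧
      ∀ Z, Z ≠ κ → tSym κ M Z ≤ t := by
  have hTG : ∀ X Y, Touched κ M X Y → ¬ Good κ M X Y := fun X Y h1 h2 => h1.2.2.2 h2.2.2.2
  refine ⟨fun X hX => ?_, fun Y hY => ?_, fun Z hZ => ?_⟩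
  · unfold tRow ind
    rw [Finset.sum_boole]
    have h1 := hD.row X hX
    have h2 : (univ.filter fun Y => Touched κ M X Y).card ≤
        (univ.filter fun Y => ¬ Good κ M X Y).card :=
      Finset.card_le_card fun Y hY => by
        rw [mem_filter] at hY ⊢
        exact ⟨hY.1, hTG _ _ hY.2⟩
    exact_mod_cast h2.trans h1
  · unfold tCol ind
    rw [Finset.sum_boole]
    have h1 := hD.col Y hY
    have h2 : (univ.filter fun X => Touched κ M X Y).card ≤
        (univ.filter fun X => ¬ Good κ M X Y).card :=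
      Finset.card_le_card fun X hX => by
        rw [mem_filter] at hX ⊢
        exact ⟨hX.1, hTG _ _ hX.2⟩
    exact_mod_cast h2.trans h1
  · unfold tSym ind
    rw [Finset.sum_boole]
    have h1 := hD.sym Z hZ
    have h2 : (univ.filter fun X => Touched κ M X (Z - X)).card ≤
        (univ.filter fun X => ¬ Good κ M X (Z - X)).card :=
      Finset.card_le_card fun X hX => by
        rw [mem_filter] at hX ⊢
        exact ⟨hX.1, hTG _ _ hX.2⟩
    exact_mod_cast h2.trans h1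

lemma tRow_nonneg (κ : G) (M : G → G → G) (X : G) : 0 ≤ tRow κ M X :=
  Finset.sum_nonneg fun _ _ => ind_nonneg _

lemma tCol_nonneg (κ : G) (M : G → G → G) (X : G) : 0 ≤ tCol κ M X :=
  Finset.sum_nonneg fun _ _ => ind_nonneg _

lemma tSym_nonneg (κ : G) (M : G → G → G) (X : G) : 0 ≤ tSym κ M X :=
  Finset.sum_nonneg fun _ _ => ind_nonneg _

lemma tRow_zero (κ : G) (M : G → G → G) : tRow κ M 0 = 0 :=
  Finset.sum_eq_zero fun _ _ => ind_false fun h => h.1 rfl

lemma tCol_zero (κ : G) (M : G → G → G) : tCol κ M 0 = 0 :=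
  Finset.sum_eq_zero fun _ _ => ind_false fun h => h.2.1 rfl

lemma tSym_kappa (κ : G) (M : G → G → G) : tSym κ M κ = 0 :=
  Finset.sum_eq_zero fun _ _ => ind_false fun h => h.2.2.1 (add_sub_cancel _ _)

/-- the weights of the part of the square left out of the plex -/
structure IsWeight (κ : G) (M : G → G → G) (A : Finset G) (τ : ℕ) (X0 Y0 Z0 : G) (g : ℕ)
    (q : G → G → ℤ) : Prop where
  good : ∀ X Y, Good κ M X Y → 1 ≤ q X Y ∧ q X Y + 1 ≤ g
  touched : ∀ X Y, Touched κ M X Y → q X Y = g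
  col0 : ∀ X, q X 0 = g * ind (X ∈ A)
  row0 : ∀ Y, q 0 Y = g * ind (Y ∈ A)
  hole : ∀ X, q X (κ - X) = g * ind (X ∈ A)
  rowSum : ∀ X, ∑ Y, q X Y = g * τ + 2 * ind (X ∈ A) + ind (X = X0)
  colSum : ∀ Y, ∑ X, q X Y = g * τ + ind (Y ∈ A) + ind (κ - Y ∈ A) + ind (Y = Y0)
  symSum : ∀ Z, ∑ X, q X (Z - X) = g * τ + 2 * ind (Z ∈ A) + ind (Z = Z0)

/-- the weights, assembled from the integral and the rational ones -/
def qfun (κ : G) (M : G → G → G) (A : Finset G) (z w : G → G → ℤ) (g : ℤ) (m : ℕ) (X Y : G) : ℤ :=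
  z X Y + m * w X Y + g * ind (Touched κ M X Y) +
    g * (ind (X ∈ A) * ind (Y = 0)) + g * (ind (X ∈ A) * ind (Y = κ - X)) +
    g * (ind (Y ∈ A) * ind (X = 0))

lemma assemble {κ : G} {M : G → G → G} (τ : ℕ)
    (A : Finset G) (hA0 : (0 : G) ∉ A) (hAκ : κ ∉ A) (X0 Y0 Z0 : G)
    (hAs : ∑ Y, ind (Y ∈ A) = τ) (D : ℕ) (w : G → G → ℤ)
    (hw0 : ∀ X Y, ¬ Good κ M X Y → w X Y = 0)
    (hw1 : ∀ X Y, Good κ M X Y → 1 ≤ w X Y ∧ w X Y + 1 ≤ D)
    (hwr : ∀ X, ∑ Y, w X Y = D * (τ * (1 - ind (X = 0)) - tRow κ M X - 2 * ind (X ∈ A)))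
    (hwc : ∀ Y, ∑ X, w X Y = D * (τ * (1 - ind (Y = 0)) - tCol κ M Y - ind (Y ∈ A) -
      ind (κ - Y ∈ A)))
    (hws : ∀ Z, ∑ X, w X (Z - X) = D * (τ * (1 - ind (Z = κ)) - tSym κ M Z - 2 * ind (Z ∈ A)))
    (z : G → G → ℤ) (hz0 : ∀ X Y, ¬ Good κ M X Y → z X Y = 0)
    (hzr : ∀ X, ∑ Y, z X Y = τ * (1 - ind (X = 0)) - tRow κ M X + ind (X = X0))
    (hzc : ∀ Y, ∑ X, z X Y = τ * (1 - ind (Y = 0)) - tCol κ M Y + ind (Y = Y0))
    (hzs : ∀ Z, ∑ X, z X (Z - X) = τ * (1 - ind (Z = κ)) - tSym κ M Z + ind (Z = Z0))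
    (m : ℕ) (hm : (∑ X, ∑ Y, |z X Y|).toNat + 1 ≤ m) :
    IsWeight κ M A τ X0 Y0 Z0 (1 + D * m) (qfun κ M A z w (1 + D * m) m) := by
  have hzb : ∀ X Y, |z X Y| + 1 ≤ m := by
    intro X Y
    have h1 : |z X Y| ≤ ∑ X, ∑ Y, |z X Y| :=
      (Finset.single_le_sum (f := fun Y => |z X Y|) (fun _ _ => abs_nonneg _)
        (mem_univ Y)).trans (Finset.single_le_sum (f := fun X => ∑ Y, |z X Y|)
          (fun _ _ => Finset.sum_nonneg fun _ _ => abs_nonneg _) (mem_univ X))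
    omega
  obtain ⟨g, hgdef⟩ : ∃ g : ℤ, g = 1 + D * m := ⟨_, rfl⟩
  have hgc : ((1 + D * m : ℕ) : ℤ) = g := by rw [hgdef]; push_cast; rfl
  rw [← hgdef]
  obtain ⟨q, hq'⟩ : ∃ q : G → G → ℤ, q = qfun κ M A z w g m := ⟨_, rfl⟩
  have hq : ∀ X Y, q X Y = z X Y + m * w X Y + g * ind (Touched κ M X Y) +
    g * (ind (X ∈ A) * ind (Y = 0)) + g * (ind (X ∈ A) * ind (Y = κ - X)) +
    g * (ind (Y ∈ A) * ind (X = 0)) := fun _ _ => by rw [hq']; rfl
  rw [← hq']
  have hng0 : ∀ X, ¬ Good κ M X 0 := fun X h => h.2.1 rfl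
  have hng0' : ∀ X, ¬ Good κ M 0 X := fun X h => h.1 rfl
  have hngκ : ∀ X, ¬ Good κ M X (κ - X) := fun X h => h.2.2.1 (add_sub_cancel _ _)
  have hnt0 : ∀ X, ¬ Touched κ M X 0 := fun X h => h.2.1 rfl
  have hnt0' : ∀ X, ¬ Touched κ M 0 X := fun X h => h.1 rfl
  have hntκ : ∀ X, ¬ Touched κ M X (κ - X) := fun X h => h.2.2.1 (add_sub_cancel _ _)
  refine ⟨?_, ?_, ?_, ?_, ?_, ?_, ?_, ?_⟩
  · intro X Y h
    have hnT : ¬ Touched κ M X Y := fun h' => h'.2.2.2 h.2.2.2
    have hh : ¬ (Y = κ - X) := fun h' => h.2.2.1 (by rw [h', add_sub_cancel])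
    have h1 : q X Y = z X Y + m * w X Y := by
      rw [hq, ind_false hnT, ind_false h.2.1, ind_false hh, ind_false h.1]
      ring
    obtain ⟨h2, h3⟩ := hw1 X Y h
    have h4 := hzb X Y
    have h5 := abs_le.mp (le_refl |z X Y|)
    rw [hgc, h1, hgdef]
    have h6 : (0 : ℤ) ≤ m := by positivity
    constructor
    · nlinarith
    · nlinarith
  · intro X Y h
    have hnG : ¬ Good κ M X Y := fun h' => h.2.2.2 h'.2.2.2
    have hh : ¬ (Y = κ - X) := fun h' => h.2.2.1 (by rw [h', add_sub_cancel])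
    rw [hq, hz0 X Y hnG, hw0 X Y hnG, ind_true h, ind_false h.2.1, ind_false hh, ind_false h.1,
      hgc]
    ring
  · intro X
    rw [hq, hz0 X 0 (hng0 X), hw0 X 0 (hng0 X), ind_false (hnt0 X), ind_true (rfl : (0 : G) = 0),
      ind_false hA0, hgc]
    by_cases hX : X ∈ A
    · have h1 : ¬ (0 = κ - X) := by
        intro h
        rw [eq_comm, sub_eq_zero] at h
        exact hAκ (h ▸ hX)
      rw [ind_false h1]
      ring
    · rw [ind_false hX]
      ring
  · intro Y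
    rw [hq, hz0 0 Y (hng0' Y), hw0 0 Y (hng0' Y), ind_false (hnt0' Y), ind_true (rfl : (0 : G) = 0),
      ind_false hA0, hgc]
    ring
  · intro X
    rw [hq, hz0 X _ (hngκ X), hw0 X _ (hngκ X), ind_false (hntκ X),
      ind_true (rfl : κ - X = κ - X), hgc]
    have h1 : ind (κ - X ∈ A) * ind (X = 0) = 0 := by
      by_cases hX : X = 0
      · rw [hX, sub_zero, ind_false hAκ, zero_mul]
      · rw [ind_false hX, mul_zero]
    have h2 : ind (X ∈ A) * ind (κ - X = 0) = 0 := by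
      by_cases hX : κ - X = 0
      · rw [sub_eq_zero] at hX
        rw [← hX, ind_false hAκ, zero_mul]
      · rw [ind_false hX, mul_zero]
    rw [h1, h2]
    ring
  · intro X
    simp only [hq, Finset.sum_add_distrib, ← Finset.mul_sum, ← Finset.sum_mul, hzr, hwr,
      sum_ind_eq, hAs]
    have h1 : ∑ Y, ind (Touched κ M X Y) = tRow κ M X := rfl
    rw [h1, hgc]
    by_cases hX : X = 0
    · subst hX
      rw [ind_false hA0, ind_true (rfl : (0 : G) = 0), tRow_zero]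
      rw [hgdef]
      ring
    · rw [ind_false hX, hgdef]
      ring
  · intro Y
    simp only [hq, Finset.sum_add_distrib, ← Finset.mul_sum, ← Finset.sum_mul, hzc, hwc,
      sum_ind_eq, hAs]
    have h1 : ∑ X, ind (Touched κ M X Y) = tCol κ M Y := rfl
    have h2 : ∑ X, ind (X ∈ A) * ind (Y = κ - X) = ind (κ - Y ∈ A) := by
      rw [Finset.sum_eq_single (κ - Y)]
      · rw [sub_sub_cancel, ind_true (rfl : Y = Y), mul_one]
      · intro X _ hX
        rw [ind_false (fun h : Y = κ - X => hX (by rw [h, sub_sub_cancel])), mul_zero]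
      · intro h
        exact absurd (mem_univ _) h
    rw [h1, h2, hgc]
    by_cases hY : Y = 0
    · subst hY
      have h3 : κ - 0 ∉ A := by rwa [sub_zero]
      rw [ind_false hA0, ind_false h3, ind_true (rfl : (0 : G) = 0), tCol_zero]
      rw [hgdef]
      ring
    · rw [ind_false hY, hgdef]
      ring
  · intro Z
    simp only [hq, Finset.sum_add_distrib, ← Finset.mul_sum, hzs, hws]
    have h1 : ∑ X, ind (Touched κ M X (Z - X)) = tSym κ M Z := rfl
    have h2 : ∑ X, ind (X ∈ A) * ind (Z - X = 0) = ind (Z ∈ A) := by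
      rw [Finset.sum_eq_single Z]
      · rw [sub_self, ind_true (rfl : (0 : G) = 0), mul_one]
      · intro X _ hX
        rw [ind_false (fun h : Z - X = 0 => hX (sub_eq_zero.mp h).symm), mul_zero]
      · intro h
        exact absurd (mem_univ _) h
    have h3 : ∑ X, ind (X ∈ A) * ind (Z - X = κ - X) = τ * ind (Z = κ) := by
      by_cases hZκ : Z = κ
      · rw [hZκ, ind_true rfl, mul_one, ← hAs]
        apply Finset.sum_congr rfl
        intro X _
        rw [ind_true rfl, mul_one]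
      · rw [ind_false hZκ, mul_zero]
        apply Finset.sum_eq_zero
        intro X _
        rw [ind_false (fun h : Z - X = κ - X => hZκ (sub_left_inj.mp h)), mul_zero]
    have h4 : ∑ X, ind (Z - X ∈ A) * ind (X = 0) = ind (Z ∈ A) := by
      rw [Finset.sum_eq_single 0]
      · rw [sub_zero, ind_true (rfl : (0 : G) = 0), mul_one]
      · intro X _ hX
        rw [ind_false hX, mul_zero]
      · intro h
        exact absurd (mem_univ _) h
    rw [h1, h2, h3, h4, hgc]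
    by_cases hZκ : Z = κ
    · subst hZκ
      rw [ind_false hAκ, ind_true (rfl : Z = Z), tSym_kappa]
      rw [hgdef]
      ring
    · rw [ind_false hZκ, hgdef]
      ring

theorem exists_weights {κ : G} {M : G → G → G} (hM : Punctured κ M) {t : ℕ}
    (hD : Dense κ (Good κ M) t) (τ : ℕ) (hτ : Even τ) (hG : 4 ≤ Fintype.card G)
    (ht : 40 * t + 1 ≤ Fintype.card G) (htτ : 8 * (t + 2) ≤ τ)
    (hτG : 2 * (τ + 2 * t + 4) + 1 ≤ Fintype.card G)
    (A : Finset G) (hA : A.card = τ) (hA0 : (0 : G) ∉ A) (hAκ : κ ∉ A) (X0 Y0 Z0 : G)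
    (hX0 : X0 ≠ 0) (hY0 : Y0 ≠ 0) (hZ0 : Z0 ≠ κ) (hZ : Z0 = X0 + Y0 + τ • κ) :
    ∃ (D : ℕ) (m0 : ℕ), 0 < D ∧ ∀ m, m0 ≤ m → ∃ q : G → G → ℤ,
      IsWeight κ M A τ X0 Y0 Z0 (1 + D * m) q := by
  obtain ⟨htr, htc, hts⟩ := card_good_ge hD
  -- the total number of touched blocks
  set NT : ℤ := ∑ X, ∑ Y, ind (Touched κ M X Y) with hNT
  have hNr : ∑ X, tRow κ M X = NT := rfl
  have hNc : ∑ Y, tCol κ M Y = NT := Finset.sum_comm
  have hNs : ∑ Z, tSym κ M Z = NT := sum_reindex (fun X Y => ind (Touched κ M X Y))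
  have hAκ' : ∑ Y, ind (κ - Y ∈ A) = τ := by
    rw [← hA, ← sum_ind_mem A]
    exact Equiv.sum_comp (Equiv.subLeft κ) (fun Y => ind (Y ∈ A))
  have hAs : ∑ Y, ind (Y ∈ A) = τ := by rw [sum_ind_mem A, hA]
  -- the rational weights
  let u1 : G → ℤ := fun X => τ * (1 - ind (X = 0)) - tRow κ M X - 2 * ind (X ∈ A)
  let u2 : G → ℤ := fun Y => τ * (1 - ind (Y = 0)) - tCol κ M Y - ind (Y ∈ A) - ind (κ - Y ∈ A)
  let u3 : G → ℤ := fun Z => τ * (1 - ind (Z = κ)) - tSym κ M Z - 2 * ind (Z ∈ A)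
  set b : ℤ := ((Fintype.card G : ℕ) : ℤ) with hb
  have hu1s : ∑ X, u1 X = τ * (b - 1) - NT - 2 * τ := by
    simp only [u1, Finset.sum_sub_distrib, ← Finset.mul_sum, sum_ind_eq, hNr, hAs]
    simp [hb]
  have hu2s : ∑ X, u2 X = τ * (b - 1) - NT - 2 * τ := by
    simp only [u2, Finset.sum_sub_distrib, ← Finset.mul_sum, sum_ind_eq, hNc, hAs, hAκ']
    simp [hb]
    ring
  have hu3s : ∑ X, u3 X = τ * (b - 1) - NT - 2 * τ := by
    simp only [u3, Finset.sum_sub_distrib, ← Finset.mul_sum, sum_ind_eq, hNs, hAs]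
    simp [hb]
  have hu10 : u1 0 = 0 := by
    simp [u1, ind_true, ind_false hA0, tRow_zero]
  have hu20 : u2 0 = 0 := by
    have h1 : κ - 0 ∉ A := by rwa [sub_zero]
    simp only [u2, ind_true, ind_false hA0, ind_false h1, tCol_zero]
    ring
  have hu3κ : u3 κ = 0 := by
    simp [u3, ind_true, ind_false hAκ, tSym_kappa]
  obtain ⟨qr, hqr0, hqr1, hqrr, hqrc, hqrs⟩ := exists_rat_G hM hD (by omega) ht
    (fun X => (u1 X : ℚ)) (fun X => (u2 X : ℚ)) (fun X => (u3 X : ℚ)) (by simp [hu10])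
    (by simp [hu20]) (by simp [hu3κ]) ((τ * (b - 1) - NT - 2 * τ : ℤ) : ℚ)
    (by rw [← hu1s]; push_cast; rfl) (by rw [← hu2s]; push_cast; rfl)
    (by rw [← hu3s]; push_cast; rfl) ((τ - (t + 2) : ℤ) : ℚ) ((τ : ℤ) : ℚ)
    (by
      have : 0 < τ := by omega
      exact_mod_cast this)
    (by
      have : 7 * (τ : ℤ) ≤ 8 * (τ - (t + 2)) := by
        have h1 : (8 * (t + 2) : ℤ) ≤ τ := by exact_mod_cast htτ
        linarith
      exact_mod_cast this)
    (by
      have : 2 * (3 * (τ : ℤ) - 2 * (τ - (t + 2))) + 1 ≤ b := by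
        have h1 : (2 * (τ + 2 * t + 4) + 1 : ℤ) ≤ b := by
          rw [hb]
          exact_mod_cast hτG
        linarith
      exact_mod_cast this)
    (by
      intro X hX
      have h1 : u1 X = τ - tRow κ M X - 2 * ind (X ∈ A) := by
        simp only [u1, ind_false hX]
        ring
      have h2 := htr X hX
      have h3 := tRow_nonneg κ M X
      have h4 := ind_nonneg (X ∈ A)
      have h5 := ind_le_one (X ∈ A)
      constructor
      · have : (τ - (t + 2) : ℤ) ≤ u1 X := by rw [h1]; linarith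
        exact_mod_cast this
      · have : u1 X ≤ τ := by rw [h1]; linarith
        exact_mod_cast this)
    (by
      intro X hX
      have h1 : u2 X = τ - tCol κ M X - ind (X ∈ A) - ind (κ - X ∈ A) := by
        simp only [u2, ind_false hX]
        ring
      have h2 := htc X hX
      have h3 := tCol_nonneg κ M X
      have h4 := ind_nonneg (X ∈ A)
      have h5 := ind_le_one (X ∈ A)
      have h6 := ind_nonneg (κ - X ∈ A)
      have h7 := ind_le_one (κ - X ∈ A)
      constructor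
      · have : (τ - (t + 2) : ℤ) ≤ u2 X := by rw [h1]; linarith
        exact_mod_cast this
      · have : u2 X ≤ τ := by rw [h1]; linarith
        exact_mod_cast this)
    (by
      intro X hX
      have h1 : u3 X = τ - tSym κ M X - 2 * ind (X ∈ A) := by
        simp only [u3, ind_false hX]
        ring
      have h2 := hts X hX
      have h3 := tSym_nonneg κ M X
      have h4 := ind_nonneg (X ∈ A)
      have h5 := ind_le_one (X ∈ A)
      constructor
      · have : (τ - (t + 2) : ℤ) ≤ u3 X := by rw [h1]; linarith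
        exact_mod_cast this
      · have : u3 X ≤ τ := by rw [h1]; linarith
        exact_mod_cast this)
  obtain ⟨D, w, hD0, hwq, hw0, hw1⟩ := exists_scaled hqr0 hqr1
  have hwr : ∀ X, ∑ Y, w X Y = D * u1 X := by
    intro X
    have h1 : ((∑ Y, w X Y : ℤ) : ℚ) = ((D * u1 X : ℤ) : ℚ) := by
      push_cast
      rw [← hqrr X, Finset.mul_sum]
      exact Finset.sum_congr rfl fun Y _ => hwq X Y
    exact_mod_cast h1
  have hwc : ∀ Y, ∑ X, w X Y = D * u2 Y := by
    intro Y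
    have h1 : ((∑ X, w X Y : ℤ) : ℚ) = ((D * u2 Y : ℤ) : ℚ) := by
      push_cast
      rw [← hqrc Y, Finset.mul_sum]
      exact Finset.sum_congr rfl fun X _ => hwq X Y
    exact_mod_cast h1
  have hws : ∀ Z, ∑ X, w X (Z - X) = D * u3 Z := by
    intro Z
    have h1 : ((∑ X, w X (Z - X) : ℤ) : ℚ) = ((D * u3 Z : ℤ) : ℚ) := by
      push_cast
      rw [← hqrs Z, Finset.mul_sum]
      exact Finset.sum_congr rfl fun X _ => hwq X (Z - X)
    exact_mod_cast h1
  -- the integral weights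
  let v1 : G → ℤ := fun X => τ * (1 - ind (X = 0)) - tRow κ M X + ind (X = X0)
  let v2 : G → ℤ := fun Y => τ * (1 - ind (Y = 0)) - tCol κ M Y + ind (Y = Y0)
  let v3 : G → ℤ := fun Z => τ * (1 - ind (Z = κ)) - tSym κ M Z + ind (Z = Z0)
  have hlab : ∑ X, v1 X • X + ∑ Y, v2 Y • Y = ∑ Z, v3 Z • Z := by
    have e0 : ∀ (c : G) (tt : G → ℤ) (W : G), ∑ X, ((τ : ℤ) * (1 - ind (X = c)) - tt X +
        ind (X = W)) • X = (τ : ℤ) • (∑ X : G, X) - (τ : ℤ) • c - ∑ X, tt X • X + W := by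
      intro c tt W
      have e00 : ∑ X, (τ : ℤ) • ind (X = c) • X = (τ : ℤ) • c := by
        rw [← Finset.smul_sum, sum_ind_smul]
      rw [Finset.smul_sum]
      simp only [add_smul, sub_smul, mul_smul, Finset.sum_add_distrib, Finset.sum_sub_distrib,
        one_smul, sum_ind_smul, smul_sub, e00]
    have e1 : ∑ X, tRow κ M X • X = ∑ X, ∑ Y, ind (Touched κ M X Y) • X := by
      apply Finset.sum_congr rfl
      intro X _
      rw [tRow, Finset.sum_smul]
    have e2 : ∑ Y, tCol κ M Y • Y = ∑ X, ∑ Y, ind (Touched κ M X Y) • Y := by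
      rw [Finset.sum_comm]
      apply Finset.sum_congr rfl
      intro X _
      rw [tCol, Finset.sum_smul]
    have e3 : ∑ Z, tSym κ M Z • Z = ∑ X, ∑ Y, ind (Touched κ M X Y) • (X + Y) := by
      rw [← sum_reindex (fun X Y => ind (Touched κ M X Y) • (X + Y))]
      apply Finset.sum_congr rfl
      intro Z _
      rw [tSym, Finset.sum_smul]
      apply Finset.sum_congr rfl
      intro X _
      rw [add_sub_cancel]
    have e4 : ∑ Z, tSym κ M Z • Z = ∑ X, tRow κ M X • X + ∑ Y, tCol κ M Y • Y := by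
      rw [e1, e2, e3, ← Finset.sum_add_distrib]
      apply Finset.sum_congr rfl
      intro X _
      rw [← Finset.sum_add_distrib]
      apply Finset.sum_congr rfl
      intro Y _
      rw [smul_add]
    have e5 : (τ : ℤ) • (∑ X : G, X) = 0 := by
      obtain ⟨r, hr⟩ := hτ
      rw [hr]
      push_cast
      rw [add_smul, ← smul_add, sum_add_self, smul_zero]
    show ∑ X, ((τ : ℤ) * (1 - ind (X = 0)) - tRow κ M X + ind (X = X0)) • X +
      ∑ X, ((τ : ℤ) * (1 - ind (X = 0)) - tCol κ M X + ind (X = Y0)) • X =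
      ∑ X, ((τ : ℤ) * (1 - ind (X = κ)) - tSym κ M X + ind (X = Z0)) • X
    rw [e0 0 (tRow κ M) X0, e0 0 (tCol κ M) Y0, e0 κ (tSym κ M) Z0, e4, e5, hZ]
    simp only [smul_zero, sub_zero, zero_sub, natCast_zsmul]
    abel
  obtain ⟨z, hz0, hzr, hzc, hzs⟩ := hD.exists_int (by omega) hG v1 v2 v3
    (by simp [v1, ind_true, ind_false (Ne.symm hX0), tRow_zero])
    (by simp [v2, ind_true, ind_false (Ne.symm hY0), tCol_zero])
    (by simp [v3, ind_true, ind_false (Ne.symm hZ0), tSym_kappa])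
    (τ * (b - 1) - NT + 1)
    (by
      simp only [v1, Finset.sum_sub_distrib, Finset.sum_add_distrib, ← Finset.mul_sum, sum_ind_eq,
        hNr]
      simp [hb])
    (by
      simp only [v2, Finset.sum_sub_distrib, Finset.sum_add_distrib, ← Finset.mul_sum, sum_ind_eq,
        hNc]
      simp [hb])
    (by
      simp only [v3, Finset.sum_sub_distrib, Finset.sum_add_distrib, ← Finset.mul_sum, sum_ind_eq,
        hNs]
      simp [hb]) hlab
  refine ⟨D, (∑ X, ∑ Y, |z X Y|).toNat + 1, hD0, ?_⟩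
  intro m hm
  exact ⟨_, assemble τ A hA0 hAκ X0 Y0 Z0 hAs D w hw0 hw1 hwr hwc hws z hz0 hzr hzc hzs m hm⟩

end Pool.Agent.Lib.MP_185394_co.Near
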